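import Mathlib

/-!
Definitions for MP_1670b2_al: varieties of (not necessarily associative) algebras over a
field, the Specht property, superalgebras, Grassmann envelopes, finite basic superrank.
-/

open scoped TensorProduct

namespace Pool.Agent.MP_1670b2_al

universe u

/-- The free nonassociative `F`-algebra on countably many variables. -/
abbrev Poly (F : Type u) [Field F] : Type u := FreeNonUnitalNonAssocAlgebra F ℕ

section Varieties

variable (F : Type u) [Field F]

/-- The algebra `A` satisfies the identity `f = 0`. -/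
def Satisfies (A : Type u) [NonUnitalNonAssocRing A] [Module F A] [IsScalarTower F A A]
    [SMulCommClass F A A] (f : Poly F) : Prop :=
  ∀ v : ℕ → A, FreeNonUnitalNonAssocAlgebra.lift F v f = 0

/-- `A` belongs to the variety defined by the set `E` of identities. -/
def InVariety (E : Set (Poly F)) (A : Type u) [NonUnitalNonAssocRing A] [Module F A]
    [IsScalarTower F A A] [SMulCommClass F A A] : Prop :=
  ∀ f ∈ E, Satisfies F A f

/-- `A` has a finite basis of identities: finitely many identities of `A` such that every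
algebra satisfying them satisfies all the identities of `A`. -/
def FinitelyBased (A : Type u) [NonUnitalNonAssocRing A] [Module F A] [IsScalarTower F A A]
    [SMulCommClass F A A] : Prop :=
  ∃ S : Set (Poly F), S.Finite ∧ (∀ f ∈ S, Satisfies F A f) ∧
    ∀ (B : Type u) [NonUnitalNonAssocRing B] [Module F B] [IsScalarTower F B B]
      [SMulCommClass F B B], InVariety F S B → ∀ f : Poly F, Satisfies F A f → Satisfies F B f

/-- The variety defined by `E` is Spechtian: each of its algebras has a finite basis of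
identities. -/
def Spechtian (E : Set (Poly F)) : Prop :=
  ∀ (A : Type u) [NonUnitalNonAssocRing A] [Module F A] [IsScalarTower F A A]
    [SMulCommClass F A A], InVariety F E A → FinitelyBased F A

/-- The variety defined by `E` is generated by the algebra `A`: its members are exactly the
algebras that satisfy all identities of `A`. -/
def GeneratedBy (E : Set (Poly F)) (A : Type u) [NonUnitalNonAssocRing A] [Module F A]
    [IsScalarTower F A A] [SMulCommClass F A A] : Prop :=
  ∀ (B : Type u) [NonUnitalNonAssocRing B] [Module F B] [IsScalarTower F B B]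
    [SMulCommClass F B B],
    InVariety F E B ↔ ∀ f : Poly F, Satisfies F A f → Satisfies F B f

end Varieties

section Superalgebras

variable (F : Type u) [Field F]

/-- The Grassmann algebra on countably many generators. -/
abbrev Grass : Type u := ExteriorAlgebra F (ℕ →₀ F)

/-- The generator `e_i` of the Grassmann algebra. -/
noncomputable def gen (i : ℕ) : Grass F := ExteriorAlgebra.ι F (Finsupp.single i 1)

/-- The component `G_i` (`i ∈ ℤ/2`) of the Grassmann algebra, spanned by the words in the
generators whose length has parity `i`. -/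
noncomputable def grassPart (i : ZMod 2) : Submodule F (Grass F) :=
  Submodule.span F {w | ∃ l : List ℕ, (l.length : ZMod 2) = i ∧ w = (l.map (gen F)).prod}

theorem grassPart_mul {i j : ZMod 2} {a b : Grass F} (ha : a ∈ grassPart F i)
    (hb : b ∈ grassPart F j) : a * b ∈ grassPart F (i + j) := by
  have h1 : a * b ∈ grassPart F i * grassPart F j := Submodule.mul_mem_mul ha hb
  refine (?_ : grassPart F i * grassPart F j ≤ _) h1
  unfold grassPart
  rw [Submodule.span_mul_span]
  refine Submodule.span_mono ?_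
  rintro _ ⟨x, ⟨l, hl, rfl⟩, y, ⟨m, hm, rfl⟩, rfl⟩
  exact ⟨l ++ m, by simp [hl, hm], by simp⟩

variable (A : Type u) [NonUnitalNonAssocRing A] [Module F A] [IsScalarTower F A A]
    [SMulCommClass F A A]

/-- `𝒜 0`, `𝒜 1` is a superalgebra structure on the algebra `A`: `A = 𝒜 0 ⊕ 𝒜 1` and
`𝒜 i * 𝒜 j ⊆ 𝒜 (i + j)`. -/
structure IsSuper (𝒜 : ZMod 2 → Submodule F A) : Prop where
  isInternal : DirectSum.IsInternal 𝒜
  mul_mem : ∀ i j : ZMod 2, ∀ a ∈ 𝒜 i, ∀ b ∈ 𝒜 j, a * b ∈ 𝒜 (i + j)

/-- The space `G_0 ⊗ 𝒜 0 + G_1 ⊗ 𝒜 1` inside `G ⊗ A`. -/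
noncomputable def envSpace (𝒜 : ZMod 2 → Submodule F A) : Submodule F (Grass F ⊗[F] A) :=
  Submodule.span F {t | ∃ i : ZMod 2, ∃ g ∈ grassPart F i, ∃ a ∈ 𝒜 i, t = g ⊗ₜ[F] a}

variable {A} in
theorem envSpace_mul {𝒜 : ZMod 2 → Submodule F A} (h : IsSuper F A 𝒜) (x y : Grass F ⊗[F] A)
    (hx : x ∈ envSpace F A 𝒜) (hy : y ∈ envSpace F A 𝒜) : x * y ∈ envSpace F A 𝒜 := by
  unfold envSpace at hx hy ⊢
  induction hx using Submodule.span_induction with
  | mem x hx =>
    obtain ⟨i, g, hg, a, ha, rfl⟩ := hx
    induction hy using Submodule.span_induction with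
    | mem y hy =>
      obtain ⟨j, g', hg', a', ha', rfl⟩ := hy
      rw [Algebra.TensorProduct.tmul_mul_tmul]
      exact Submodule.subset_span
        ⟨i + j, _, grassPart_mul F hg hg', _, h.mul_mem i j a ha a' ha', rfl⟩
    | zero => rw [mul_zero]; exact Submodule.zero_mem _
    | add y z _ _ h1 h2 => rw [mul_add]; exact Submodule.add_mem _ h1 h2
    | smul c y _ h1 => rw [mul_smul_comm]; exact Submodule.smul_mem _ _ h1
  | zero => rw [zero_mul]; exact Submodule.zero_mem _
  | add y z _ _ h1 h2 => rw [add_mul]; exact Submodule.add_mem _ h1 h2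
  | smul c y _ h1 => rw [smul_mul_assoc]; exact Submodule.smul_mem _ _ h1

variable {A} in
/-- The Grassmann envelope `G(𝒜) = G_0 ⊗ 𝒜 0 + G_1 ⊗ 𝒜 1`, a subalgebra of `G ⊗ A`. -/
noncomputable def envelope {𝒜 : ZMod 2 → Submodule F A} (h : IsSuper F A 𝒜) :
    NonUnitalSubalgebra F (Grass F ⊗[F] A) :=
  (envSpace F A 𝒜).toNonUnitalSubalgebra (envSpace_mul F h)

/-- The variety defined by `E` has a finite basic superrank: it is generated by the Grassmann
envelope of a finitely generated superalgebra. -/
def HasFiniteBasicSuperrank (E : Set (Poly F)) : Prop :=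
  ∃ (A : Type u) (_ : NonUnitalNonAssocRing A) (_ : Module F A) (_ : IsScalarTower F A A)
    (_ : SMulCommClass F A A) (𝒜 : ZMod 2 → Submodule F A) (h : IsSuper F A 𝒜),
    (∃ S : Set A, S.Finite ∧ NonUnitalAlgebra.adjoin F S = ⊤) ∧
      GeneratedBy F E (envelope F h)

end Superalgebras

section TheVariety

variable (F : Type u) [Field F]

/-- The variable `x_i`. -/
noncomputable def X (i : ℕ) : Poly F := FreeNonUnitalNonAssocAlgebra.of F i

/-- The identity `x₀ (x₁ x₂) = 0`. -/
noncomputable def I1 : Poly F := X F 0 * (X F 1 * X F 2)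

/-- The identity `((x₀x₁)x₂)x₃ - ((x₀x₂)x₁)x₃ - ((x₀x₃)x₁)x₂ + ((x₀x₃)x₂)x₁ = 0`. -/
noncomputable def I2 : Poly F :=
  ((X F 0 * X F 1) * X F 2) * X F 3 - ((X F 0 * X F 2) * X F 1) * X F 3
    - (((X F 0 * X F 3) * X F 1) * X F 2 - ((X F 0 * X F 3) * X F 2) * X F 1)

/-- The two defining identities. -/
noncomputable def EE : Set (Poly F) := {I1 F, I2 F}

end TheVariety

end Pool.Agent.MP_1670b2_al
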