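import Pool.Agent.Work.MP_1670b2_al.Surj
import Pool.Agent.Work.MP_1670b2_al.Defs

/-!
Identities of algebras with `x(yz) = 0` and `[[R_x, R_y], R_z] = 0`; the variety is Spechtian.
-/

open MvPolynomial

set_option linter.unusedSectionVars false

namespace Pool.Agent.MP_1670b2_al

universe u

section Action

variable {F : Type u} [Field F]
variable {A : Type u} [NonUnitalNonAssocRing A] [Module F A] [IsScalarTower F A A]
  [SMulCommClass F A A]

/-- the right action of words -/
noncomputable def act (v : ℕ → A) : FreeAlgebra F ℕ →ₐ[F] (Module.End F A)ᵐᵒᵖ :=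
  FreeAlgebra.lift F (fun k => MulOpposite.op (LinearMap.mulRight F (v k)))

/-- `a ∘ b` -/
noncomputable def ac (v : ℕ → A) (b : FreeAlgebra F ℕ) : Module.End F A := (act v b).unop

theorem ac_one (v : ℕ → A) (a : A) : ac v (1 : FreeAlgebra F ℕ) a = a := by
  rw [ac, map_one]; rfl

theorem ac_ι (v : ℕ → A) (k : ℕ) (a : A) : ac v (FreeAlgebra.ι F k) a = a * v k := by
  rw [ac, act, FreeAlgebra.lift_ι_apply]; rfl

theorem ac_mul (v : ℕ → A) (b c : FreeAlgebra F ℕ) (a : A) :
    ac v (b * c) a = ac v c (ac v b a) := by
  rw [ac, map_mul]; rfl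

theorem ac_add (v : ℕ → A) (b c : FreeAlgebra F ℕ) (a : A) :
    ac v (b + c) a = ac v b a + ac v c a := by
  rw [ac, map_add]; rfl

theorem ac_sub (v : ℕ → A) (b c : FreeAlgebra F ℕ) (a : A) :
    ac v (b - c) a = ac v b a - ac v c a := by
  rw [ac, map_sub]; rfl

theorem ac_smul (v : ℕ → A) (t : F) (b : FreeAlgebra F ℕ) (a : A) :
    ac v (t • b) a = t • ac v b a := by
  rw [ac, map_smul]; rfl

theorem ac_zero (v : ℕ → A) (a : A) : ac v (0 : FreeAlgebra F ℕ) a = 0 := by
  rw [ac, map_zero]; rfl

/-- naturality -/
theorem ac_hom {B : Type u} [NonUnitalNonAssocRing B] [Module F B] [IsScalarTower F B B]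
    [SMulCommClass F B B] (φ : A →ₙₐ[F] B) (v : ℕ → A) (b : FreeAlgebra F ℕ) :
    ∀ a : A, φ (ac v b a) = ac (fun k => φ (v k)) b (φ a) := by
  induction b using FreeAlgebra.induction with
  | grade0 t =>
    intro a
    rw [Algebra.algebraMap_eq_smul_one, ac_smul, ac_smul, ac_one, ac_one, map_smul]
  | grade1 j =>
    intro a
    rw [ac_ι, ac_ι, map_mul]
  | mul b c hb hc =>
    intro a
    rw [ac_mul, ac_mul, hc, hb]
  | add b c hb hc =>
    intro a
    rw [ac_add, ac_add, map_add, hb, hc]

theorem lift_X (v : ℕ → A) (i : ℕ) : FreeNonUnitalNonAssocAlgebra.lift F v (X F i) = v i := by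
  rw [Pool.Agent.MP_1670b2_al.X, FreeNonUnitalNonAssocAlgebra.lift_of_apply]

theorem I1_iff : Satisfies F A (I1 F) ↔ ∀ a b c : A, a * (b * c) = 0 := by
  constructor
  · intro h a b c
    have := h (fun n => if n = 0 then a else if n = 1 then b else c)
    rw [I1, map_mul, map_mul, lift_X, lift_X, lift_X] at this
    simpa using this
  · intro h v
    rw [I1, map_mul, map_mul, lift_X, lift_X, lift_X]
    exact h _ _ _

theorem I2_imp (h : Satisfies F A (I2 F)) (a x y z : A) :
    ((a * x) * y) * z - ((a * y) * x) * z - (((a * z) * x) * y - ((a * z) * y) * x) = 0 := by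
  have := h (fun n => if n = 0 then a else if n = 1 then x else if n = 2 then y else z)
  rw [I2] at this
  simp only [map_sub, map_mul, lift_X] at this
  simpa using this

theorem mem_V : InVariety F (EE F) A ↔ Satisfies F A (I1 F) ∧ Satisfies F A (I2 F) := by
  constructor
  · intro h
    exact ⟨h _ (Or.inl rfl), h _ (Or.inr rfl)⟩
  · rintro ⟨h1, h2⟩ f (rfl | hf)
    · exact h1
    · rw [Set.mem_singleton_iff] at hf; subst hf; exact h2

/-- PBW applied to an algebra of the variety -/
theorem ac_of_theta_zero [CharZero F] (hA : InVariety F (EE F) A) (v : ℕ → A)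
    {b : FreeAlgebra F ℕ} (hb : theta F b = 0) (a : A) : ac v b a = 0 := by
  have h := pbw (F := F) (fun k => MulOpposite.op (LinearMap.mulRight F (v k))) (by
    intro i j k
    apply MulOpposite.unop_injective
    apply LinearMap.ext
    intro a
    have h2 := I2_imp (mem_V.mp hA).2 a (v i) (v j) (v k)
    simp only [MulOpposite.unop_mul, MulOpposite.unop_sub, MulOpposite.unop_op,
      Module.End.mul_apply, LinearMap.sub_apply, LinearMap.mulRight_apply, sub_mul]
    rw [← sub_eq_zero]
    exact h2) hb
  have h3 : act v b = 0 := h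
  rw [ac, h3]; rfl

variable (F A) in
/-- the words that kill `A²` -/
noncomputable def Kill : Submodule F (FreeAlgebra F ℕ) where
  carrier := {b | ∀ (v : ℕ → A) (a c : A), ac v b (a * c) = 0}
  add_mem' := by
    intro b c hb hc v a d
    rw [ac_add, hb, hc, add_zero]
  zero_mem' := by intro v a c; rw [ac_zero]
  smul_mem' := by
    intro t b hb v a c
    rw [ac_smul, hb, smul_zero]

theorem mem_Kill {b : FreeAlgebra F ℕ} :
    b ∈ Kill F A ↔ ∀ (v : ℕ → A) (a c : A), ac v b (a * c) = 0 := Iff.rfl

variable (F A) in
/-- the image `K(A)` -/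
noncomputable def KA : Submodule F (CC F) := (Kill F A).map (theta F)

theorem mem_Kill_of_theta [CharZero F] (hA : InVariety F (EE F) A) {b : FreeAlgebra F ℕ}
    (hb : theta F b ∈ KA F A) : b ∈ Kill F A := by
  obtain ⟨c, hc, hcb⟩ := hb
  intro v a d
  have h1 : theta F (b - c) = 0 := by rw [map_sub, hcb, sub_self]
  have h2 := ac_of_theta_zero hA v h1 (a * d)
  rw [ac_sub, hc v a d, sub_zero] at h2
  exact h2

variable (F) in
/-- linear combinations of letters -/
noncomputable def iV : (ℕ →₀ F) →ₗ[F] FreeAlgebra F ℕ :=
  Finsupp.linearCombination F (fun j => if j = 0 then 0 else FreeAlgebra.ι F (j - 1))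

variable (F) in
/-- linear combinations of values -/
noncomputable def vV (v : ℕ → A) : (ℕ →₀ F) →ₗ[F] A :=
  Finsupp.linearCombination F (fun j => if j = 0 then 0 else v (j - 1))

theorem ac_iV (v : ℕ → A) (w : ℕ →₀ F) (a : A) : ac v (iV F w) a = a * vV F v w := by
  induction w using Finsupp.induction_linear with
  | zero => rw [map_zero, map_zero, ac_zero, mul_zero]
  | add f g hf hg => rw [map_add, map_add, ac_add, hf, hg, mul_add]
  | single j c =>
    rw [iV, vV, Finsupp.linearCombination_single, Finsupp.linearCombination_single, ac_smul,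
      mul_smul_comm]
    by_cases hj : j = 0
    · rw [if_pos hj, if_pos hj, ac_zero, mul_zero]
    · rw [if_neg hj, if_neg hj, ac_ι]

theorem L_add (v w : ℕ →₀ F) : L (v + w) = L v + L w := by
  apply LinearMap.ext
  intro f
  rw [LinearMap.add_apply, L_apply, L_apply, L_apply, map_add]
  have : der (T0 (v + w)) = (der (T0 v) + der (T0 w) : Derivation F (CC F) (CC F)) := by
    apply MvPolynomial.derivation_ext
    intro q
    rw [Derivation.add_apply, ← Z_var, ← zz_ee, der_zz, der_zz, der_zz]
    simp only [T0_apply, smul_add, map_add, LinearMap.add_apply]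
    ring
  rw [this, Derivation.add_apply]
  ring

theorem L_smul (c : F) (v : ℕ →₀ F) : L (c • v) = c • L v := by
  apply LinearMap.ext
  intro f
  rw [LinearMap.smul_apply, L_apply, L_apply, map_smul]
  have : der (T0 (c • v)) = (c • der (T0 v) : Derivation F (CC F) (CC F)) := by
    apply MvPolynomial.derivation_ext
    intro q
    rw [Derivation.smul_apply, ← Z_var, ← zz_ee, der_zz, der_zz]
    simp only [T0_apply, smul_comm _ c, map_smul, LinearMap.smul_apply, smul_add]
  rw [this, Derivation.smul_apply, smul_add, smul_mul_assoc]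

theorem lam_iV (w : ℕ →₀ F) : lam F (iV F w) = L (pr w) := by
  induction w using Finsupp.induction_linear with
  | zero =>
    rw [map_zero, map_zero, map_zero]
    have := L_smul (F := F) 0 0
    rw [zero_smul, zero_smul] at this
    exact this.symm
  | add f g hf hg => rw [map_add, map_add, map_add, hf, hg, L_add]
  | single j c =>
    have h1 : Finsupp.single j c = c • ee F j := by simp
    rw [iV, Finsupp.linearCombination_single, h1, map_smul, map_smul, L_smul]
    congr 1
    by_cases hj : j = 0
    · rw [if_pos hj, hj, pr_ee0, map_zero]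
      have := L_smul (F := F) 0 0
      rw [zero_smul, zero_smul] at this
      exact this.symm
    · rw [if_neg hj, lam_ι, pr_ee hj]
      congr 2
      omega

/-- linear substitutions -/
noncomputable def subst (g : (ℕ →₀ F) →ₗ[F] (ℕ →₀ F)) : FreeAlgebra F ℕ →ₐ[F] FreeAlgebra F ℕ :=
  FreeAlgebra.lift F (fun k => iV F (g (ee F (k + 1))))

theorem pr_eq {w : ℕ →₀ F} (hw : w 0 = 0) : pr w = w := by
  rw [pr_apply, hw, zero_smul, sub_zero]

theorem phi_lam {g : (ℕ →₀ F) →ₗ[F] (ℕ →₀ F)} (hg : Good g) (b : FreeAlgebra F ℕ) :
    ∀ f, phi g (lam F b f) = lam F (subst g b) (phi g f) := by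
  induction b using FreeAlgebra.induction with
  | grade0 t =>
    intro f
    rw [AlgHom.commutes, AlgHom.commutes, AlgHom.commutes, Module.algebraMap_end_apply,
      Module.algebraMap_end_apply, map_smul]
  | grade1 j =>
    intro f
    rw [lam_ι, phi_L hg, subst, FreeAlgebra.lift_ι_apply, lam_iV, pr_eq]
    rw [hg.c0, Finsupp.single_eq_of_ne (by omega)]
  | mul b c hb hc =>
    intro f
    rw [map_mul, map_mul, map_mul, Module.End.mul_apply, Module.End.mul_apply, hb, hc]
  | add b c hb hc =>
    intro f
    rw [map_add, map_add, map_add, LinearMap.add_apply, LinearMap.add_apply, map_add, hb, hc]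

theorem theta_subst {g : (ℕ →₀ F) →ₗ[F] (ℕ →₀ F)} (hg : Good g) (b : FreeAlgebra F ℕ) :
    phi g (theta F b) = theta F (subst g b) := by
  rw [theta_apply, phi_lam hg, map_one (phi g)]; rfl

theorem ac_subst (g : (ℕ →₀ F) →ₗ[F] (ℕ →₀ F)) (v : ℕ → A) (b : FreeAlgebra F ℕ) :
    ∀ a : A, ac v (subst g b) a = ac (fun k => vV F v (g (ee F (k + 1)))) b a := by
  induction b using FreeAlgebra.induction with
  | grade0 t =>
    intro a
    rw [AlgHom.commutes, Algebra.algebraMap_eq_smul_one, ac_smul, ac_smul, ac_one, ac_one]
  | grade1 j =>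
    intro a
    rw [subst, FreeAlgebra.lift_ι_apply, ac_iV, ac_ι]
  | mul b c hb hc =>
    intro a
    rw [map_mul, ac_mul, ac_mul, hb, hc]
  | add b c hb hc =>
    intro a
    rw [map_add, ac_add, ac_add, hb, hc]

theorem iV_mul_Kill (w : ℕ →₀ F) {b : FreeAlgebra F ℕ} (hb : b ∈ Kill F A) :
    iV F w * b ∈ Kill F A := by
  intro v a c
  rw [ac_mul, ac_iV]
  exact hb v _ _

variable (F A) in
theorem KA_LStable : LStable (KA F A) := by
  constructor
  · rintro g g' hg _ _ ⟨b, hb, rfl⟩
    refine ⟨subst g b, ?_, (theta_subst hg b).symm⟩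
    intro v a c
    rw [ac_subst]
    exact hb _ _ _
  · rintro v hv _ ⟨b, hb, rfl⟩
    refine ⟨iV F v * b, iV_mul_Kill v hb, ?_⟩
    rw [theta_apply, map_mul, lam_iV, pr_eq hv]; rfl

/-- elements whose image lies in `K2(K(A))` act as zero on all of `A` -/
theorem ac_of_K2 [CharZero F] (hA : InVariety F (EE F) A) {b : FreeAlgebra F ℕ}
    (hb : theta F b ∈ K2 (KA F A)) (v : ℕ → A) (a : A) : ac v b a = 0 := by
  have h1 : ∀ x ∈ K2 (KA F A), ∃ c, theta F c = x ∧ ∀ (v : ℕ → A) (a : A), ac v c a = 0 := by
    intro x hx
    unfold K2 at hx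
    induction hx using Submodule.span_induction with
    | mem x hx =>
      obtain ⟨w, hw, f, ⟨c, hc, rfl⟩, rfl⟩ := hx
      refine ⟨iV F w * c, ?_, ?_⟩
      · rw [theta_apply, map_mul, lam_iV, pr_eq hw]; rfl
      · intro v a
        rw [ac_mul, ac_iV]
        exact hc v _ _
    | zero => exact ⟨0, map_zero _, fun v a => ac_zero v a⟩
    | add x y _ _ hx hy =>
      obtain ⟨c, hc, hc'⟩ := hx
      obtain ⟨d, hd, hd'⟩ := hy
      exact ⟨c + d, by rw [map_add, hc, hd], fun v a => by rw [ac_add, hc', hd', add_zero]⟩
    | smul t x _ hx =>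
      obtain ⟨c, hc, hc'⟩ := hx
      exact ⟨t • c, by rw [map_smul, hc], fun v a => by rw [ac_smul, hc', smul_zero]⟩
  obtain ⟨c, hc, hc'⟩ := h1 _ hb
  have h2 : theta F (b - c) = 0 := by rw [map_sub, hc, sub_self]
  have h3 := ac_of_theta_zero hA v h2 a
  rw [ac_sub, hc', sub_zero] at h3
  exact h3

end Action

section NormalForm

variable {F : Type u} [Field F]

/-- evaluation of a family -/
noncomputable def evN {A : Type u} [NonUnitalNonAssocRing A] [Module F A] [IsScalarTower F A A]
    [SMulCommClass F A A] (N : ℕ →₀ FreeAlgebra F ℕ) (v : ℕ → A) : A :=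
  N.sum (fun i b => ac v b (v i))

/-- `N` is a normal form of `f` -/
def IsNF (f : Poly F) (N : ℕ →₀ FreeAlgebra F ℕ) : Prop :=
  ∀ (A : Type u) [NonUnitalNonAssocRing A] [Module F A] [IsScalarTower F A A]
    [SMulCommClass F A A], Satisfies F A (I1 F) → ∀ v : ℕ → A,
    FreeNonUnitalNonAssocAlgebra.lift F v f = evN N v

theorem evN_add {A : Type u} [NonUnitalNonAssocRing A] [Module F A] [IsScalarTower F A A]
    [SMulCommClass F A A] (M N : ℕ →₀ FreeAlgebra F ℕ) (v : ℕ → A) :
    evN (M + N) v = evN M v + evN N v := by
  unfold evN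
  rw [Finsupp.sum_add_index']
  · intro i; exact ac_zero v _
  · intro i b c; exact ac_add v b c _

theorem evN_single {A : Type u} [NonUnitalNonAssocRing A] [Module F A] [IsScalarTower F A A]
    [SMulCommClass F A A] (i : ℕ) (b : FreeAlgebra F ℕ) (v : ℕ → A) :
    evN (Finsupp.single i b) v = ac v b (v i) := by
  unfold evN
  rw [Finsupp.sum_single_index]
  exact ac_zero v _

theorem exists_NF_magma (μ : FreeMagma ℕ) :
    ∃ N : ℕ →₀ FreeAlgebra F ℕ, IsNF (MonoidAlgebra.single μ 1 : Poly F) N := by
  induction μ using FreeMagma.recOnMul with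
  | ih1 i =>
    refine ⟨Finsupp.single i 1, ?_⟩
    intro A _ _ _ _ _ v
    rw [evN_single, ac_one]
    exact FreeNonUnitalNonAssocAlgebra.lift_of_apply F v i
  | ih2 x y hx hy =>
    obtain ⟨N, hN⟩ := hx
    have hmul : (MonoidAlgebra.single (x * y) 1 : Poly F) =
        MonoidAlgebra.single x 1 * MonoidAlgebra.single y 1 := by
      rw [MonoidAlgebra.single_mul_single, one_mul]
    cases y with
    | of j =>
      refine ⟨N.mapRange (fun b => b * FreeAlgebra.ι F j) (zero_mul _), ?_⟩
      intro A _ _ _ _ h v
      rw [hmul, map_mul, hN A h v]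
      have h1 : FreeNonUnitalNonAssocAlgebra.lift F v
          (MonoidAlgebra.single (FreeMagma.of j) 1 : Poly F) = v j :=
        FreeNonUnitalNonAssocAlgebra.lift_of_apply F v j
      rw [h1]
      have h2 : (N.mapRange (fun b => b * FreeAlgebra.ι F j) (zero_mul _)).sum
          (fun i b => ac v b (v i)) = N.sum (fun i b => ac v (b * FreeAlgebra.ι F j) (v i)) :=
        Finsupp.sum_mapRange_index (h := fun i b => ac v b (v i)) (fun i => ac_zero v (v i))
      unfold evN
      rw [h2, Finsupp.sum, Finset.sum_mul, Finsupp.sum]
      apply Finset.sum_congr rfl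
      intro i _
      rw [ac_mul, ac_ι]
    | mul y1 y2 =>
      refine ⟨0, ?_⟩
      intro A _ _ _ _ h v
      have hmul2 : (MonoidAlgebra.single (FreeMagma.mul y1 y2) 1 : Poly F) =
          MonoidAlgebra.single y1 1 * MonoidAlgebra.single y2 1 := by
        rw [MonoidAlgebra.single_mul_single, one_mul]; rfl
      rw [hmul, hmul2, map_mul, map_mul, I1_iff.mp h]
      rfl

theorem exists_NF (f : Poly F) : ∃ N : ℕ →₀ FreeAlgebra F ℕ, IsNF f N := by
  induction f using MonoidAlgebra.induction_linear with
  | zero =>
    refine ⟨0, ?_⟩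
    intro A _ _ _ _ _ v
    rw [map_zero]; rfl
  | add f g hf hg =>
    obtain ⟨M, hM⟩ := hf
    obtain ⟨N, hN⟩ := hg
    refine ⟨M + N, ?_⟩
    intro A _ _ _ _ h v
    rw [map_add, evN_add, hM A h v, hN A h v]
  | single μ c =>
    obtain ⟨N, hN⟩ := exists_NF_magma (F := F) μ
    refine ⟨c • N, ?_⟩
    intro A _ _ _ _ h v
    have h1 : (MonoidAlgebra.single μ c : Poly F) = c • MonoidAlgebra.single μ 1 := by
      rw [MonoidAlgebra.smul_single, smul_eq_mul, mul_one]
    rw [h1, map_smul, hN A h v]
    have h2 : (c • N).sum (fun i b => ac v b (v i)) = N.sum (fun i b => ac v (c • b) (v i)) :=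
      Finsupp.sum_smul_index' (h := fun i b => ac v b (v i)) (fun i => ac_zero v (v i))
    unfold evN
    rw [h2, Finsupp.smul_sum]
    apply Finsupp.sum_congr
    intro i _
    rw [ac_smul]

variable {A : Type u} [NonUnitalNonAssocRing A] [Module F A] [IsScalarTower F A A]
  [SMulCommClass F A A]

theorem NF_Kill (h1 : Satisfies F A (I1 F)) {N : ℕ →₀ FreeAlgebra F ℕ}
    (hN : ∀ v : ℕ → A, evN N v = 0) (i : ℕ) : N i ∈ Kill F A := by
  classical
  intro v a c
  have hact : act (F := F) (Function.update v i (v i + a * c)) = act v := by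
    apply FreeAlgebra.hom_ext
    funext k
    simp only [Function.comp_apply, act, FreeAlgebra.lift_ι_apply]
    congr 1
    apply LinearMap.ext
    intro d
    rw [LinearMap.mulRight_apply, LinearMap.mulRight_apply]
    by_cases hk : k = i
    · subst hk
      rw [Function.update_self, mul_add, I1_iff.mp h1, add_zero]
    · rw [Function.update_of_ne hk]
  have h2 := hN (Function.update v i (v i + a * c))
  have h3 := hN v
  unfold evN at h2 h3
  have h4 : N.sum (fun j b => ac (Function.update v i (v i + a * c)) b
      (Function.update v i (v i + a * c) j)) = N.sum (fun j b => ac v b (v j)) +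
      ac v (N i) (a * c) := by
    have h5 : N.sum (fun j b => ac (Function.update v i (v i + a * c)) b
      (Function.update v i (v i + a * c) j)) =
      N.sum (fun j b => ac v b (v j) + if j = i then ac v b (a * c) else 0) := by
      apply Finsupp.sum_congr
      intro j _
      have h6 : ac (F := F) (Function.update v i (v i + a * c)) (N j) = ac v (N j) := by
        rw [ac, hact]; rfl
      rw [h6]
      by_cases hj : j = i
      · subst hj
        rw [Function.update_self, map_add, if_pos rfl]
      · rw [Function.update_of_ne hj, if_neg hj, add_zero]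
    rw [h5, Finsupp.sum_add]
    congr 1
    unfold Finsupp.sum
    rw [Finset.sum_ite_eq' N.support i]
    by_cases hi : i ∈ N.support
    · rw [if_pos hi]
    · rw [if_neg hi, Finsupp.notMem_support_iff.mp hi, ac_zero]
  rw [h4, h3, zero_add] at h2
  exact h2

end NormalForm

section Combs

variable {F : Type u} [Field F]

/-- left combs -/
noncomputable def comb (i : ℕ) (l : List ℕ) : Poly F := l.foldl (fun a j => a * X F j) (X F i)

variable {A : Type u} [NonUnitalNonAssocRing A] [Module F A] [IsScalarTower F A A]
  [SMulCommClass F A A]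

theorem lift_comb (v : ℕ → A) (i : ℕ) (l : List ℕ) :
    FreeNonUnitalNonAssocAlgebra.lift F v (comb i l) = l.foldl (fun a j => a * v j) (v i) := by
  unfold comb
  induction l using List.reverseRecOn with
  | nil => exact lift_X v i
  | append_singleton l j ih =>
    rw [List.foldl_append, List.foldl_append, List.foldl_cons, List.foldl_nil, List.foldl_cons,
      List.foldl_nil, map_mul, ih, lift_X]

theorem ac_word (v : ℕ → A) (l : List ℕ) (a : A) :
    ac v ((l.map (FreeAlgebra.ι F)).prod) a = l.foldl (fun a j => a * v j) a := by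
  induction l generalizing a with
  | nil => rw [List.map_nil, List.prod_nil, ac_one]; rfl
  | cons j l ih => rw [List.map_cons, List.prod_cons, ac_mul, ac_ι, ih]; rfl

variable (F) in
/-- combs with at most `n` letters after the first one, letters less than `N` -/
noncomputable def DD (n N : ℕ) : Submodule F (Poly F) :=
  Submodule.span F {f | ∃ (i : ℕ) (l : List ℕ), i < N ∧ (∀ j ∈ l, j < N) ∧ l.length ≤ n ∧
    f = comb i l}

variable (F A) in
/-- the identities of `A` as a submodule -/
noncomputable def IdA : Submodule F (Poly F) where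
  carrier := {f | Satisfies F A f}
  add_mem' := by
    intro f g hf hg v
    rw [map_add, hf v, hg v, add_zero]
  zero_mem' := by intro v; rw [map_zero]
  smul_mem' := by
    intro c f hf v
    rw [map_smul, hf v, smul_zero]

theorem mem_IdA {f : Poly F} : f ∈ IdA F A ↔ Satisfies F A f := Iff.rfl

theorem IdA_endo {f : Poly F} (hf : f ∈ IdA F A) (w : ℕ → Poly F) :
    FreeNonUnitalNonAssocAlgebra.lift F w f ∈ IdA F A := by
  intro v
  have : (FreeNonUnitalNonAssocAlgebra.lift F v).comp (FreeNonUnitalNonAssocAlgebra.lift F w) =
      FreeNonUnitalNonAssocAlgebra.lift F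
        (fun k => FreeNonUnitalNonAssocAlgebra.lift F v (w k)) := by
    apply FreeNonUnitalNonAssocAlgebra.hom_ext
    intro k
    simp
  have h2 := hf (fun k => FreeNonUnitalNonAssocAlgebra.lift F v (w k))
  rw [← this] at h2
  exact h2

/-- kill the variable `j` -/
noncomputable def rho (F : Type u) [Field F] (j : ℕ) : Poly F →ₙₐ[F] Poly F :=
  FreeNonUnitalNonAssocAlgebra.lift F (fun k => if k = j then 0 else X F k)

theorem rho_comb (j i : ℕ) (l : List ℕ) :
    rho F j (comb i l) = if j = i ∨ j ∈ l then 0 else comb i l := by
  unfold rho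
  rw [lift_comb]
  induction l using List.reverseRecOn with
  | nil =>
    simp only [List.foldl_nil, List.not_mem_nil, or_false]
    by_cases h : i = j
    · rw [if_pos h, if_pos h.symm]
    · rw [if_neg h, if_neg (Ne.symm h)]; rfl
  | append_singleton l k ih =>
    rw [List.foldl_append, List.foldl_cons, List.foldl_nil, ih]
    have hc : (comb i (l ++ [k]) : Poly F) = comb i l * X F k := by
      unfold comb
      rw [List.foldl_append, List.foldl_cons, List.foldl_nil]
    by_cases h1 : j = i ∨ j ∈ l
    · rw [if_pos h1, zero_mul, if_pos]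
      rcases h1 with h1 | h1
      · exact Or.inl h1
      · exact Or.inr (List.mem_append_left _ h1)
    · rw [if_neg h1]
      by_cases h2 : k = j
      · rw [if_pos h2, mul_zero, if_pos]
        exact Or.inr (List.mem_append_right _ (by simp [h2]))
      · rw [if_neg h2, if_neg, hc]
        intro h3
        apply h1
        rcases h3 with h3 | h3
        · exact Or.inl h3
        · rw [List.mem_append, List.mem_singleton] at h3
          rcases h3 with h3 | h3
          · exact Or.inr h3
          · exact absurd h3.symm h2

/-- reduction of the number of variables -/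
theorem reduce_vars {B : Type u} [NonUnitalNonAssocRing B] [Module F B] [IsScalarTower F B B]
    [SMulCommClass F B B] (n : ℕ)
    (hbase : ∀ f ∈ IdA F A, f ∈ DD F n (n + 1) → f ∈ IdA F B) (N : ℕ) :
    ∀ f ∈ IdA F A, f ∈ DD F n N → f ∈ IdA F B := by
  classical
  have hmono : ∀ N, N ≤ n + 1 → DD F n N ≤ DD F n (n + 1) := by
    intro N hN
    unfold DD
    apply Submodule.span_mono
    rintro _ ⟨i, l, hi, hl, hlen, rfl⟩
    exact ⟨i, l, by omega, fun j hj => by have := hl j hj; omega, hlen, rfl⟩
  induction N with
  | zero => intro f hf hfD; exact hbase f hf (hmono 0 (Nat.zero_le _) hfD)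
  | succ N ih =>
    by_cases hN : N + 1 ≤ n + 1
    · intro f hf hfD; exact hbase f hf (hmono (N + 1) hN hfD)
    · -- polynomials missing the variable `i`
      have step : ∀ i < N + 1, ∀ f ∈ IdA F A, f ∈ DD F n (N + 1) → rho F i f ∈ IdA F B := by
        intro i hi f hf hfD
        set π := Equiv.swap i N with hπ
        set w : ℕ → Poly F := fun k => X F (π k) with hw
        have h1 : FreeNonUnitalNonAssocAlgebra.lift F w (rho F i f) ∈ IdA F A :=
          IdA_endo (IdA_endo hf _) w
        have h2 : FreeNonUnitalNonAssocAlgebra.lift F w (rho F i f) ∈ DD F n N := by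
          clear h1 hf
          unfold DD at hfD
          induction hfD using Submodule.span_induction with
          | mem x hx =>
            obtain ⟨i', l, hi', hl, hlen, rfl⟩ := hx
            rw [rho_comb]
            split_ifs with hc
            · rw [map_zero]; exact Submodule.zero_mem _
            · push Not at hc
              rw [lift_comb]
              apply Submodule.subset_span
              refine ⟨π i', l.map π, ?_, ?_, by simpa using hlen, ?_⟩
              · by_cases h : i' = N
                · rw [h, hπ, Equiv.swap_apply_right]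
                  have := hc.1
                  omega
                · rw [hπ, Equiv.swap_apply_of_ne_of_ne (Ne.symm hc.1) h]
                  omega
              · intro j hj
                rw [List.mem_map] at hj
                obtain ⟨k, hk, rfl⟩ := hj
                have hki : k ≠ i := fun h => hc.2 (h ▸ hk)
                have hkN := hl k hk
                by_cases h : k = N
                · rw [h, hπ, Equiv.swap_apply_right]
                  omega
                · rw [hπ, Equiv.swap_apply_of_ne_of_ne hki h]
                  omega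
              · unfold comb
                rw [List.foldl_map]
          | zero => rw [map_zero, map_zero]; exact Submodule.zero_mem _
          | add x y _ _ hx hy => rw [map_add, map_add]; exact Submodule.add_mem _ hx hy
          | smul c x _ hx => rw [map_smul, map_smul]; exact Submodule.smul_mem _ _ hx
        have h3 := ih _ h1 h2
        have h4 := IdA_endo h3 w
        have h5 : FreeNonUnitalNonAssocAlgebra.lift F w
            (FreeNonUnitalNonAssocAlgebra.lift F w (rho F i f)) = rho F i f := by
          have : (FreeNonUnitalNonAssocAlgebra.lift F w).comp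
              (FreeNonUnitalNonAssocAlgebra.lift F w) = NonUnitalAlgHom.id F (Poly F) := by
            apply FreeNonUnitalNonAssocAlgebra.hom_ext
            intro k
            rw [NonUnitalAlgHom.comp_apply, FreeNonUnitalNonAssocAlgebra.lift_of_apply, hw,
              lift_X]
            simp [hπ, X]
          exact congrArg (fun φ : Poly F →ₙₐ[F] Poly F => φ (rho F i f)) this
        rw [h5] at h4
        exact h4
      intro f hf hfD
      -- successive projections
      have hproj : ∀ k ≤ N + 1, ∃ T : Poly F →ₗ[F] Poly F,
          (∀ g ∈ IdA F A, T g ∈ IdA F A) ∧ (∀ g ∈ DD F n (N + 1), T g ∈ DD F n (N + 1)) ∧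
          (f - T f ∈ IdA F B) ∧
          ∀ (i : ℕ) (l : List ℕ), (T (comb i l) = comb i l ∨ T (comb i l) = 0) ∧
            ((∃ j < k, j ≠ i ∧ j ∉ l) → T (comb i l) = 0) := by
        intro k
        induction k with
        | zero =>
          intro _
          refine ⟨LinearMap.id, fun g hg => hg, fun g hg => hg, ?_, fun i l => ⟨Or.inl rfl, ?_⟩⟩
          · rw [LinearMap.id_apply, sub_self]; exact Submodule.zero_mem _
          · rintro ⟨j, hj, _⟩; omega
        | succ k ihk =>
          intro hk
          obtain ⟨T, hT1, hT2, hT3, hT4⟩ := ihk (by omega)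
          have hrhoD : ∀ g ∈ DD F n (N + 1), rho F k g ∈ DD F n (N + 1) := by
            intro g hg
            unfold DD at hg
            induction hg using Submodule.span_induction with
            | mem x hx =>
              obtain ⟨i', l, hi', hl, hlen, rfl⟩ := hx
              rw [rho_comb]
              split_ifs with hc
              · exact Submodule.zero_mem _
              · exact Submodule.subset_span ⟨i', l, hi', hl, hlen, rfl⟩
            | zero => rw [map_zero]; exact Submodule.zero_mem _
            | add x y _ _ hx hy => rw [map_add]; exact Submodule.add_mem _ hx hy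
            | smul c x _ hx => rw [map_smul]; exact Submodule.smul_mem _ _ hx
          refine ⟨T - (rho F k : Poly F →ₗ[F] Poly F).comp T, ?_, ?_, ?_, ?_⟩
          · intro g hg
            rw [LinearMap.sub_apply, LinearMap.comp_apply]
            exact Submodule.sub_mem _ (hT1 g hg) (IdA_endo (hT1 g hg) _)
          · intro g hg
            rw [LinearMap.sub_apply, LinearMap.comp_apply]
            exact Submodule.sub_mem _ (hT2 g hg) (hrhoD _ (hT2 g hg))
          · rw [LinearMap.sub_apply, LinearMap.comp_apply]
            have h6 := step k (by omega) (T f) (hT1 f hf) (hT2 f hfD)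
            have h7 : f - (T f - (rho F k : Poly F →ₗ[F] Poly F) (T f)) =
                (f - T f) + rho F k (T f) := by
              change f - (T f - rho F k (T f)) = _
              abel
            rw [h7]
            exact Submodule.add_mem _ hT3 h6
          · intro i l
            obtain ⟨h8, h9⟩ := hT4 i l
            have h10 : (T - (rho F k : Poly F →ₗ[F] Poly F).comp T) (comb i l) =
                T (comb i l) - rho F k (T (comb i l)) := rfl
            rw [h10]
            constructor
            · rcases h8 with h8 | h8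
              · rw [h8, rho_comb]
                split_ifs
                · left; rw [sub_zero]
                · right; rw [sub_self]
              · right; rw [h8, map_zero, sub_zero]
            · rintro ⟨j, hj, hji, hjl⟩
              by_cases hjk : j = k
              · rcases h8 with h8 | h8
                · rw [h8, rho_comb, if_neg, sub_self]
                  subst hjk
                  rintro (h | h)
                  · exact hji h
                  · exact hjl h
                · rw [h8, map_zero, sub_zero]
              · rw [h9 ⟨j, by omega, hji, hjl⟩, map_zero, sub_zero]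
      obtain ⟨T, -, -, hT3, hT4⟩ := hproj (N + 1) le_rfl
      have hTf : T f = 0 := by
        clear hf hT3 step hproj
        unfold DD at hfD
        induction hfD using Submodule.span_induction with
        | mem x hx =>
          obtain ⟨i, l, hi, hl, hlen, rfl⟩ := hx
          apply (hT4 i l).2
          by_contra hcon
          push Not at hcon
          -- all letters below `N + 1` occur among `i :: l`
          have h11 : Finset.range (N + 1) ⊆ (i :: l).toFinset := by
            intro j hj
            rw [Finset.mem_range] at hj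
            rw [List.mem_toFinset, List.mem_cons]
            by_cases hji : j = i
            · exact Or.inl hji
            · exact Or.inr (hcon j hj hji)
          have h12 := Finset.card_le_card h11
          rw [Finset.card_range] at h12
          have h13 := List.toFinset_card_le (i :: l)
          rw [List.length_cons] at h13
          omega
        | zero => rw [map_zero]
        | add x y _ _ hx hy => rw [map_add, hx, hy, add_zero]
        | smul c x _ hx => rw [map_smul, hx, smul_zero]
      rw [hTf, sub_zero] at hT3
      exact hT3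

theorem DD_finite (n N : ℕ) : FiniteDimensional F (DD F n N) := by
  unfold DD
  apply FiniteDimensional.span_of_finite
  have h1 : ({l : List (Fin N) | l.length ≤ n}).Finite := List.finite_length_le (Fin N) n
  have h2 := (Set.finite_univ (α := Fin N)).prod h1
  apply (h2.image (fun q : Fin N × List (Fin N) =>
    (comb (Fin.val q.1) (q.2.map Fin.val) : Poly F))).subset
  have hl' : ∀ (l : List ℕ) (hl : ∀ j ∈ l, j < N),
      (l.pmap (fun j hj => (⟨j, hj⟩ : Fin N)) hl).map Fin.val = l := by
    intro l
    induction l with
    | nil => intro _; rfl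
    | cons a l ih =>
      intro hl
      rw [List.pmap_cons, List.map_cons, ih]
  rintro _ ⟨i, l, hi, hl, hlen, rfl⟩
  refine ⟨(⟨i, hi⟩, l.pmap (fun j hj => ⟨j, hj⟩) hl), ⟨Set.mem_univ _, by simpa using hlen⟩, ?_⟩
  simp only [hl']

end Combs

section Main

variable {F : Type u} [Field F]

/-- the test polynomial of a word -/
noncomputable def tp (b : FreeAlgebra F ℕ) : Poly F :=
  ac (fun k => X F (k + 2)) b (X F 0 * X F 1)

theorem tp_iff {A : Type u} [NonUnitalNonAssocRing A] [Module F A] [IsScalarTower F A A]
    [SMulCommClass F A A] (b : FreeAlgebra F ℕ) : Satisfies F A (tp b) ↔ b ∈ Kill F A := by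
  constructor
  · intro h v a c
    have h1 := h (fun k => if k = 0 then a else if k = 1 then c else v (k - 2))
    rw [tp, ac_hom, map_mul, lift_X, lift_X] at h1
    simp only [lift_X] at h1
    simpa using h1
  · intro h v
    rw [tp, ac_hom, map_mul, lift_X, lift_X]
    exact h _ _ _

/-- **The variety is Spechtian.** -/
theorem spechtian_EE (F : Type u) [Field F] [CharZero F] : Spechtian F (EE F) := by
  classical
  intro A _ _ _ _ hA
  obtain ⟨T, n, hTfin, hTmem, hTuniv, hlow⟩ := finiteness (KA_LStable F A)
  choose! bw hbw hbw' using hTmem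
  have hfd : FiniteDimensional F (IdA F A ⊓ DD F n (n + 1) : Submodule F (Poly F)) := by
    have := DD_finite (F := F) n (n + 1)
    exact Submodule.finiteDimensional_of_le inf_le_right
  obtain ⟨s, hs⟩ : (IdA F A ⊓ DD F n (n + 1) : Submodule F (Poly F)).FG :=
    (Submodule.fg_iff_finiteDimensional _).mpr hfd
  refine ⟨EE F ∪ ((fun w => tp (bw w)) '' T) ∪ (s : Set (Poly F)), ?_, ?_, ?_⟩
  · refine Set.Finite.union (Set.Finite.union ?_ (hTfin.image _)) s.finite_toSet
    unfold EE
    exact (Set.finite_singleton _).insert _
  · rintro f ((hf | ⟨w, hw, rfl⟩) | hf)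
    · exact hA f hf
    · exact (tp_iff _).mpr (hbw w hw)
    · have h1 : f ∈ (IdA F A ⊓ DD F n (n + 1) : Submodule F (Poly F)) := by
        rw [← hs]; exact Submodule.subset_span hf
      exact h1.1
  · intro B _ _ _ _ hB f hf
    have hBV : InVariety F (EE F) B := fun g hg => hB g (Or.inl (Or.inl hg))
    have hKAB : KA F A ≤ KA F B := by
      apply hTuniv _ (KA_LStable F B)
      intro w hw
      exact ⟨bw w, (tp_iff _).mp (hB _ (Or.inl (Or.inr ⟨w, hw, rfl⟩))), hbw' w hw⟩
    have hbase : ∀ f ∈ IdA F A, f ∈ DD F n (n + 1) → f ∈ IdA F B := by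
      intro f hf hfD
      have h1 : f ∈ Submodule.span F (s : Set (Poly F)) := by rw [hs]; exact ⟨hf, hfD⟩
      have h2 : Submodule.span F (s : Set (Poly F)) ≤ IdA F B := by
        rw [Submodule.span_le]
        intro g hg
        exact hB g (Or.inr hg)
      exact h2 h1
    obtain ⟨N, hN⟩ := exists_NF f
    have hNA : ∀ v : ℕ → A, evN N v = 0 := fun v => by
      rw [← hN A (mem_V.mp hA).1 v]; exact hf v
    -- decomposition of the coefficients
    have hdec : ∀ i, ∃ c ∈ Wd F n, theta F (N i - c) ∈ K2 (KA F A) := by
      intro i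
      have h1 : theta F (N i) ∈ KA F A := ⟨N i, NF_Kill (mem_V.mp hA).1 hNA i, rfl⟩
      have h2 := hlow h1
      rw [Submodule.mem_sup] at h2
      obtain ⟨y, hy, z, hz, hyz⟩ := h2
      obtain ⟨c, hc, hcz⟩ := Low_le_Th n hz.2
      refine ⟨c, hc, ?_⟩
      rw [map_sub, hcz, ← hyz, add_sub_cancel_right]
      exact hy
    choose c hc hc' using hdec
    set g : Poly F := ∑ i ∈ N.support, ac (fun k => X F k) (c i) (X F i) with hg
    have heval : ∀ (A' : Type u) [NonUnitalNonAssocRing A'] [Module F A'] [IsScalarTower F A' A']
        [SMulCommClass F A' A'], InVariety F (EE F) A' →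
        (∀ i, theta F (N i - c i) ∈ K2 (KA F A')) → ∀ v : ℕ → A',
        FreeNonUnitalNonAssocAlgebra.lift F v f = FreeNonUnitalNonAssocAlgebra.lift F v g := by
      intro A' _ _ _ _ hA' hK v
      rw [hN A' (mem_V.mp hA').1 v, hg, map_sum]
      unfold evN Finsupp.sum
      apply Finset.sum_congr rfl
      intro i _
      rw [ac_hom, lift_X]
      simp only [lift_X]
      have h3 := ac_of_K2 hA' (hK i) v (v i)
      rw [ac_sub] at h3
      exact sub_eq_zero.mp h3
    have hgA : g ∈ IdA F A := fun v => by
      rw [← heval A hA hc' v]; exact hf v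
    have hgD : ∃ M, g ∈ DD F n M := by
      have h4 : ∀ i, ∃ M, ac (fun k => X F k) (c i) (X F i) ∈ DD F n M := by
        intro i
        have h5 := hc i
        generalize c i = ci at h5 ⊢
        unfold Wd at h5
        have hDmono : ∀ {M M' : ℕ}, M ≤ M' → DD F n M ≤ DD F n M' := by
          intro M M' hM
          unfold DD
          apply Submodule.span_mono
          rintro _ ⟨i, l, hi, hl, hlen, rfl⟩
          exact ⟨i, l, by omega, fun j hj => by have := hl j hj; omega, hlen, rfl⟩
        induction h5 using Submodule.span_induction with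
        | mem x hx =>
          obtain ⟨l, hl, rfl⟩ := hx
          refine ⟨(i :: l).foldr max 0 + 1, ?_⟩
          apply Submodule.subset_span
          have hmax : ∀ (m : List ℕ), ∀ j ∈ m, j < m.foldr max 0 + 1 := by
            intro m
            induction m with
            | nil => intro j hj; simp at hj
            | cons a m ih =>
              intro j hj
              rw [List.foldr_cons]
              rcases List.mem_cons.mp hj with h | h
              · subst h; omega
              · have := ih j h; omega
          refine ⟨i, l, hmax _ i (by simp), fun j hj => hmax _ j (by simp [hj]), hl, ?_⟩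
          rw [ac_word]; rfl
        | zero => exact ⟨0, by rw [ac_zero]; exact Submodule.zero_mem _⟩
        | add x y _ _ hx hy =>
          obtain ⟨M1, h1⟩ := hx
          obtain ⟨M2, h2⟩ := hy
          refine ⟨max M1 M2, ?_⟩
          rw [ac_add]
          exact Submodule.add_mem _ (hDmono (le_max_left _ _) h1) (hDmono (le_max_right _ _) h2)
        | smul t x _ hx =>
          obtain ⟨M1, h1⟩ := hx
          refine ⟨M1, ?_⟩
          rw [ac_smul]
          exact Submodule.smul_mem _ _ h1
      choose M hM using h4
      refine ⟨N.support.sup M, ?_⟩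
      rw [hg]
      apply Submodule.sum_mem
      intro i hi
      have hDmono : DD F n (M i) ≤ DD F n (N.support.sup M) := by
        have hMi : M i ≤ N.support.sup M := Finset.le_sup hi
        unfold DD
        apply Submodule.span_mono
        rintro _ ⟨i, l, hi, hl, hlen, rfl⟩
        exact ⟨i, l, by omega, fun j hj => by have := hl j hj; omega, hlen, rfl⟩
      exact hDmono (hM i)
    obtain ⟨M, hM⟩ := hgD
    have hgB : g ∈ IdA F B := reduce_vars n hbase M g hgA hM
    intro v
    rw [heval B hBV (fun i => K2_mono hKAB (hc' i)) v]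
    exact hgB v

end Main

end Pool.Agent.MP_1670b2_al
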