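import Pool.Agent.Work.MP_1670b2_al.SR3

/-!
# No finite basic superrank
-/

set_option autoImplicit false

open scoped TensorProduct

namespace Pool.Agent.MP_1670b2_al

universe u

section splitext

variable {F : Type u} [Field F] {M W : Type u} [AddCommGroup M] [Module F M] [AddCommGroup W]
  [Module F W]

/-- The algebra `M × W` with `(m, w) (m', w') = (ρ w' m, 0)`. -/
def SE (_ρ : W →ₗ[F] Module.End F M) : Type u := M × W

variable (ρ : W →ₗ[F] Module.End F M)

instance : AddCommGroup (SE ρ) := inferInstanceAs (AddCommGroup (M × W))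

instance : Module F (SE ρ) := inferInstanceAs (Module F (M × W))

/-- The constructor. -/
def SE.mk (m : M) (w : W) : SE ρ := (m, w)

instance : Mul (SE ρ) := ⟨fun x y => SE.mk ρ (ρ y.2 x.1) 0⟩

lemma SE.mul_def (x y : SE ρ) : x * y = SE.mk ρ (ρ y.2 x.1) 0 := rfl

lemma SE.mk_add (m m' : M) (w w' : W) :
    SE.mk ρ m w + SE.mk ρ m' w' = SE.mk ρ (m + m') (w + w') := rfl

instance : NonUnitalNonAssocRing (SE ρ) :=
  { (inferInstance : AddCommGroup (SE ρ)), (inferInstance : Mul (SE ρ)) with
    left_distrib := fun x y z => by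
      simp only [SE.mul_def, SE.mk_add, add_zero]
      congr 1
      change ρ (y.2 + z.2) x.1 = _
      rw [map_add]
      rfl
    right_distrib := fun x y z => by
      simp only [SE.mul_def, SE.mk_add, add_zero]
      congr 1
      change ρ z.2 (x.1 + y.1) = _
      rw [map_add]
    zero_mul := fun x => by
      rw [SE.mul_def]
      change SE.mk ρ (ρ x.2 0) 0 = 0
      rw [map_zero]
      rfl
    mul_zero := fun x => by
      rw [SE.mul_def]
      change SE.mk ρ (ρ 0 x.1) 0 = 0
      rw [map_zero]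
      rfl }

instance : IsScalarTower F (SE ρ) (SE ρ) := ⟨fun c x y => by
  rw [smul_eq_mul, smul_eq_mul, SE.mul_def, SE.mul_def]
  change SE.mk ρ (ρ y.2 (c • x.1)) 0 = SE.mk ρ (c • ρ y.2 x.1) (c • 0)
  rw [map_smul, smul_zero]⟩

instance : SMulCommClass F (SE ρ) (SE ρ) := ⟨fun c x y => by
  rw [smul_eq_mul, smul_eq_mul, SE.mul_def, SE.mul_def]
  change SE.mk ρ (c • ρ y.2 x.1) (c • 0) = SE.mk ρ (ρ (c • y.2) x.1) 0
  rw [map_smul, smul_zero]
  rfl⟩

lemma SE.I1 : Satisfies F (SE ρ) (I1 F) := by
  intro v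
  simp only [Pool.Agent.MP_1670b2_al.I1, X, map_mul, FreeNonUnitalNonAssocAlgebra.lift_of_apply]
  rw [SE.mul_def ρ (v 0)]
  change SE.mk ρ (ρ 0 _) 0 = 0
  rw [map_zero]
  rfl

lemma SE.I2 (hρ : ∀ w w', ∃ c : F, ∀ m, ρ w (ρ w' m) - ρ w' (ρ w m) = c • m) :
    Satisfies F (SE ρ) (I2 F) := by
  intro v
  simp only [Pool.Agent.MP_1670b2_al.I2, X, map_mul, map_sub,
    FreeNonUnitalNonAssocAlgebra.lift_of_apply]
  obtain ⟨c, hc⟩ := hρ (v 2).2 (v 1).2
  have h1 := hc (v 0).1
  have h2 := hc (ρ (v 3).2 (v 0).1)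
  have h3 : ρ (v 3).2 (ρ (v 2).2 (ρ (v 1).2 (v 0).1)) - ρ (v 3).2 (ρ (v 1).2 (ρ (v 2).2 (v 0).1))
      - (ρ (v 2).2 (ρ (v 1).2 (ρ (v 3).2 (v 0).1)) - ρ (v 1).2 (ρ (v 2).2 (ρ (v 3).2 (v 0).1)))
      = 0 := by
    rw [h2, ← map_sub, h1, map_smul, sub_self]
  refine Prod.ext h3 ?_
  change (0 : W) - 0 - (0 - 0) = 0
  simp

end splitext

section weyl

variable (F : Type u) [Field F] (n : ℕ)

/-- The derivation `∑ a_i ∂_i`. -/
noncomputable def dD (a : Fin n → F) :
    Derivation F (MvPolynomial (Fin n) F) (MvPolynomial (Fin n) F) :=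
  MvPolynomial.mkDerivation F fun i => MvPolynomial.C (a i)

/-- The linear form `∑ b_j X_j`. -/
noncomputable def lL : (Fin n → F) →ₗ[F] MvPolynomial (Fin n) F :=
  ∑ i, (LinearMap.proj i : (Fin n → F) →ₗ[F] F).smulRight (MvPolynomial.X i)

lemma dD_X (a : Fin n → F) (i : Fin n) : dD F n a (MvPolynomial.X i) = MvPolynomial.C (a i) :=
  MvPolynomial.mkDerivation_X _ _ _

lemma dD_add (a b : Fin n → F) : dD F n (a + b) = dD F n a + dD F n b := by
  refine MvPolynomial.derivation_ext fun i => ?_
  rw [Derivation.add_apply, dD_X, dD_X, dD_X, Pi.add_apply, map_add]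

lemma dD_smul (c : F) (a : Fin n → F) : dD F n (c • a) = c • dD F n a := by
  refine MvPolynomial.derivation_ext fun i => ?_
  rw [Derivation.smul_apply, dD_X, dD_X, Pi.smul_apply, smul_eq_mul, map_mul,
    MvPolynomial.smul_eq_C_mul]

lemma dD_zero : dD F n 0 = 0 := by
  refine MvPolynomial.derivation_ext fun i => ?_
  rw [Derivation.zero_apply, dD_X, Pi.zero_apply, map_zero]

lemma dD_lL (a b : Fin n → F) : dD F n a (lL F n b) = MvPolynomial.C (∑ i, a i * b i) := by
  have h1 : lL F n b = ∑ j, b j • (MvPolynomial.X j : MvPolynomial (Fin n) F) := by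
    simp only [lL, LinearMap.sum_apply, LinearMap.smulRight_apply, LinearMap.proj_apply]
  rw [h1, map_sum, map_sum]
  refine Finset.sum_congr rfl fun i _ => ?_
  rw [Derivation.map_smul, dD_X, MvPolynomial.smul_eq_C_mul, ← map_mul, mul_comm]

lemma dD_comm (a b : Fin n → F) (m : MvPolynomial (Fin n) F) :
    dD F n a (dD F n b m) = dD F n b (dD F n a m) := by
  have h1 : ⁅dD F n a, dD F n b⁆ = 0 := by
    refine MvPolynomial.derivation_ext fun i => ?_
    rw [Derivation.commutator_apply, dD_X, dD_X, Derivation.zero_apply, MvPolynomial.derivation_C,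
      MvPolynomial.derivation_C, sub_self]
  have h2 := congrArg (fun D => D m) h1
  simp only [Derivation.commutator_apply, Derivation.zero_apply] at h2
  exact sub_eq_zero.1 h2

/-- The Weyl action. -/
noncomputable def weyl : ((Fin n → F) × (Fin n → F)) →ₗ[F]
    Module.End F (MvPolynomial (Fin n) F) where
  toFun w := (dD F n w.1 : MvPolynomial (Fin n) F →ₗ[F] MvPolynomial (Fin n) F) +
    LinearMap.mulLeft F (lL F n w.2)
  map_add' w w' := by
    refine LinearMap.ext fun m => ?_
    simp only [Prod.fst_add, Prod.snd_add, map_add, dD_add, LinearMap.add_apply,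
      LinearMap.mulLeft_apply, Derivation.coeFn_coe, Derivation.add_apply, add_mul]
    abel
  map_smul' c w := by
    refine LinearMap.ext fun m => ?_
    simp only [Prod.smul_fst, Prod.smul_snd, map_smul, dD_smul, LinearMap.add_apply,
      LinearMap.mulLeft_apply, Derivation.coeFn_coe, Derivation.smul_apply, smul_mul_assoc,
      RingHom.id_apply, LinearMap.smul_apply, smul_add]

lemma weyl_apply (a b : Fin n → F) (m : MvPolynomial (Fin n) F) :
    weyl F n (a, b) m = dD F n a m + lL F n b * m := rfl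

lemma weyl_comm (w w' : (Fin n → F) × (Fin n → F)) :
    ∃ c : F, ∀ m, weyl F n w (weyl F n w' m) - weyl F n w' (weyl F n w m) = c • m := by
  obtain ⟨a, b⟩ := w
  obtain ⟨a', b'⟩ := w'
  refine ⟨∑ i, a i * b' i - ∑ i, a' i * b i, fun m => ?_⟩
  simp only [weyl_apply, map_add, Derivation.leibniz, smul_eq_mul, dD_lL, sub_smul,
    MvPolynomial.smul_eq_C_mul]
  rw [dD_comm F n a a']
  ring

lemma weyl_bop : bop (fun i => weyl F n (Pi.single i 1, 0)) (fun j => weyl F n (0, Pi.single j 1))
    = 1 := by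
  classical
  have h1 : ∀ i j : Fin n, weyl F n (Pi.single i 1, 0) * weyl F n (0, Pi.single j 1) -
      weyl F n (0, Pi.single j 1) * weyl F n (Pi.single i 1, 0) = if i = j then 1 else 0 := by
    intro i j
    refine LinearMap.ext fun m => ?_
    have h3 : dD F n (Pi.single i 1) (lL F n (Pi.single j 1)) = if i = j then 1 else 0 := by
      rw [dD_lL]
      by_cases hij : i = j
      · subst hij
        simp [Pi.single_apply]
      · simp [Pi.single_apply, hij, Ne.symm hij]
    simp only [LinearMap.sub_apply, Module.End.mul_apply, weyl_apply, map_zero, zero_mul,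
      dD_zero, add_zero, Derivation.zero_apply, zero_add, Derivation.leibniz, smul_eq_mul, h3]
    split_ifs
    · simp
    · simp
  unfold bop
  simp only [h1]
  rw [Finset.sum_eq_single (1 : Equiv.Perm (Fin n))]
  · simp
  · intro σ _ hσ
    obtain ⟨i, hi⟩ : ∃ i, σ i ≠ i := by
      by_contra hcon
      push Not at hcon
      exact hσ (Equiv.ext hcon)
    rw [List.prod_eq_zero, smul_zero]
    rw [List.mem_ofFn]
    exact ⟨i, if_neg (Ne.symm hi)⟩
  · simp

end weyl

section final

/-- The index set of the variables of the test polynomial. -/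
abbrev VJ (n : ℕ) : Type := Bool ⊕ (Fin n ⊕ Fin n)

/-- The number of a variable. -/
def enc {n : ℕ} (j : VJ n) : ℕ := Encodable.encode j

variable (F : Type u) [Field F]

/-- The test polynomial. -/
noncomputable def fTest (n m : ℕ) : Poly F :=
  (bop (fun i : Fin n => LinearMap.mulRight F (X F (enc (n := n) (Sum.inr (Sum.inl i)))))
    (fun j : Fin n => LinearMap.mulRight F (X F (enc (n := n) (Sum.inr (Sum.inr j))))) ^ m)
    (X F (enc (n := n) (Sum.inl false)) * X F (enc (n := n) (Sum.inl true)))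

/-- Evaluation of the test polynomial, through an additive map. -/
lemma fTest_eval {R B : Type*} [Semiring R] [AddCommGroup B] [Module R B] (n m : ℕ)
    (φ : Poly F →+ B) (r : ℕ → Module.End R B) (h : ∀ i z, φ (z * X F i) = r i (φ z)) :
    φ (fTest F n m) =
      (bop (fun i : Fin n => r (enc (n := n) (Sum.inr (Sum.inl i))))
        (fun j : Fin n => r (enc (n := n) (Sum.inr (Sum.inr j)))) ^ m)
        (φ (X F (enc (n := n) (Sum.inl false)) * X F (enc (n := n) (Sum.inl true)))) :=
  IT.pow m (IT.bop (fun _ z => h _ z) (fun _ z => h _ z)) _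

theorem not_superrank (F : Type u) [Field F] [CharZero F] :
    ¬ HasFiniteBasicSuperrank F (EE F) := by
  classical
  rintro ⟨A, _, _, _, _, 𝒜, h, ⟨S, hSf, hS⟩, hgen⟩
  let _ : Fintype S := hSf.fintype
  have hV : InVariety F (EE F) (envelope F h) := (hgen (envelope F h)).2 (fun f hf => hf)
  have hA : ∀ a b c : A, a * (b * c) = 0 :=
    mul_mul_eq_zero F h (hV (I1 F) (by simp [EE]))
  set k := Fintype.card S with hk
  -- the envelope satisfies the test identity
  have hsat : Satisfies F (envelope F h) (fTest F (k + 1) ((k + 1) * k + 1)) := by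
    intro v
    apply Subtype.ext
    let φ : Poly F →+ (Grass F ⊗[F] A) :=
      { toFun := fun z => ((FreeNonUnitalNonAssocAlgebra.lift F v z : envelope F h) :
          Grass F ⊗[F] A)
        map_zero' := by rw [map_zero]; rfl
        map_add' := fun a b => by rw [map_add]; rfl }
    have h1 := fTest_eval (R := Grass F) F (k + 1) ((k + 1) * k + 1) φ
      (fun i => RG F (v i : Grass F ⊗[F] A)) (by
        intro i z
        change ((FreeNonUnitalNonAssocAlgebra.lift F v (z * X F i) : envelope F h) :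
          Grass F ⊗[F] A) = _
        rw [map_mul, NonUnitalSubalgebra.coe_mul, X,
          FreeNonUnitalNonAssocAlgebra.lift_of_apply]
        rfl)
    change φ (fTest F (k + 1) ((k + 1) * k + 1)) = 0
    rw [h1]
    have hy := fun j : Fin (k + 1) => env_decomp F hA hS
      (v (enc (n := k + 1) (Sum.inr (Sum.inr j))) : Grass F ⊗[F] A)
      (v (enc (n := k + 1) (Sum.inr (Sum.inr j)))).2
    choose γ δ hγ hδ hyy using hy
    have h2 := bop_mem (Nat.lt_succ_self k) (fun s : S => (s : A))
      (fun i : Fin (k + 1) => (v (enc (n := k + 1) (Sum.inr (Sum.inl i))) : Grass F ⊗[F] A))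
      (fun j : Fin (k + 1) => (v (enc (n := k + 1) (Sum.inr (Sum.inr j))) : Grass F ⊗[F] A))
      γ δ hγ hδ hyy
    have h3 := pow_kill (fun q : Fin (k + 1) × S => δ q.1 q.2) (fun q => hδ q.1 q.2) _ h2
      ((k + 1) * k + 1) [] (by
        rw [Fintype.card_prod, Fintype.card_fin, List.length_nil, ← hk]
        omega)
    simpa only [List.map_nil, List.prod_nil, one_smul] using h3 _
  -- the test algebra
  have hT : InVariety F (EE F) (SE (weyl F (k + 1))) := by
    intro f hf
    rcases hf with rfl | hf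
    · exact SE.I1 _
    · rw [Set.mem_singleton_iff] at hf
      subst hf
      exact SE.I2 _ (weyl_comm F (k + 1))
  have h4 := (hgen (SE (weyl F (k + 1)))).1 hT _ hsat
  let v' : VJ (k + 1) → SE (weyl F (k + 1)) := fun j => match j with
    | Sum.inl false => SE.mk _ 1 0
    | Sum.inl true => SE.mk _ 0 (0, Pi.single 0 1)
    | Sum.inr (Sum.inl i) => SE.mk _ 0 (Pi.single i 1, 0)
    | Sum.inr (Sum.inr j) => SE.mk _ 0 (0, Pi.single j 1)
  let v : ℕ → SE (weyl F (k + 1)) := fun t =>
    (Encodable.decode (α := VJ (k + 1)) t).elim 0 v'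
  have hv : ∀ j, v (enc j) = v' j := by
    intro j
    simp only [v, enc, Encodable.encodek, Option.elim_some]
  have h5 := h4 v
  have h6 := fTest_eval (R := F) F (k + 1) ((k + 1) * k + 1)
    ((FreeNonUnitalNonAssocAlgebra.lift F v : Poly F →ₙₐ[F] SE (weyl F (k + 1))) :
      Poly F →+ SE (weyl F (k + 1)))
    (fun i => LinearMap.mulRight F (v i)) (by
      intro i z
      change FreeNonUnitalNonAssocAlgebra.lift F v (z * X F i) = _
      rw [map_mul, X, FreeNonUnitalNonAssocAlgebra.lift_of_apply]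
      rfl)
  let ψ : MvPolynomial (Fin (k + 1)) F →+ SE (weyl F (k + 1)) :=
    { toFun := fun m => SE.mk _ m 0
      map_zero' := rfl
      map_add' := fun a b => by rw [SE.mk_add, add_zero] }
  have hIT : IT ψ
      (bop (fun i => weyl F (k + 1) (Pi.single i 1, 0))
        (fun j => weyl F (k + 1) (0, Pi.single j 1)) ^ ((k + 1) * k + 1))
      (bop (fun i : Fin (k + 1) => LinearMap.mulRight F (v (enc (Sum.inr (Sum.inl i)))))
        (fun j : Fin (k + 1) => LinearMap.mulRight F (v (enc (Sum.inr (Sum.inr j))))) ^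
          ((k + 1) * k + 1)) := by
    refine IT.pow _ (IT.bop (fun i z => ?_) (fun j z => ?_))
    · rw [hv]; rfl
    · rw [hv]; rfl
  have h7 : ((FreeNonUnitalNonAssocAlgebra.lift F v : Poly F →ₙₐ[F] SE (weyl F (k + 1))) :
      Poly F →+ SE (weyl F (k + 1)))
      (X F (enc (n := k + 1) (Sum.inl false)) * X F (enc (n := k + 1) (Sum.inl true))) =
      ψ (MvPolynomial.X 0) := by
    change FreeNonUnitalNonAssocAlgebra.lift F v _ = _
    rw [map_mul, X, X, FreeNonUnitalNonAssocAlgebra.lift_of_apply,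
      FreeNonUnitalNonAssocAlgebra.lift_of_apply, hv, hv, SE.mul_def]
    change SE.mk _ (weyl F (k + 1) (0, Pi.single 0 1) 1) 0 = SE.mk _ (MvPolynomial.X 0) 0
    congr 1
    rw [weyl_apply, dD_zero, Derivation.zero_apply, zero_add, mul_one]
    simp only [lL, LinearMap.sum_apply, LinearMap.smulRight_apply, LinearMap.proj_apply]
    rw [Finset.sum_eq_single 0]
    · simp
    · intro j _ hj
      simp [hj]
    · simp
  rw [h7, ← hIT, weyl_bop, one_pow] at h6
  change FreeNonUnitalNonAssocAlgebra.lift F v (fTest F (k + 1) ((k + 1) * k + 1)) =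
    SE.mk _ (MvPolynomial.X 0) 0 at h6
  rw [h5] at h6
  have h8 := congrArg (fun z : SE (weyl F (k + 1)) => z.1) h6
  exact MvPolynomial.X_ne_zero (R := F) (0 : Fin (k + 1)) h8.symm

end final

end Pool.Agent.MP_1670b2_al
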