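import Pool.Agent.Work.MP_1670b2_al.Statement
import Pool.Agent.Work.MP_1670b2_al.Idents
import Pool.Agent.Work.MP_1670b2_al.NotSuperrank

/-!
Transfer of the two main theorems to the bundled definitions of `Statement`.
-/

open scoped TensorProduct

namespace Pool.Agent.MP_1670b2_al.Stmt

universe u

variable {F : Type u} [Field F]

/-- The element of the free nonassociative algebra given by a combination of words. -/
noncomputable def toPoly (f : FreeMagma ℕ →₀ F) : FreeNonUnitalNonAssocAlgebra F ℕ :=
  MonoidAlgebra.ofCoeff f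

theorem toPoly_single (w : FreeMagma ℕ) (c : F) :
    toPoly (Finsupp.single w c) = MonoidAlgebra.single w c := rfl

theorem toPoly_add (f g : FreeMagma ℕ →₀ F) : toPoly (f + g) = toPoly f + toPoly g := rfl

theorem toPoly_sub (f g : FreeMagma ℕ →₀ F) : toPoly (f - g) = toPoly f - toPoly g := rfl

theorem toPoly_coeff (f : FreeNonUnitalNonAssocAlgebra F ℕ) : toPoly f.coeff = f := rfl

theorem toPoly_injective : Function.Injective (toPoly (F := F)) := by
  intro f g h
  exact congrArg MonoidAlgebra.coeff h

theorem toPoly_single_mul (a b : FreeMagma ℕ) :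
    toPoly (Finsupp.single (a * b) (1 : F)) =
      toPoly (Finsupp.single a 1) * toPoly (Finsupp.single b 1) := by
  rw [toPoly_single, toPoly_single, toPoly_single, MonoidAlgebra.single_mul_single, one_mul]

theorem toPoly_single_of (i : ℕ) :
    toPoly (Finsupp.single (FreeMagma.of i) (1 : F)) = FreeNonUnitalNonAssocAlgebra.of F i := rfl

section

variable {V : Type u} [AddCommGroup V] [Module F V] (m : V →ₗ[F] V →ₗ[F] V)

/-- Evaluation of a word, transported along a multiplicative linear map. -/
theorem map_evalWord {C : Type*} [NonUnitalNonAssocRing C] [Module F C]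
    [IsScalarTower F C C] [SMulCommClass F C C] (φ : V →ₗ[F] C)
    (hφ : ∀ a b, φ (m a b) = φ a * φ b) (v : ℕ → V) (w : FreeMagma ℕ) :
    φ (evalWord m v w) =
      FreeNonUnitalNonAssocAlgebra.lift F (fun i => φ (v i)) (toPoly (Finsupp.single w 1)) := by
  induction w with
  | ih1 i =>
    rw [toPoly_single_of, FreeNonUnitalNonAssocAlgebra.lift_of_apply]
    rfl
  | ih2 a b iha ihb =>
    have h : evalWord m v (a * b) = m (evalWord m v a) (evalWord m v b) := rfl
    have h2 : toPoly (Finsupp.single (a * b) (1 : F)) =
      toPoly (Finsupp.single a 1) * toPoly (Finsupp.single b 1) := toPoly_single_mul a b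
    rw [h2, map_mul, ← iha, ← ihb, ← hφ, ← h]

/-- Evaluation of a polynomial, transported along a multiplicative linear map. -/
theorem map_evalPoly {C : Type*} [NonUnitalNonAssocRing C] [Module F C]
    [IsScalarTower F C C] [SMulCommClass F C C] (φ : V →ₗ[F] C)
    (hφ : ∀ a b, φ (m a b) = φ a * φ b) (v : ℕ → V) (f : FreeMagma ℕ →₀ F) :
    φ (evalPoly m v f) = FreeNonUnitalNonAssocAlgebra.lift F (fun i => φ (v i)) (toPoly f) := by
  unfold evalPoly
  induction f using Finsupp.induction_linear with
  | zero =>
    rw [Finsupp.sum_zero_index, map_zero]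
    exact (map_zero (FreeNonUnitalNonAssocAlgebra.lift F (fun i => φ (v i)))).symm
  | add f g hf hg =>
    rw [Finsupp.sum_add_index' (by simp) (by intro a b c; rw [add_smul]), map_add, hf, hg,
      toPoly_add, map_add]
  | single w c =>
    rw [Finsupp.sum_single_index (by simp), map_smul, map_evalWord m φ hφ, ← map_smul]
    congr 1
    have : c • toPoly (Finsupp.single w (1 : F)) = toPoly (c • Finsupp.single w (1 : F)) := rfl
    rw [this, Finsupp.smul_single, smul_eq_mul, mul_one]

/-- Evaluation of a polynomial, transported along a multiplicative linear map. -/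
theorem map_evalPoly' {W : Type u} [AddCommGroup W] [Module F W] (n : W →ₗ[F] W →ₗ[F] W)
    (φ : V →ₗ[F] W) (hφ : ∀ a b, φ (m a b) = n (φ a) (φ b)) (v : ℕ → V)
    (f : FreeMagma ℕ →₀ F) :
    φ (evalPoly m v f) = evalPoly n (fun i => φ (v i)) f := by
  have hw : ∀ w : FreeMagma ℕ, φ (evalWord m v w) = evalWord n (fun i => φ (v i)) w := by
    intro w
    induction w with
    | ih1 i => rfl
    | ih2 a b iha ihb =>
      have h : evalWord m v (a * b) = m (evalWord m v a) (evalWord m v b) := rfl
      have h' : evalWord n (fun i => φ (v i)) (a * b) = n (evalWord n (fun i => φ (v i)) a)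
        (evalWord n (fun i => φ (v i)) b) := rfl
      rw [h, h', hφ, iha, ihb]
  unfold evalPoly
  rw [Finsupp.sum, Finsupp.sum, map_sum]
  refine Finset.sum_congr rfl fun w _ => ?_
  rw [map_smul, hw]

/-- Identities of a subalgebra. -/
theorem isIdentity_restrictMul (B : Submodule F V) (h : IsClosed m B)
    (f : FreeMagma ℕ →₀ F) :
    IsIdentity (restrictMul m B h) f ↔
      ∀ v : ℕ → V, (∀ i, v i ∈ B) → evalPoly m v f = 0 := by
  have key : ∀ v : ℕ → B, B.subtype (evalPoly (restrictMul m B h) v f) =
      evalPoly m (fun i => (v i : V)) f := fun v =>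
    map_evalPoly' (restrictMul m B h) m B.subtype (fun _ _ => rfl) v f
  constructor
  · intro hf v hv
    have h1 := hf (fun i => (⟨v i, hv i⟩ : B))
    have h2 := key (fun i => (⟨v i, hv i⟩ : B))
    refine h2.symm.trans ?_
    rw [h1]
    exact map_zero B.subtype
  · intro hf v
    exact Subtype.ext ((key v).trans (hf _ fun i => (v i).2))

end

/-- The algebra `A` as a ring. -/
@[reducible] def ringOf (A : Alg F) : NonUnitalNonAssocRing A.carrier :=
  { A.group with
    mul := fun x y => A.mul x y
    left_distrib := fun a b c => (A.mul a).map_add b c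
    right_distrib := fun a b c => by
      change A.mul (a + b) c = A.mul a c + A.mul b c
      rw [map_add, LinearMap.add_apply]
    zero_mul := fun a => by
      change A.mul 0 a = 0
      rw [map_zero, LinearMap.zero_apply]
    mul_zero := fun a => (A.mul a).map_zero }

/-- An unbundled algebra as a bundled one. -/
def ofClass (F : Type u) [Field F] (B : Type u) [NonUnitalNonAssocRing B] [Module F B]
    [IsScalarTower F B B] [SMulCommClass F B B] : Alg F where
  carrier := B
  mul := LinearMap.mul F B

theorem isIdentity_iff (B : Type u) [NonUnitalNonAssocRing B] [Module F B]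
    [IsScalarTower F B B] [SMulCommClass F B B] (f : FreeMagma ℕ →₀ F) :
    IsIdentity (LinearMap.mul F B) f ↔ Satisfies F B (toPoly f) := by
  unfold IsIdentity Satisfies
  refine forall_congr' fun v => ?_
  have h := map_evalPoly (LinearMap.mul F B) (C := B) (LinearMap.id : B →ₗ[F] B)
    (fun _ _ => rfl) v f
  rw [LinearMap.id_apply] at h
  rw [h]
  rfl

theorem tower_ringOf (A : Alg F) : letI := ringOf A; IsScalarTower F A.carrier A.carrier := by
  let _ := ringOf A
  exact ⟨fun c x y => by
    change A.mul (c • x) y = c • A.mul x y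
    rw [map_smul, LinearMap.smul_apply]⟩

theorem comm_ringOf (A : Alg F) : letI := ringOf A; SMulCommClass F A.carrier A.carrier := by
  let _ := ringOf A
  exact ⟨fun c x y => by
    change c • A.mul x y = A.mul x (c • y)
    rw [map_smul]⟩

theorem I1_eq : toPoly (I1 F) = MP_1670b2_al.I1 F := by
  unfold I1 MP_1670b2_al.I1 x X
  rw [toPoly_single_mul, toPoly_single_mul, toPoly_single_of, toPoly_single_of, toPoly_single_of]

theorem I2_eq : toPoly (I2 F) = MP_1670b2_al.I2 F := by
  unfold I2 MP_1670b2_al.I2 x X
  rw [toPoly_add, toPoly_sub, toPoly_sub]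
  simp only [toPoly_single_mul, toPoly_single_of]
  abel

theorem image_eq : toPoly '' {I1 F, I2 F} = EE F := by
  rw [Set.image_pair, I1_eq, I2_eq]
  rfl

theorem mem_variety_iff (E : Set (FreeMagma ℕ →₀ F)) (B : Type u) [NonUnitalNonAssocRing B]
    [Module F B] [IsScalarTower F B B] [SMulCommClass F B B] :
    ofClass F B ∈ variety E ↔ InVariety F (toPoly '' E) B := by
  constructor
  · rintro h _ ⟨f, hf, rfl⟩
    exact (isIdentity_iff B f).1 (h f hf)
  · intro h f hf
    exact (isIdentity_iff B f).2 (h _ ⟨f, hf, rfl⟩)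

theorem finitelyBased_of (B : Type u) [NonUnitalNonAssocRing B]
    [Module F B] [IsScalarTower F B B] [SMulCommClass F B B]
    (h : MP_1670b2_al.FinitelyBased F B) :
    FinitelyBased (ofClass F B) := by
  obtain ⟨S, hS, h1, h2⟩ := h
  refine ⟨toPoly ⁻¹' S, hS.preimage toPoly_injective.injOn, ?_⟩
  ext C
  let _ := ringOf C
  have _ := tower_ringOf C
  have _ := comm_ringOf C
  constructor
  · intro hC f hf
    refine (isIdentity_iff C.carrier f).2 ?_
    refine h2 C.carrier ?_ _ ((isIdentity_iff B f).1 hf)
    intro g hg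
    have := (isIdentity_iff C.carrier g.coeff).1 (hC g.coeff hg)
    exact this
  · intro hC f hf
    exact hC f ((isIdentity_iff B f).2 (h1 _ hf))

theorem spechtian_of {E : Set (FreeMagma ℕ →₀ F)}
    (h : MP_1670b2_al.Spechtian F (toPoly '' E)) : Spechtian (variety E) := by
  intro A hA
  let _ := ringOf A
  have _ := tower_ringOf A
  have _ := comm_ringOf A
  exact finitelyBased_of A.carrier (h A.carrier ((mem_variety_iff E A.carrier).1 hA))

/-- Identities of an unbundled subalgebra. -/
theorem satisfies_sub {B : Type u} [NonUnitalNonAssocRing B] [Module F B] [IsScalarTower F B B]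
    [SMulCommClass F B B] (S : NonUnitalSubalgebra F B) (f : FreeNonUnitalNonAssocAlgebra F ℕ) :
    Satisfies F S f ↔ ∀ v : ℕ → B, (∀ i, v i ∈ S) →
      FreeNonUnitalNonAssocAlgebra.lift F v f = 0 := by
  have key : ∀ v : ℕ → S, ((FreeNonUnitalNonAssocAlgebra.lift F v f : S) : B) =
      FreeNonUnitalNonAssocAlgebra.lift F (fun i => (v i : B)) f := by
    intro v
    have h1 : (NonUnitalSubalgebraClass.subtype S).comp (FreeNonUnitalNonAssocAlgebra.lift F v) =
        FreeNonUnitalNonAssocAlgebra.lift F (fun i => (v i : B)) := by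
      apply FreeNonUnitalNonAssocAlgebra.hom_ext
      intro i
      rw [FreeNonUnitalNonAssocAlgebra.lift_of_apply, NonUnitalAlgHom.comp_apply,
        FreeNonUnitalNonAssocAlgebra.lift_of_apply]
      rfl
    exact DFunLike.congr_fun h1 f
  constructor
  · intro hf v hv
    have h1 := hf (fun i => (⟨v i, hv i⟩ : S))
    have h2 := key (fun i => (⟨v i, hv i⟩ : S))
    exact h2.symm.trans (congrArg (Subtype.val) h1)
  · intro hf v
    exact Subtype.ext ((key v).trans (hf _ fun i => (v i).2))

theorem tensorMul_eq (R : Type u) [Ring R] [Algebra F R] {B : Type u} [NonUnitalNonAssocRing B]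
    [Module F B] [IsScalarTower F B B] [SMulCommClass F B B] (a b : R ⊗[F] B) :
    tensorMul R (LinearMap.mul F B) a b = a * b := by
  unfold tensorMul
  induction a using TensorProduct.induction_on with
  | zero => rw [map_zero, LinearMap.zero_apply, zero_mul]
  | add x y hx hy => rw [map_add, LinearMap.add_apply, hx, hy, add_mul]
  | tmul r x =>
    induction b using TensorProduct.induction_on with
    | zero => rw [map_zero, mul_zero]
    | add y z hy hz => rw [map_add, hy, hz, mul_add]
    | tmul s y =>
      rw [TensorProduct.map₂_apply_tmul, Algebra.TensorProduct.tmul_mul_tmul]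
      rfl

theorem isSuper_of {B : Type u} [NonUnitalNonAssocRing B] [Module F B] [IsScalarTower F B B]
    [SMulCommClass F B B] {P : ZMod 2 → Submodule F B}
    (h : IsSuperStructure (LinearMap.mul F B) P) : IsSuper F B P := by
  refine ⟨?_, h.2⟩
  exact (DirectSum.isInternal_submodule_iff_isCompl P (i := 0) (j := 1) (by decide)
      (Set.ext fun i => by revert i; decide)).2 h.1

theorem isIdentity_envMul {B : Type u} [NonUnitalNonAssocRing B] [Module F B]
    [IsScalarTower F B B] [SMulCommClass F B B] {P : ZMod 2 → Submodule F B}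
    (h : IsSuperStructure (LinearMap.mul F B) P) (f : FreeMagma ℕ →₀ F) :
    IsIdentity (envelope (ofClass F B) P h).mul f ↔
      Satisfies F (MP_1670b2_al.envelope F (isSuper_of h)) (toPoly f) := by
  refine (isIdentity_restrictMul (tensorMul (ExteriorAlgebra F (ℕ →₀ F)) (LinearMap.mul F B))
    (envSpace P) (isClosed_envSpace _ P h) f).trans ?_
  rw [satisfies_sub]
  refine forall_congr' fun v => ?_
  refine imp_congr Iff.rfl ?_
  have h3 := map_evalPoly (tensorMul (ExteriorAlgebra F (ℕ →₀ F)) (LinearMap.mul F B))
    (C := Grass F ⊗[F] B) LinearMap.id (fun a b => tensorMul_eq _ a b) v f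
  rw [LinearMap.id_apply] at h3
  rw [h3]
  rfl

theorem hasFiniteBasicSuperrank_of {E : Set (FreeMagma ℕ →₀ F)}
    (h : HasFiniteBasicSuperrank (variety E)) :
    MP_1670b2_al.HasFiniteBasicSuperrank F (toPoly '' E) := by
  obtain ⟨A, P, hP, ⟨S, hS, hS2⟩, hA⟩ := h
  let _ := ringOf A
  have _ := tower_ringOf A
  have _ := comm_ringOf A
  have hP' : IsSuperStructure (LinearMap.mul F A.carrier) P := hP
  refine ⟨A.carrier, inferInstance, inferInstance, inferInstance, inferInstance, P,
    isSuper_of hP', ⟨S, hS, ?_⟩, ?_⟩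
  · have h1 := hS2 (NonUnitalAlgebra.adjoin F S).toSubmodule
      (fun x hx y hy => (NonUnitalAlgebra.adjoin F S).mul_mem hx hy)
      (NonUnitalAlgebra.subset_adjoin F)
    ext x
    have h2 : x ∈ (NonUnitalAlgebra.adjoin F S).toSubmodule := by rw [h1]; trivial
    exact ⟨fun _ => trivial, fun _ => h2⟩
  · intro B _ _ _ _
    rw [← mem_variety_iff, hA]
    have key : ∀ f : FreeMagma ℕ →₀ F, IsIdentity (envelope A P hP).mul f ↔
        Satisfies F (MP_1670b2_al.envelope F (isSuper_of hP')) (toPoly f) :=
      fun f => isIdentity_envMul hP' f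
    constructor
    · intro h4 f hf
      exact (isIdentity_iff B f.coeff).1 (h4 f.coeff ((key f.coeff).2 hf))
    · intro h4 f hf
      exact (isIdentity_iff B f).2 (h4 _ ((key f).1 hf))

end Pool.Agent.MP_1670b2_al.Stmt
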