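import Pool.Agent.Work.MP_1670b2_al.Fischer

/-!
Adjoints of the substitutions `phi g` and of the operators `L`.
-/

open MvPolynomial

namespace Pool.Agent.MP_1670b2_al

universe u

section

variable {F : Type u} [Field F]

variable (F) in
/-- the standard symmetric bilinear form on finitely supported vectors -/
noncomputable def dot : (ℕ →₀ F) →ₗ[F] (ℕ →₀ F) →ₗ[F] F :=
  Finsupp.linearCombination F (fun i => (Finsupp.lapply i : (ℕ →₀ F) →ₗ[F] F))

theorem dot_ee (i : ℕ) (v : ℕ →₀ F) : dot F (ee F i) v = v i := by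
  simp [dot]

theorem dot_comm (u v : ℕ →₀ F) : dot F u v = dot F v u := by
  have : dot F = (dot F).flip := by
    apply bil_ext
    intro a b
    rw [LinearMap.flip_apply, dot_ee, dot_ee]
    by_cases h : a = b
    · subst h; rfl
    · rw [Finsupp.single_eq_of_ne h, Finsupp.single_eq_of_ne (Ne.symm h)]
  conv_lhs => rw [this]
  rfl

theorem dot_ee' (i : ℕ) (v : ℕ →₀ F) : dot F v (ee F i) = v i := by
  rw [dot_comm, dot_ee]

theorem zz_mem_Lin (u v : ℕ →₀ F) : zz F u v ∈ (Lin : Submodule F (CC F)) := by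
  have hZ : ∀ a b, Z F a b ∈ (Lin : Submodule F (CC F)) := by
    intro a b
    rcases lt_trichotomy a b with h | h | h
    · rw [Z_lt h]; exact Submodule.subset_span ⟨_, rfl⟩
    · subst h; rw [Z_self]; exact Submodule.zero_mem _
    · rw [Z_swap, Z_lt h]; exact Submodule.neg_mem _ (Submodule.subset_span ⟨_, rfl⟩)
  have := lin_zz (Submodule.mkQ (Lin : Submodule F (CC F))) 0 (fun _ => rfl) (fun p => by
    rw [← Z_var]
    simp only [LinearMap.zero_apply]
    rw [Submodule.mkQ_apply, Submodule.Quotient.mk_eq_zero]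
    exact hZ _ _) u v
  rw [Submodule.mkQ_apply] at this
  simpa [Submodule.Quotient.mk_eq_zero] using this

theorem B_X_zz (p : Var) (u v : ℕ →₀ F) :
    B F Var (X p) (zz F u v) = u p.1.1 * v p.1.2 - u p.1.2 * v p.1.1 := by
  classical
  have := lin_zz (B F Var (X p)) (LinearMap.mk₂ F
      (fun u v => u p.1.1 * v p.1.2 - u p.1.2 * v p.1.1)
      (fun u u' v => by simp; ring) (fun c u v => by simp; ring)
      (fun u v v' => by simp; ring) (fun c u v => by simp; ring))
    (fun u => by simp [LinearMap.mk₂_apply]; ring) (fun q => by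
      rw [B_X_X, LinearMap.mk₂_apply]
      obtain ⟨⟨a, b⟩, hab⟩ := p
      obtain ⟨⟨c, d⟩, hcd⟩ := q
      simp only at hab hcd
      simp only [Subtype.mk.injEq, Prod.mk.injEq, Finsupp.single_apply]
      by_cases h1 : a = c
      · subst h1
        by_cases h2 : b = d
        · subst h2
          simp [hab.ne]
        · have h3 : d ≠ b := Ne.symm h2
          by_cases h4 : a = b
          · omega
          · simp [h2, h3, h4]
      · by_cases h4 : c = b
        · have h5 : ¬ d = a := by omega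
          simp [h1, Ne.symm h1, h5]
        · simp [h1, Ne.symm h1, h4]) u v
  rw [this, LinearMap.mk₂_apply]

theorem B_zz_zz (u v u' v' : ℕ →₀ F) :
    B F Var (zz F u v) (zz F u' v') = dot F u u' * dot F v v' - dot F u v' * dot F v u' := by
  have := lin_zz ((B F Var).flip (zz F u' v')) (LinearMap.mk₂ F
      (fun u v => dot F u u' * dot F v v' - dot F u v' * dot F v u')
      (fun u u' v => by simp; ring) (fun c u v => by simp; ring)
      (fun u v v' => by simp; ring) (fun c u v => by simp; ring))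
    (fun u => by simp [LinearMap.mk₂_apply]; ring) (fun p => by
      rw [LinearMap.flip_apply, B_X_zz, LinearMap.mk₂_apply]
      simp only [dot_ee]
      ring) u v
  rw [LinearMap.flip_apply] at this
  rw [this, LinearMap.mk₂_apply]

/-- `g` and `g'` are transposes of each other -/
def Adj (g g' : (ℕ →₀ F) →ₗ[F] (ℕ →₀ F)) : Prop := ∀ u v, dot F (g u) v = dot F u (g' v)

theorem Adj.symm {g g' : (ℕ →₀ F) →ₗ[F] (ℕ →₀ F)} (h : Adj g g') : Adj g' g := by
  intro u v
  rw [dot_comm, ← h, dot_comm]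

theorem B_phi {g g' : (ℕ →₀ F) →ₗ[F] (ℕ →₀ F)} (h : Adj g g') (f k : CC F) :
    B F Var (phi g f) k = B F Var f (phi g' k) := by
  apply B_hom_adj
  · intro p; rw [← Z_var, ← zz_ee, phi_zz]; exact zz_mem_Lin _ _
  · intro p; rw [← Z_var, ← zz_ee, phi_zz]; exact zz_mem_Lin _ _
  · intro p q
    rw [← Z_var, ← Z_var, ← zz_ee, ← zz_ee, phi_zz, phi_zz, B_zz_zz, B_zz_zz, h, h, h, h]

theorem B_der {g g' : (ℕ →₀ F) →ₗ[F] (ℕ →₀ F)} (h : Adj g g') (f k : CC F) :
    B F Var (der g f) k = B F Var f (der g' k) := by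
  apply B_der_adj
  · intro p; rw [← Z_var, ← zz_ee, der_zz]
    exact Submodule.add_mem _ (zz_mem_Lin _ _) (zz_mem_Lin _ _)
  · intro p; rw [← Z_var, ← zz_ee, der_zz]
    exact Submodule.add_mem _ (zz_mem_Lin _ _) (zz_mem_Lin _ _)
  · intro p q
    rw [← Z_var, ← Z_var, ← zz_ee, ← zz_ee, der_zz, der_zz]
    simp only [map_add, LinearMap.add_apply, B_zz_zz, h _ _]
    ring

/-- The rank one map `u ↦ u_k • e_0`. -/
noncomputable def T0' (k : ℕ) : (ℕ →₀ F) →ₗ[F] (ℕ →₀ F) :=
  (Finsupp.lapply k : (ℕ →₀ F) →ₗ[F] F).smulRight (ee F 0)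

theorem T0'_apply (k : ℕ) (u : ℕ →₀ F) : T0' k u = u k • ee F 0 := rfl

theorem adj_T0 (k : ℕ) : Adj (T0 (ee F k)) (T0' k) := by
  intro u v
  rw [T0_apply, T0'_apply, map_smul, map_smul, LinearMap.smul_apply, dot_ee, dot_ee']
  simp [mul_comm]

theorem D_eq (k : ℕ) (hk : 0 < k) (f : CC F) :
    D k f = pderiv ⟨(0, k), hk⟩ f + der (T0' k) f := by
  classical
  have : D k = (pderiv ⟨(0, k), hk⟩ + der (T0' k) : Derivation F (CC F) (CC F)) := by
    apply MvPolynomial.derivation_ext
    intro p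
    rw [Derivation.add_apply, pdX]
    rw [← Z_var, ← zz_ee, D_zz, der_zz, T0'_apply, T0'_apply]
    obtain ⟨⟨a, b⟩, hab⟩ := p
    simp only at hab
    simp only [Subtype.mk.injEq, Prod.mk.injEq, map_smul, LinearMap.smul_apply]
    have hb : b ≠ 0 := by omega
    have hb' : (ee F b) 0 = 0 := by simp [Ne.symm hb]
    rw [hb', mul_zero, sub_zero, add_comm]
    congr 1
    by_cases h1 : a = 0
    · subst h1
      by_cases h2 : b = k
      · subst h2; simp
      · simp [h2, Ne.symm h2]
    · simp [h1, Ne.symm h1]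
  rw [this]; rfl

theorem B_L (k : ℕ) (hk : 0 < k) (f h : CC F) :
    B F Var (L (ee F k) f) h = B F Var f (D k h) := by
  rw [L_apply, D_eq k hk, map_add, LinearMap.add_apply, map_add, B_der (adj_T0 k), zz_ee,
    Z_lt hk, mul_comm, B_X_mul]

end

end Pool.Agent.MP_1670b2_al
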