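import Pool.Agent.Work.MP_1670b2_al.Words

/-!
Orthogonal complements and the dichotomy for `P_w`.
-/

open MvPolynomial

namespace Pool.Agent.MP_1670b2_al

universe u

section

variable {F : Type u} [Field F]

/-- homogeneous elements of distinct weights are orthogonal -/
theorem B_ortho {M : Type*} [AddCommMonoid M] (ω : Var → M) {f g : CC F} {m n : M}
    (hf : IsWeightedHomogeneous ω f m) (hg : IsWeightedHomogeneous ω g n) (h : m ≠ n) :
    B F Var f g = 0 := by
  rw [B_eq_sum]
  apply Finset.sum_eq_zero
  intro d hd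
  have h1 := hf (mem_support_iff.mp hd)
  have h2 : coeff d g = 0 := by
    by_contra hne
    exact h (h1.symm.trans (hg hne))
  rw [h2, mul_zero, mul_zero]

theorem B_wc {f : CC F} {α : ℕ →₀ ℕ} (hf : IsW α f) (g : CC F) :
    B F Var f (wc α g) = B F Var f g := by
  classical
  rw [B_eq_sum, B_eq_sum]
  apply Finset.sum_congr rfl
  intro d hd
  have h1 := hf (mem_support_iff.mp hd)
  have h2 := coeff_weightedHomogeneousComponent (w := wt) α g d
  rw [if_pos h1] at h2
  have h3 : coeff d (wc α g) = coeff d g := h2
  rw [h3]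

/-- the orthogonal complement -/
noncomputable def perp (I : Submodule F (CC F)) : Submodule F (CC F) where
  carrier := {h | ∀ f ∈ I, B F Var f h = 0}
  add_mem' := by
    intro a b ha hb f hf
    rw [map_add, ha f hf, hb f hf, add_zero]
  zero_mem' := by intro f _; rw [map_zero]
  smul_mem' := by
    intro c a ha f hf
    rw [map_smul, ha f hf, smul_zero]

theorem mem_perp {I : Submodule F (CC F)} {h : CC F} :
    h ∈ perp I ↔ ∀ f ∈ I, B F Var f h = 0 := Iff.rfl

theorem perp_stable {I : Submodule F (CC F)} (hI : Stable I) : Stable (perp I) := by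
  intro g g' hg h f hf k hk
  rw [← B_phi h.symm]
  exact hf _ (hI _ _ (hg.adj h) h.symm k hk)

theorem inf_stable {I J : Submodule F (CC F)} (hI : Stable I) (hJ : Stable J) :
    Stable (I ⊓ J) := fun g g' hg h f hf => ⟨hI g g' hg h f hf.1, hJ g g' hg h f hf.2⟩

theorem inf_perp [CharZero F] {I : Submodule F (CC F)} (hI : Stable I) : I ⊓ perp I = ⊥ := by
  by_contra hne
  obtain ⟨w, hw1, hw2⟩ := exists_P_mem (inf_stable hI (perp_stable hI)) hne
  exact B_rat_ne_zero (P_rat w) (P_ne_zero w) (hw2 _ hw1)

theorem finite_weight (α : ℕ →₀ ℕ) : {d : Var →₀ ℕ | Finsupp.weight wt d = α}.Finite := by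
  classical
  set N := α.support.sup id with hN
  set e : Var →₀ ℕ := Finsupp.onFinset
    (Finset.subtype (fun p : ℕ × ℕ => p.1 < p.2) (Finset.range (N + 1) ×ˢ Finset.range (N + 1)))
    (fun q => if q.1.2 ≤ N then α q.1.2 else 0) (by
      intro q hq
      rw [Finset.mem_subtype, Finset.mem_product, Finset.mem_range, Finset.mem_range]
      have h1 : q.1.2 ≤ N := by
        by_contra hc
        rw [if_neg hc] at hq
        exact hq rfl
      have := q.2
      omega) with he
  apply (Set.finite_Iic e).subset
  intro d hd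
  rw [Set.mem_Iic]
  intro q
  rw [he, Finsupp.onFinset_apply]
  have h1 : d q ≤ α q.1.2 := by
    have h2 : Finsupp.weight wt d = α := hd
    rw [← h2, Finsupp.weight_apply, Finsupp.sum, Finsupp.finsetSum_apply]
    by_cases hq : d q = 0
    · rw [hq]; exact Nat.zero_le _
    · refine le_trans ?_ (Finset.single_le_sum (f := fun c => (d c • wt c) q.1.2)
        (fun _ _ => Nat.zero_le _) (Finsupp.mem_support_iff.mpr hq))
      have h3 : 1 ≤ wt q q.1.2 := by
        rw [wt, Finsupp.add_apply, wv_pos (by have := q.2; omega : q.1.2 ≠ 0),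
          Finsupp.single_eq_same]
        omega
      simp only [Finsupp.smul_apply, smul_eq_mul]
      exact Nat.le_mul_of_pos_right _ h3
  split_ifs with h
  · exact h1
  · have h4 : α q.1.2 = 0 := by
      by_contra hc
      apply h
      have := Finset.le_sup (f := id) (Finsupp.mem_support_iff.mpr hc)
      exact this
    omega

theorem findim_weight (α : ℕ →₀ ℕ) :
    FiniteDimensional F (weightedHomogeneousSubmodule F wt α : Submodule F (CC F)) := by
  classical
  have h1 : (weightedHomogeneousSubmodule F wt α : Submodule F (CC F)) ≤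
      Submodule.span F ((fun d => (monomial d 1 : CC F)) '' {d | Finsupp.weight wt d = α}) := by
    intro f hf
    rw [f.as_sum]
    apply Submodule.sum_mem
    intro d hd
    rw [monomial_smul]
    apply Submodule.smul_mem
    apply Submodule.subset_span
    exact ⟨d, hf (mem_support_iff.mp hd), rfl⟩
  have : FiniteDimensional F (Submodule.span F
      ((fun d => (monomial d 1 : CC F)) '' {d | Finsupp.weight wt d = α})) :=
    FiniteDimensional.span_of_finite F ((finite_weight α).image _)
  exact Submodule.finiteDimensional_of_le h1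

/-- orthogonal decomposition -/
theorem decomp [CharZero F] {I : Submodule F (CC F)} (hI : Stable I) {α : ℕ →₀ ℕ} {f : CC F}
    (hf : IsW α f) : ∃ a ∈ I, IsW α a ∧ f - a ∈ perp I := by
  have hfd := findim_weight (F := F) α
  set Wα : Submodule F (CC F) := I ⊓ weightedHomogeneousSubmodule F wt α with hW
  have hfd2 : FiniteDimensional F Wα := Submodule.finiteDimensional_of_le inf_le_right
  set T : Wα →ₗ[F] (Wα →ₗ[F] F) := ((B F Var).domRestrict₁₂ Wα Wα) with hT
  have hTa : ∀ x y : Wα, T x y = B F Var (x : CC F) (y : CC F) := fun x y => rfl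
  have hinj : Function.Injective T := by
    rw [injective_iff_map_eq_zero]
    intro x hx
    have h1 : (x : CC F) ∈ I ⊓ perp I := by
      refine ⟨x.2.1, fun g hg => ?_⟩
      rw [B_symm, ← B_wc x.2.2 g]
      have h2 := LinearMap.congr_fun hx ⟨wc α g, hI.wc_mem hg α,
        weightedHomogeneousComponent_isWeightedHomogeneous α g⟩
      exact h2
    rw [inf_perp hI] at h1
    exact Subtype.ext h1
  have hsurj : Function.Surjective T := by
    rw [← LinearMap.injective_iff_surjective_of_finrank_eq_finrank]
    · exact hinj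
    · exact (Subspace.dual_finrank_eq (K := F) (V := Wα)).symm
  obtain ⟨a, ha⟩ := hsurj ((B F Var f).domRestrict Wα)
  refine ⟨a, a.2.1, a.2.2, fun g hg => ?_⟩
  have hfa : IsW α (f - (a : CC F)) := hf.sub a.2.2
  rw [B_symm, ← B_wc hfa g, map_sub, LinearMap.sub_apply, sub_eq_zero]
  have h2 := LinearMap.congr_fun ha ⟨wc α g, hI.wc_mem hg α,
        weightedHomogeneousComponent_isWeightedHomogeneous α g⟩
  exact h2.symm

/-- the dichotomy -/
theorem dichotomy [CharZero F] {I : Submodule F (CC F)} (hI : Stable I) (w : List Bool) :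
    P F w ∈ I ∨ P F w ∈ perp I := by
  obtain ⟨a, haI, haW, hap⟩ := decomp hI (P_isW (F := F) w)
  have hah : Hwv a := by
    intro s t hs ht
    have h1 : phi (shear s t) a - a ∈ I ⊓ perp I := by
      constructor
      · exact Submodule.sub_mem _
          (hI _ _ (shear_good hs (ht 0 (Nat.zero_le _))) (shear_adj s t) a haI) haI
      · have h2 : phi (shear s t) a - a =
            -(phi (shear s t) (P F w - a) - (P F w - a)) := by
          rw [map_sub, P_hwv w s t hs ht]; ring
        rw [h2]
        apply Submodule.neg_mem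
        exact Submodule.sub_mem _ (perp_stable hI _ _ (shear_good hs (ht 0 (Nat.zero_le _)))
          (shear_adj s t) _ hap) hap
    rw [inf_perp hI] at h1
    exact sub_eq_zero.mp h1
  have hP0 : evq q0 (P F w) ≠ 0 := fun h => P_ne_zero w (hwv_unique (P_hwv w) (P_isW w) h)
  set c : F := evq q0 a / evq q0 (P F w) with hc
  have h1 : a - c • P F w = 0 := by
    apply hwv_unique (hah.sub_smul (P_hwv w) c)
      (haW.sub (by rw [smul_eq_C_mul]; exact (P_isW w).C_mul c))
    rw [map_sub, map_smul, hc, smul_eq_mul, div_mul_cancel₀ _ hP0, sub_self]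
  by_cases hc0 : c = 0
  · right
    rw [hc0, zero_smul, sub_zero] at h1
    rw [h1, sub_zero] at hap
    exact hap
  · left
    have h2 : P F w = c⁻¹ • a := by
      rw [sub_eq_zero.mp h1, smul_smul, inv_mul_cancel₀ hc0, one_smul]
    rw [h2]
    exact Submodule.smul_mem _ _ haI

theorem P_mem_of_B_ne [CharZero F] {I : Submodule F (CC F)} (hI : Stable I) {w : List Bool}
    {h : CC F} (hh : h ∈ I) (hB : B F Var h (P F w) ≠ 0) : P F w ∈ I := by
  rcases dichotomy hI w with h1 | h1
  · exact h1
  · exact absurd (h1 h hh) hB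

theorem mem_of_wc {I : Submodule F (CC F)} {f : CC F} (h : ∀ α, wc α f ∈ I) : f ∈ I := by
  classical
  have h1 : f = ∑ α ∈ f.support.image (Finsupp.weight wt), wc α f := by
    ext d
    rw [coeff_sum]
    by_cases hd : d ∈ f.support
    · rw [Finset.sum_eq_single (Finsupp.weight wt d)]
      · have := coeff_weightedHomogeneousComponent (w := wt) (Finsupp.weight wt d) f d
        rw [if_pos rfl] at this
        exact this.symm
      · intro β _ hβ
        have := coeff_weightedHomogeneousComponent (w := wt) β f d
        rw [if_neg (Ne.symm hβ)] at this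
        exact this
      · intro hn
        exact absurd (Finset.mem_image_of_mem _ hd) hn
    · have hd0 : coeff d f = 0 := by simpa using hd
      rw [hd0]
      symm
      apply Finset.sum_eq_zero
      intro β _
      have := coeff_weightedHomogeneousComponent (w := wt) β f d
      rw [hd0, ite_self] at this
      exact this
  rw [h1]
  exact Submodule.sum_mem _ (fun α _ => h α)

theorem exists_P_of_not_le [CharZero F] {I I' : Submodule F (CC F)} (hI : Stable I)
    (hI' : Stable I') (h : ¬ I ≤ I') : ∃ w, P F w ∈ I ∧ P F w ∉ I' := by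
  have hJ : Stable (I ⊓ I') := inf_stable hI hI'
  have hne : I ⊓ perp (I ⊓ I') ≠ ⊥ := by
    obtain ⟨f, hf, hf'⟩ := SetLike.not_le_iff_exists.mp h
    obtain ⟨α, hα⟩ : ∃ α, wc α f ∉ I' := by
      by_contra hcon
      push Not at hcon
      exact hf' (mem_of_wc hcon)
    have hfα := hI.wc_mem hf α
    obtain ⟨a, ha, -, hb⟩ := decomp hJ (f := wc α f)
      (weightedHomogeneousComponent_isWeightedHomogeneous α f)
    intro hbot
    have h1 : wc α f - a ∈ I ⊓ perp (I ⊓ I') := ⟨Submodule.sub_mem _ hfα ha.1, hb⟩
    rw [hbot] at h1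
    have h2 : wc α f = a := sub_eq_zero.mp h1
    exact hα (h2 ▸ ha.2)
  obtain ⟨w, hw1, hw2⟩ := exists_P_mem (inf_stable hI (perp_stable hJ)) hne
  refine ⟨w, hw1, fun hw3 => ?_⟩
  exact B_rat_ne_zero (P_rat w) (P_ne_zero w) (hw2 _ ⟨hw1, hw3⟩)

end

end Pool.Agent.MP_1670b2_al
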