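import Pool.Agent.Work.MP_1670b2_al.Ring

/-!
The Fischer form on the polynomial ring and adjointness relations.
-/

open MvPolynomial

namespace Pool.Agent.MP_1670b2_al

universe u

section Fischer

variable {F : Type u} [Field F] {σ : Type}

/-- `d!` -/
def fac (d : σ →₀ ℕ) : ℕ := d.prod (fun _ k => k.factorial)

theorem fac_pos (d : σ →₀ ℕ) : 0 < fac d := by
  unfold fac Finsupp.prod
  exact Finset.prod_pos (fun i _ => Nat.factorial_pos _)

theorem fac_add_single (d : σ →₀ ℕ) (i : σ) :
    fac (d + Finsupp.single i 1) = (d i + 1) * fac d := by
  classical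
  unfold fac
  rw [Finsupp.prod_of_support_subset (d + Finsupp.single i 1) (s := insert i d.support) (by
      intro j hj
      rw [Finsupp.mem_support_iff, Finsupp.add_apply] at hj
      rw [Finset.mem_insert, Finsupp.mem_support_iff]
      by_cases h : j = i
      · exact Or.inl h
      · right
        rw [Finsupp.single_eq_of_ne h] at hj
        simpa using hj) _ (fun _ _ => rfl),
    Finsupp.prod_of_support_subset d (s := insert i d.support) (Finset.subset_insert _ _) _
      (fun _ _ => rfl)]
  rw [← Finset.mul_prod_erase _ _ (Finset.mem_insert_self i d.support),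
    ← Finset.mul_prod_erase (insert i d.support) (fun x => (d x).factorial)
      (Finset.mem_insert_self i d.support)]
  have h1 : (d + Finsupp.single i 1 : σ →₀ ℕ) i = d i + 1 := by simp
  rw [h1, Nat.factorial_succ, ← mul_assoc]
  congr 1
  apply Finset.prod_congr rfl
  intro j hj
  have hji : j ≠ i := Finset.ne_of_mem_erase hj
  rw [Finsupp.add_apply, Finsupp.single_eq_of_ne hji, add_zero]

variable (F σ) in
/-- The Fischer form `B(f, h) = ∑_d f_d h_d d!`. -/
noncomputable def B : MvPolynomial σ F →ₗ[F] MvPolynomial σ F →ₗ[F] F :=
  (basisMonomials σ F).constr F (fun d => (fac d : F) • lcoeff F d)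

theorem B_monomial (d : σ →₀ ℕ) (h : MvPolynomial σ F) :
    B F σ (monomial d 1) h = (fac d : F) * coeff d h := by
  have : (monomial d 1 : MvPolynomial σ F) = basisMonomials σ F d := by simp
  rw [this, B, Module.Basis.constr_basis]
  simp

theorem B_eq_sum (f h : MvPolynomial σ F) :
    B F σ f h = ∑ d ∈ f.support, coeff d f * ((fac d : F) * coeff d h) := by
  conv_lhs => rw [f.as_sum]
  rw [map_sum, LinearMap.sum_apply]
  apply Finset.sum_congr rfl
  intro d _
  have : (monomial d (coeff d f) : MvPolynomial σ F) = coeff d f • monomial d 1 := by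
    rw [smul_monomial]; simp
  rw [this, map_smul, LinearMap.smul_apply, B_monomial, smul_eq_mul]

theorem B_mono_mono [DecidableEq σ] (d e : σ →₀ ℕ) :
    B F σ (monomial d 1) (monomial e 1) = if d = e then (fac d : F) else 0 := by
  rw [B_monomial, coeff_monomial]
  by_cases h : d = e
  · subst h; simp
  · rw [if_neg h, if_neg (Ne.symm h), mul_zero]

theorem B_symm (f h : MvPolynomial σ F) : B F σ f h = B F σ h f := by
  classical
  have : B F σ = (B F σ).flip := by
    apply (basisMonomials σ F).ext
    intro d
    apply (basisMonomials σ F).ext
    intro e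
    rw [LinearMap.flip_apply]
    simp only [coe_basisMonomials]
    rw [B_mono_mono, B_mono_mono]
    by_cases h : d = e
    · subst h; simp
    · rw [if_neg h, if_neg (Ne.symm h)]
  conv_lhs => rw [this]
  rfl

theorem B_X_mul (i : σ) (f h : MvPolynomial σ F) :
    B F σ (f * X i) h = B F σ f (pderiv i h) := by
  classical
  have : (B F σ).comp (LinearMap.mulRight F (X i)) =
      (B F σ).compl₂ (pderiv i : Derivation F _ _).toLinearMap := by
    apply (basisMonomials σ F).ext
    intro d
    apply (basisMonomials σ F).ext
    intro e
    rw [LinearMap.comp_apply, LinearMap.compl₂_apply]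
    simp only [coe_basisMonomials, LinearMap.mulRight_apply, Derivation.coeFn_coe]
    have h1 : (monomial d 1 : MvPolynomial σ F) * X i = monomial (d + Finsupp.single i 1) 1 := by
      rw [X, monomial_mul]; simp
    rw [h1, B_mono_mono, pderiv_monomial, B_monomial, coeff_monomial]
    by_cases hde : d + Finsupp.single i 1 = e
    · subst hde
      rw [if_pos rfl, fac_add_single]
      simp only [Finsupp.add_apply, Finsupp.single_eq_same, add_tsub_cancel_right, if_true,
        one_mul]
      push_cast
      ring
    · rw [if_neg hde]
      by_cases hde2 : e - Finsupp.single i 1 = d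
      · rw [if_pos hde2]
        have : e i = 0 := by
          by_contra hne
          apply hde
          rw [← hde2]
          ext j
          by_cases hj : j = i
          · subst hj
            simp only [Finsupp.add_apply, Finsupp.tsub_apply, Finsupp.single_eq_same]
            omega
          · simp [Finsupp.single_eq_of_ne hj]
        rw [this]; simp
      · rw [if_neg hde2, mul_zero]
  have h2 := congrArg (fun T => T f h) this
  simpa using h2

theorem B_C_mul (a : F) (f h : MvPolynomial σ F) : B F σ (C a * f) h = a * B F σ f h := by
  rw [← smul_eq_C_mul, map_smul, LinearMap.smul_apply, smul_eq_mul]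

theorem B_one (h : MvPolynomial σ F) : B F σ 1 h = constantCoeff h := by
  have : (1 : MvPolynomial σ F) = monomial 0 1 := rfl
  rw [this, B_monomial]
  simp [fac, constantCoeff_eq]

theorem pdX [DecidableEq σ] (i j : σ) :
    pderiv i (X j : MvPolynomial σ F) = if j = i then 1 else 0 := by
  rw [pderiv_X]
  by_cases h : j = i
  · subst h; simp
  · rw [if_neg h, Pi.single_eq_of_ne h]

theorem B_X_X [DecidableEq σ] (i j : σ) :
    B F σ (X i) (X j) = if i = j then 1 else 0 := by
  have h := B_X_mul i (1 : MvPolynomial σ F) (X j)
  rw [one_mul] at h
  rw [h, B_one, pdX]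
  by_cases hij : i = j
  · subst hij; simp
  · rw [if_neg hij, if_neg (Ne.symm hij)]
    simp

/-- The space of linear forms. -/
noncomputable def Lin : Submodule F (MvPolynomial σ F) := Submodule.span F (Set.range X)

theorem lin_expand {f : MvPolynomial σ F} (hf : f ∈ (Lin : Submodule F (MvPolynomial σ F))) :
    ∃ c : σ →₀ F, f = c.sum (fun i a => a • (X i : MvPolynomial σ F)) ∧
      ∀ i, B F σ f (X i) = c i := by
  classical
  unfold Lin at hf
  rw [Finsupp.mem_span_range_iff_exists_finsupp] at hf
  obtain ⟨c, rfl⟩ := hf
  refine ⟨c, rfl, fun i => ?_⟩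
  rw [Finsupp.sum, map_sum, LinearMap.sum_apply]
  simp only [map_smul, LinearMap.smul_apply, smul_eq_mul, B_X_X, mul_ite, mul_one, mul_zero]
  rw [Finset.sum_ite_eq' c.support i c]
  by_cases h : i ∈ c.support
  · simp [h]
  · rw [if_neg h]; exact (Finsupp.notMem_support_iff.mp h).symm

theorem lin_const {f : MvPolynomial σ F} (hf : f ∈ (Lin : Submodule F (MvPolynomial σ F))) :
    constantCoeff f = 0 := by
  obtain ⟨c, rfl, -⟩ := lin_expand hf
  rw [Finsupp.sum, map_sum]
  apply Finset.sum_eq_zero
  intro i _
  rw [smul_eq_C_mul, map_mul]; simp

/-- Adjointness for substitution homomorphisms by linear forms. -/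
theorem B_hom_adj (φ ψ : MvPolynomial σ F →ₐ[F] MvPolynomial σ F)
    (h1 : ∀ i, φ (X i) ∈ (Lin : Submodule F (MvPolynomial σ F)))
    (h2 : ∀ i, ψ (X i) ∈ (Lin : Submodule F (MvPolynomial σ F)))
    (hM : ∀ i j, B F σ (φ (X i)) (X j) = B F σ (X i) (ψ (X j))) (f h : MvPolynomial σ F) :
    B F σ (φ f) h = B F σ f (ψ h) := by
  classical
  -- the chain rule
  have chain : ∀ (i : σ) (c : σ →₀ F), φ (X i) = c.sum (fun j a => a • (X j : MvPolynomial σ F)) →
      (∀ j, B F σ (φ (X i)) (X j) = c j) → ∀ h : MvPolynomial σ F,
      pderiv i (ψ h) = c.sum (fun j a => a • ψ (pderiv j h)) := by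
    intro i c hc hc' h
    induction h using MvPolynomial.induction_on with
    | C a =>
      have h1 : ψ (C a) = C a := ψ.commutes a
      rw [h1, pderiv_C]
      simp [Finsupp.sum]
    | add p q hp hq =>
      simp only [map_add, hp, hq]
      rw [← Finsupp.sum_add]
      simp [smul_add]
    | mul_X p k hp =>
      have hk : pderiv i (ψ (X k)) = C (c k) := by
        obtain ⟨c', hc1, hc2⟩ := lin_expand (h2 k)
        have : c' i = c k := by
          rw [← hc2, ← hc', hM, B_symm]
        rw [hc1, Finsupp.sum, map_sum]
        simp only [Derivation.map_smul, pdX]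
        rw [← this]
        by_cases hi : i ∈ c'.support
        · rw [Finset.sum_eq_single i]
          · simp [smul_eq_C_mul]
          · intro j _ hji
            rw [if_neg hji]; simp
          · intro h; exact absurd hi h
        · rw [Finset.sum_eq_zero]
          · rw [Finsupp.notMem_support_iff.mp hi]; simp
          · intro j hj
            have hji : j ≠ i := fun h => hi (h ▸ hj)
            rw [if_neg hji]; simp
      rw [map_mul, Derivation.leibniz, hp, hk]
      simp only [Derivation.leibniz, smul_eq_mul, map_add, map_mul, smul_add, pdX,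
        Finsupp.sum]
      rw [Finset.sum_add_distrib]
      congr 1
      · have : ∀ j ∈ c.support, c j • (ψ p * ψ (if k = j then 1 else 0)) =
            if j = k then ψ p * C (c k) else 0 := by
          intro j _
          by_cases hjk : j = k
          · subst hjk; simp [smul_eq_C_mul, mul_comm]
          · rw [if_neg hjk, if_neg (Ne.symm hjk)]; simp
        rw [Finset.sum_congr rfl this, Finset.sum_ite_eq' c.support k]
        by_cases hk' : k ∈ c.support
        · simp [hk']
        · rw [if_neg hk', Finsupp.notMem_support_iff.mp hk']; simp
      · rw [Finset.mul_sum]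
        apply Finset.sum_congr rfl
        intro j _
        rw [mul_smul_comm]
  have hconst : ∀ h, constantCoeff (ψ h) = constantCoeff h := by
    intro h
    have : (constantCoeff : MvPolynomial σ F →+* F).comp (ψ : MvPolynomial σ F →+* _) =
        constantCoeff := by
      apply MvPolynomial.ringHom_ext
      · intro a
        have h1 : ψ (C a) = C a := ψ.commutes a
        simp [h1]
      · intro i
        simp [lin_const (h2 i)]
    exact congrArg (fun T : MvPolynomial σ F →+* F => T h) this
  induction f using MvPolynomial.induction_on generalizing h with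
  | C a =>
    have h1 : φ (C a) = C a := φ.commutes a
    rw [h1]
    have h3 : (C a : MvPolynomial σ F) = C a * 1 := by simp
    rw [h3, B_C_mul, B_C_mul, B_one, B_one, hconst]
  | add p q hp hq => simp only [map_add, LinearMap.add_apply, hp, hq]
  | mul_X p i hp =>
    obtain ⟨c, hc1, hc2⟩ := lin_expand (h1 i)
    rw [B_X_mul, chain i c hc1 hc2, map_mul]
    conv_lhs => rw [hc1]
    simp only [Finsupp.sum, Finset.mul_sum, map_sum, LinearMap.sum_apply, mul_smul_comm,
      map_smul, LinearMap.smul_apply]
    apply Finset.sum_congr rfl
    intro j _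
    rw [B_X_mul, hp]

/-- Adjointness for derivations mapping variables to linear forms. -/
theorem B_der_adj (Y D : Derivation F (MvPolynomial σ F) (MvPolynomial σ F))
    (h1 : ∀ i, Y (X i) ∈ (Lin : Submodule F (MvPolynomial σ F)))
    (h2 : ∀ i, D (X i) ∈ (Lin : Submodule F (MvPolynomial σ F)))
    (hM : ∀ i j, B F σ (Y (X i)) (X j) = B F σ (X i) (D (X j))) (f h : MvPolynomial σ F) :
    B F σ (Y f) h = B F σ f (D h) := by
  classical
  have chain : ∀ (i : σ) (c : σ →₀ F), Y (X i) = c.sum (fun j a => a • (X j : MvPolynomial σ F)) →
      (∀ j, B F σ (Y (X i)) (X j) = c j) → ∀ h : MvPolynomial σ F,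
      pderiv i (D h) = D (pderiv i h) + c.sum (fun j a => a • (pderiv j h)) := by
    intro i c hc hc' h
    induction h using MvPolynomial.induction_on with
    | C a =>
      simp [Finsupp.sum]
    | add p q hp hq =>
      simp only [map_add, hp, hq, smul_add]
      rw [Finsupp.sum_add]
      ring
    | mul_X p k hp =>
      have hk : pderiv i (D (X k)) = C (c k) := by
        obtain ⟨c', hc1, hc2⟩ := lin_expand (h2 k)
        have : c' i = c k := by
          rw [← hc2, ← hc', hM, B_symm]
        rw [hc1, Finsupp.sum, map_sum]
        simp only [Derivation.map_smul, pdX]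
        rw [← this]
        by_cases hi : i ∈ c'.support
        · rw [Finset.sum_eq_single i]
          · simp [smul_eq_C_mul]
          · intro j _ hji
            rw [if_neg hji]; simp
          · intro h; exact absurd hi h
        · rw [Finset.sum_eq_zero]
          · rw [Finsupp.notMem_support_iff.mp hi]; simp
          · intro j hj
            have hji : j ≠ i := fun h => hi (h ▸ hj)
            rw [if_neg hji]; simp
      have hs : c.sum (fun j a => a • (pderiv j (p * X k))) =
          p * C (c k) + X k * c.sum (fun j a => a • (pderiv j p)) := by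
        simp only [Derivation.leibniz, smul_eq_mul, smul_add, pdX,
          Finsupp.sum]
        rw [Finset.sum_add_distrib]
        congr 1
        · have : ∀ j ∈ c.support, c j • (p * (if k = j then (1 : MvPolynomial σ F) else 0)) =
              if j = k then p * C (c k) else 0 := by
            intro j _
            by_cases hjk : j = k
            · subst hjk; simp [smul_eq_C_mul, mul_comm]
            · rw [if_neg hjk, if_neg (Ne.symm hjk)]; simp
          rw [Finset.sum_congr rfl this, Finset.sum_ite_eq' c.support k]
          by_cases hk' : k ∈ c.support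
          · simp [hk']
          · rw [if_neg hk', Finsupp.notMem_support_iff.mp hk']; simp
        · rw [Finset.mul_sum]
          apply Finset.sum_congr rfl
          intro j _
          rw [mul_smul_comm]
      rw [hs]
      simp only [Derivation.leibniz, smul_eq_mul, map_add, hp, hk, pdX]
      by_cases hik : k = i
      · subst hik
        simp only [if_true, mul_one, Derivation.map_one_eq_zero, mul_zero]
        ring
      · rw [if_neg hik]
        simp only [mul_zero, map_zero, zero_add]
        ring
  induction f using MvPolynomial.induction_on generalizing h with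
  | C a =>
    rw [derivation_C, map_zero, LinearMap.zero_apply]
    have h3 : (C a : MvPolynomial σ F) = C a * 1 := by simp
    rw [h3, B_C_mul, B_one]
    have : constantCoeff (D h) = 0 := by
      induction h using MvPolynomial.induction_on with
      | C a => rw [derivation_C]; simp
      | add p q hp hq => rw [map_add, map_add, hp, hq, add_zero]
      | mul_X p k hp =>
        rw [Derivation.leibniz, map_add, smul_eq_mul, smul_eq_mul, map_mul, map_mul,
          lin_const (h2 k), hp]
        simp
    rw [this, mul_zero]
  | add p q hp hq => simp only [map_add, LinearMap.add_apply, hp, hq]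
  | mul_X p i hp =>
    obtain ⟨c, hc1, hc2⟩ := lin_expand (h1 i)
    rw [Derivation.leibniz, map_add, LinearMap.add_apply, B_X_mul, chain i c hc1 hc2, map_add]
    conv_lhs => rw [hc1]
    simp only [Finsupp.sum, smul_eq_mul, Finset.mul_sum, map_sum, LinearMap.sum_apply,
      mul_smul_comm, map_smul, LinearMap.smul_apply]
    rw [add_comm]
    congr 1
    · rw [mul_comm, B_X_mul, hp]
    · apply Finset.sum_congr rfl
      intro j _
      rw [B_X_mul]

end Fischer

end Pool.Agent.MP_1670b2_al
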