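import Pool.Agent.Work.MP_1670b2_al.Dich

/-!
Insertion of letters, Higman's lemma, and the finiteness theorem for stable subspaces closed
under the operators `L`.
-/

open MvPolynomial

namespace Pool.Agent.MP_1670b2_al

universe u

section

variable {F : Type u} [Field F]

/-- stable subspaces closed under the operators `L` -/
structure LStable (K : Submodule F (CC F)) : Prop where
  stable : Stable K
  L_mem : ∀ v : ℕ →₀ F, v 0 = 0 → ∀ f ∈ K, L v f ∈ K

/-- `∑ L_v K` -/
noncomputable def K2 (K : Submodule F (CC F)) : Submodule F (CC F) :=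
  Submodule.span F {h | ∃ v : ℕ →₀ F, v 0 = 0 ∧ ∃ f ∈ K, h = L v f}

theorem K2_le {K : Submodule F (CC F)} (hK : LStable K) : K2 K ≤ K := by
  unfold K2
  rw [Submodule.span_le]
  rintro _ ⟨v, hv, f, hf, rfl⟩
  exact hK.L_mem v hv f hf

theorem K2_mono {K K' : Submodule F (CC F)} (h : K ≤ K') : K2 K ≤ K2 K' := by
  unfold K2
  apply Submodule.span_mono
  rintro _ ⟨v, hv, f, hf, rfl⟩
  exact ⟨v, hv, f, h hf, rfl⟩

theorem L_mem_K2 {K : Submodule F (CC F)} {v : ℕ →₀ F} (hv : v 0 = 0) {f : CC F} (hf : f ∈ K) :
    L v f ∈ K2 K := Submodule.subset_span ⟨v, hv, f, hf, rfl⟩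

theorem K2_stable {K : Submodule F (CC F)} (hK : Stable K) : Stable (K2 K) := by
  intro g g' hg h f hf
  unfold K2 at hf
  induction hf using Submodule.span_induction with
  | mem x hx =>
    obtain ⟨v, hv, f, hf, rfl⟩ := hx
    rw [phi_L hg]
    exact L_mem_K2 (by rw [hg.c0, hv]) (hK g g' hg h f hf)
  | zero => rw [map_zero]; exact Submodule.zero_mem _
  | add x y _ _ hx hy => rw [map_add]; exact Submodule.add_mem _ hx hy
  | smul c x _ hx => rw [map_smul]; exact Submodule.smul_mem _ _ hx

theorem yy_mem [CharZero F] {K : Submodule F (CC F)} (hK : LStable K) (u v : ℕ →₀ F) {f : CC F}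
    (hf : f ∈ K) : yy u v * f ∈ K2 K := by
  have h1 := L_comm (pr u) (pr v) (pr_zero u) (pr_zero v) f
  have h2 : yy u v * f = (2 : F)⁻¹ • (L (pr u) (L (pr v) f) - L (pr v) (L (pr u) f)) := by
    rw [h1, yy_apply]
    have : (2 : CC F) = algebraMap F (CC F) 2 := (map_ofNat (algebraMap F (CC F)) 2).symm
    rw [this, mul_assoc, ← Algebra.smul_def, smul_smul, inv_mul_cancel₀ two_ne_zero, one_smul]
  rw [h2]
  apply Submodule.smul_mem
  exact Submodule.sub_mem _ (L_mem_K2 (pr_zero u) (hK.L_mem _ (pr_zero v) f hf))
    (L_mem_K2 (pr_zero v) (hK.L_mem _ (pr_zero u) f hf))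

theorem p_even_mem [CharZero F] {K : Submodule F (CC F)} (hK : LStable K) (n : ℕ) :
    Even n → ∀ (v : Fin n → (ℕ →₀ F)) (f : CC F), f ∈ K → p F n v * f ∈ K := by
  induction n using Nat.twoStepInduction with
  | zero => intro _ v f hf; rw [p_zero, one_mul]; exact hf
  | one => intro h; simp at h
  | more n ih _ =>
    intro h v f hf
    have hn : Even n := by rwa [Nat.even_add, iff_true_right even_two] at h
    rw [p_add_two, A2_apply, Finset.sum_mul]
    apply Submodule.sum_mem
    intro i _
    rw [smul_mul_assoc, Finset.sum_mul]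
    apply zsmul_mem
    apply Submodule.sum_mem
    intro j _
    rw [smul_mul_assoc, mul_assoc]
    apply zsmul_mem
    exact K2_le hK (yy_mem hK _ _ (ih hn _ _ hf))

theorem p_even_mem2 [CharZero F] {K : Submodule F (CC F)} (hK : LStable K) {n : ℕ}
    (hn : Even n) (v : Fin (n + 2) → (ℕ →₀ F)) {f : CC F} (hf : f ∈ K) :
    p F (n + 2) v * f ∈ K2 K := by
  rw [p_add_two, A2_apply, Finset.sum_mul]
  apply Submodule.sum_mem
  intro i _
  rw [smul_mul_assoc, Finset.sum_mul]
  apply zsmul_mem
  apply Submodule.sum_mem
  intro j _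
  rw [smul_mul_assoc, mul_assoc]
  apply zsmul_mem
  exact yy_mem hK _ _ (p_even_mem hK n hn _ _ hf)

theorem der_isWH {M : Type*} [AddCommGroup M] (ω : Var → M)
    (δ : Derivation F (CC F) (CC F)) (c : M)
    (h : ∀ q, IsWeightedHomogeneous ω (δ (X q)) (ω q + c)) {f : CC F} {n : M}
    (hf : IsWeightedHomogeneous ω f n) : IsWeightedHomogeneous ω (δ f) (n + c) := by
  have key : ∀ d : Var →₀ ℕ,
      IsWeightedHomogeneous ω (δ (monomial d 1)) (Finsupp.weight ω d + c) := by
    have hadd : ∀ d e : Var →₀ ℕ,
        IsWeightedHomogeneous ω (δ (monomial d 1)) (Finsupp.weight ω d + c) →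
        IsWeightedHomogeneous ω (δ (monomial e 1)) (Finsupp.weight ω e + c) →
        IsWeightedHomogeneous ω (δ (monomial (d + e) 1)) (Finsupp.weight ω (d + e) + c) := by
      intro d e hd he
      have h1 : (monomial (d + e) 1 : CC F) = monomial d 1 * monomial e 1 := by
        rw [monomial_mul, one_mul]
      rw [h1, Derivation.leibniz, smul_eq_mul, smul_eq_mul]
      apply IsWeightedHomogeneous.add
      · have := (isWeightedHomogeneous_monomial ω d (1 : F) rfl).mul he
        rwa [← add_assoc, ← map_add] at this
      · have := (isWeightedHomogeneous_monomial ω e (1 : F) rfl).mul hd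
        rwa [← add_assoc, ← map_add, add_comm e d] at this
    intro d
    induction d using Finsupp.induction_linear with
    | zero =>
      have : (monomial 0 1 : CC F) = 1 := rfl
      rw [this, Derivation.map_one_eq_zero]
      exact isWeightedHomogeneous_zero _ _ _
    | add d e hd he => exact hadd d e hd he
    | single q n =>
      induction n with
      | zero =>
        rw [Finsupp.single_zero]
        have : (monomial 0 1 : CC F) = 1 := rfl
        rw [this, Derivation.map_one_eq_zero]
        exact isWeightedHomogeneous_zero _ _ _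
      | succ n ih =>
        rw [Finsupp.single_add]
        apply hadd _ _ ih
        have h1 : (monomial (Finsupp.single q 1) 1 : CC F) = X q := rfl
        have h2 : Finsupp.weight ω (Finsupp.single q 1) = ω q := by
          simp [Finsupp.weight_apply]
        rw [h1, h2]
        exact h q
  rw [f.as_sum, map_sum]
  apply IsWeightedHomogeneous.sum
  intro d hd
  rw [monomial_smul, Derivation.map_smul, smul_eq_C_mul]
  apply IsWeightedHomogeneous.C_mul
  have := key d
  rwa [hf (mem_support_iff.mp hd)] at this

theorem derT0_w0 {k : ℕ} (hk : k ≠ 0) {f : CC F} {n : ℤ} (hf : IsWeightedHomogeneous w0 f n) :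
    IsWeightedHomogeneous w0 (der (T0 (ee F k)) f) (n + (-1)) := by
  apply der_isWH w0 _ _ _ hf
  intro q
  rw [← Z_var, ← zz_ee, der_zz, T0_apply, T0_apply]
  obtain ⟨⟨a, b⟩, hab⟩ := q
  simp only at hab
  have hb : b ≠ 0 := by omega
  simp only
  rw [Finsupp.single_eq_of_ne (Ne.symm hb), zero_smul, LinearMap.map_zero, add_zero]
  by_cases ha : a = 0
  · subst ha
    rw [Finsupp.single_eq_same, one_smul, zz_ee]
    have : w0 ⟨(0, b), hab⟩ + (-1) = 0 := by simp [w0]
    rw [this]
    exact w0_Z hk hb
  · rw [Finsupp.single_eq_of_ne (Ne.symm ha), zero_smul, LinearMap.map_zero,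
      LinearMap.zero_apply]
    exact isWeightedHomogeneous_zero _ _ _

theorem P_insert_true (w1 w2 : List Bool) :
    P F (w1 ++ true :: w2) = pe F (w2.count false) * P F (w1 ++ w2) := by
  induction w1 with
  | nil => rfl
  | cons b w ih =>
    cases b with
    | false => exact ih
    | true =>
      rw [List.cons_append, List.cons_append, P, P, ih]
      have : (w ++ true :: w2).count false = (w ++ w2).count false := by
        rw [List.count_append, List.count_append, List.count_cons]; simp
      rw [this]; ring

theorem insert_true [CharZero F] {K : Submodule F (CC F)} (hK : LStable K) (w1 w2 : List Bool)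
    (hc : w2.count false ≠ 0) (h : P F (w1 ++ w2) ∈ K) :
    P F (w1 ++ true :: w2) ∈ K2 K := by
  have hPP := P_insert_true (F := F) w1 w2
  obtain ⟨n, hn⟩ := Nat.exists_eq_succ_of_ne_zero hc
  rw [Nat.succ_eq_add_one] at hn
  rcases Nat.even_or_odd n with he | ho
  · -- odd column
    rw [hn] at hPP
    set w := w1 ++ w2 with hw
    set w' := w1 ++ true :: w2 with hw'
    set S := ∑ i : Fin (n + 1), (-1 : ℤ) ^ (i : ℕ) •
      L (st F (n + 1) i) (p F n (Fin.removeNth i (st F (n + 1))) * P F w) with hS
    have hst : ∀ i : Fin (n + 1), st F (n + 1) i 0 = 0 := by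
      intro i; unfold st; exact Finsupp.single_eq_of_ne (by omega)
    have hSmem : S ∈ K2 K := by
      apply Submodule.sum_mem
      intro i _
      apply zsmul_mem
      exact L_mem_K2 (hst i) (p_even_mem hK n he _ _ h)
    set S' := ∑ i : Fin (n + 1), (-1 : ℤ) ^ (i : ℕ) •
      der (T0 (st F (n + 1) i)) (p F n (Fin.removeNth i (st F (n + 1))) * P F w) with hS'
    have hSS : S = P F w' + S' := by
      rw [hPP, hS, hS', pe, ← (A_xx_p (F := F) n).1 he, A_apply, Finset.sum_mul,
        ← Finset.sum_add_distrib]
      apply Finset.sum_congr rfl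
      intro i _
      rw [L_apply, smul_add, smul_mul_assoc, mul_assoc]
      rfl
    have hdeg' : IsWeightedHomogeneous w0 S' (xdw w + (-1)) := by
      have : S' ∈ (weightedHomogeneousSubmodule F w0 (xdw w + (-1)) : Submodule F (CC F)) := by
        apply Submodule.sum_mem
        intro i _
        apply zsmul_mem
        change IsWeightedHomogeneous w0 _ _
        unfold st
        apply derT0_w0 (by omega)
        have h1 := (p_w0 (F := F) n (Fin.removeNth i (fun j : Fin (n + 1) => (j : ℕ) + 1))).mul
          (P_w0 (F := F) w)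
        have h2 : ((n % 2 : ℕ) : ℤ) = 0 := by
          rw [Nat.even_iff.mp he]; rfl
        rw [h2, zero_add] at h1
        exact h1
      exact this
    have hdeg : IsWeightedHomogeneous w0 (P F w') (xdw w + 1) := by
      have h0 : xdw w + 1 = 1 + xdw w := add_comm _ _
      rw [hPP, h0]
      have h1 := (p_w0 (F := F) (n + 1) (fun j : Fin (n + 1) => (j : ℕ) + 1)).mul
        (P_w0 (F := F) w)
      have h2 : (((n + 1) % 2 : ℕ) : ℤ) = 1 := by
        rw [Nat.odd_iff.mp (Even.add_one he)]; rfl
      rw [h2] at h1
      exact h1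
    apply P_mem_of_B_ne (K2_stable hK.stable) hSmem
    rw [hSS, map_add, LinearMap.add_apply, B_ortho w0 hdeg' hdeg (by omega), add_zero]
    exact B_rat_ne_zero (P_rat _) (P_ne_zero _)
  · -- even column
    obtain ⟨m, hm⟩ := ho
    have h3 : w2.count false = 2 * m + 2 := by omega
    rw [hPP, h3]
    exact p_even_mem2 hK (even_two_mul m) _ h

theorem phi_sh_P {K : ℕ} (w : List Bool) (h : w.count false < K) :
    phi (sh K) (P F w) = P F w := by
  induction w with
  | nil => exact map_one _
  | cons b w ih =>
    cases b with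
    | false =>
      rw [P]
      apply ih
      rw [List.count_cons] at h
      simp only [beq_self_eq_true, if_true] at h
      omega
    | true =>
      have h1 : w.count false < K := by
        rw [List.count_cons] at h
        simpa using h
      rw [P, map_mul, ih h1, phi_sh_pe h1]

theorem D_iter_mul (δ : Derivation F (CC F) (CC F)) (a b : CC F) (ha : δ (δ a) = 0) (n : ℕ) :
    δ^[n + 1] (a * b) = a * δ^[n + 1] b + ((n + 1 : ℕ) : CC F) * (δ a * δ^[n] b) := by
  induction n with
  | zero =>
    simp only [zero_add, Function.iterate_one, Function.iterate_zero, id, Derivation.leibniz,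
      smul_eq_mul, Nat.cast_one, one_mul]
    ring
  | succ n ih =>
    rw [Function.iterate_succ_apply', ih, map_add, Derivation.leibniz, Derivation.leibniz,
      Derivation.leibniz, ha, Derivation.map_natCast]
    simp only [smul_eq_mul, mul_zero, add_zero, ← Function.iterate_succ_apply' δ]
    push_cast
    ring

theorem insert_false_aux [CharZero F] (w1 w2 : List Bool) :
    ∃ κ : F, κ ≠ 0 ∧ (D (w2.count false + 1))^[w1.count true] (P F (w1 ++ false :: w2)) =
      κ • phi (sh (w2.count false + 1)) (P F (w1 ++ w2)) := by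
  set K := w2.count false + 1 with hK
  induction w1 with
  | nil =>
    refine ⟨1, one_ne_zero, ?_⟩
    rw [one_smul, List.nil_append, List.nil_append, phi_sh_P w2 (by omega)]
    rfl
  | cons b w ih =>
    obtain ⟨κ, hκ, h⟩ := ih
    cases b with
    | false =>
      refine ⟨κ, hκ, ?_⟩
      have : (false :: w).count true = w.count true := by rw [List.count_cons]; simp
      rw [this]
      exact h
    | true =>
      have hct : (true :: w).count true = w.count true + 1 := by rw [List.count_cons]; simp
      set j := (w ++ w2).count false with hj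
      have hcj : (w ++ false :: w2).count false = j + 1 := by
        rw [hj, List.count_append, List.count_append, List.count_cons]
        simp only [beq_self_eq_true, if_true]
        omega
      have hKj : K ≤ j + 1 := by
        rw [hj, List.count_append]; omega
      obtain ⟨c, hc, hD⟩ := D_pe (F := F) (k := K) (n := j) (by omega) hKj
      refine ⟨((w.count true + 1 : ℕ) : F) * c * κ, ?_, ?_⟩
      · exact mul_ne_zero (mul_ne_zero (Nat.cast_ne_zero.mpr (Nat.succ_ne_zero _)) hc) hκ
      · rw [hct, List.cons_append, List.cons_append, P, P, hcj,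
          D_iter_mul (D K) (pe F (j + 1)) _ (by rw [hD, Derivation.map_smul, D_phi_sh, smul_zero])
            (w.count true),
          Function.iterate_succ_apply', h, Derivation.map_smul, D_phi_sh, smul_zero, mul_zero,
          zero_add, hD, map_mul]
        simp only [Algebra.smul_def, map_mul, map_natCast]
        ring

theorem phi_sh_injective {k : ℕ} {f : CC F} (h : phi (sh k) f = 0) : f = 0 := by
  have h1 : phi (sh' k) (phi (sh k) f) = f := by
    rw [← AlgHom.comp_apply, phi_comp]
    have : (sh' k : (ℕ →₀ F) →ₗ[F] (ℕ →₀ F)).comp (sh k) = LinearMap.id := by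
      apply Finsupp.lhom_ext'
      intro j
      apply LinearMap.ext_ring
      change sh' k (sh k (ee F j)) = ee F j
      rw [sh_ee]
      ext i
      rw [sh'_coord]
      by_cases hij : i = j
      · subst hij; simp
      · rw [Finsupp.single_eq_of_ne hij, Finsupp.single_eq_of_ne]
        exact fun h => hij (sidx_inj k h)
    rw [this, phi_id]; rfl
  rw [← h1, h, map_zero]

theorem phi_sh_P_rat [CharZero F] {k : ℕ} (hk : k ≠ 0) (w : List Bool) :
    phi (sh k) (P F w) ∈ RatS F := by
  induction w with
  | nil => rw [P, map_one]; exact Subring.one_mem _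
  | cons b w ih =>
    cases b with
    | false => exact ih
    | true =>
      rw [P, map_mul]
      apply Subring.mul_mem _ _ ih
      rw [phi_pe (sh_good hk)]
      have : (fun i => sh k (st F (w.count false) i)) =
          fun i : Fin (w.count false) => ee F (sidx k ((i : ℕ) + 1)) := by
        funext i
        unfold st
        rw [sh_ee]
      rw [this]
      exact p_rat _ _

theorem insert_false [CharZero F] {K : Submodule F (CC F)} (hK : LStable K) (w1 w2 : List Bool)
    (hc : w1.count true ≠ 0) (h : P F (w1 ++ w2) ∈ K) :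
    P F (w1 ++ false :: w2) ∈ K2 K := by
  obtain ⟨κ, hκ, hD⟩ := insert_false_aux (F := F) w1 w2
  set k := w2.count false + 1 with hk
  have hk0 : 0 < k := by omega
  set x := phi (sh k) (P F (w1 ++ w2)) with hx
  have hxK : x ∈ K := hK.stable _ _ (sh_good (by omega)) (sh_adj k) _ h
  have he : (ee F k) 0 = 0 := Finsupp.single_eq_of_ne (by omega)
  have hiter : ∀ n, (L (ee F k))^[n] x ∈ K := by
    intro n
    induction n with
    | zero => exact hxK
    | succ n ih => rw [Function.iterate_succ_apply']; exact hK.L_mem _ he _ ih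
  have hB : ∀ n (y : CC F), B F Var ((L (ee F k))^[n] x) y = B F Var x ((D k)^[n] y) := by
    intro n
    induction n with
    | zero => intro y; rfl
    | succ n ih =>
      intro y
      rw [Function.iterate_succ_apply', B_L k hk0, ih, ← Function.iterate_succ_apply]
  obtain ⟨n, hn⟩ := Nat.exists_eq_succ_of_ne_zero hc
  apply P_mem_of_B_ne (K2_stable hK.stable) (h := (L (ee F k))^[w1.count true] x)
  · rw [hn, Function.iterate_succ_apply']
    exact L_mem_K2 he (hiter n)
  · rw [hB, hD, map_smul, smul_eq_mul]
    apply mul_ne_zero hκ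
    apply B_rat_ne_zero (phi_sh_P_rat (by omega) _)
    exact fun h0 => P_ne_zero _ (phi_sh_injective h0)

theorem P_insert_false_triv (w1 w2 : List Bool) (h : w1.count true = 0) :
    P F (w1 ++ false :: w2) = P F (w1 ++ w2) := by
  induction w1 with
  | nil => rfl
  | cons b w ih =>
    cases b with
    | false =>
      rw [List.cons_append, List.cons_append, P, P]
      apply ih
      rw [List.count_cons] at h
      simpa using h
    | true =>
      rw [List.count_cons] at h
      simp at h

/-- one letter insertion -/
theorem insert_step [CharZero F] {K : Submodule F (CC F)} (hK : LStable K) (w1 w2 : List Bool)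
    (b : Bool) (h : P F (w1 ++ w2) ∈ K) :
    P F (w1 ++ b :: w2) = P F (w1 ++ w2) ∨ P F (w1 ++ b :: w2) ∈ K2 K := by
  cases b with
  | true =>
    by_cases hc : w2.count false = 0
    · left
      rw [P_insert_true, hc, pe_zero, one_mul]
    · right
      exact insert_true hK w1 w2 hc h
  | false =>
    by_cases hc : w1.count true = 0
    · left
      exact P_insert_false_triv w1 w2 hc
    · right
      exact insert_false hK w1 w2 hc h

theorem sublist_aux [CharZero F] {K : Submodule F (CC F)} (hK : LStable K) {v w : List Bool}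
    (hvw : v.Sublist w) : ∀ u : List Bool, P F (u ++ v) ∈ K →
      P F (u ++ w) = P F (u ++ v) ∨ P F (u ++ w) ∈ K2 K := by
  induction hvw with
  | slnil => intro u _; left; rfl
  | @cons v w b _ ih =>
    intro u hu
    rcases ih u hu with h1 | h1
    · rcases insert_step hK u w b (h1 ▸ hu) with h2 | h2
      · left; rw [h2, h1]
      · right; exact h2
    · rcases insert_step hK u w b (K2_le hK h1) with h2 | h2
      · right; rw [h2]; exact h1
      · right; exact h2
  | @cons_cons v w b _ ih =>
    intro u hu
    have h1 := ih (u ++ [b])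
    simp only [List.append_assoc, List.singleton_append] at h1
    exact h1 hu

theorem sublist_mem [CharZero F] {K : Submodule F (CC F)} (hK : LStable K) {v w : List Bool}
    (hvw : v.Sublist w) (hv : P F v ∈ K) : P F w = P F v ∨ P F w ∈ K2 K :=
  sublist_aux hK hvw [] hv

theorem higman (S : Set (List Bool)) :
    ∃ T : Set (List Bool), T.Finite ∧ T ⊆ S ∧ ∀ w ∈ S, ∃ v ∈ T, v.Sublist w := by
  classical
  have hw : {l : List Bool | ∀ x ∈ l, x ∈ (Set.univ : Set Bool)}.PartiallyWellOrderedOn
      (List.SublistForall₂ (· = ·)) :=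
    Set.PartiallyWellOrderedOn.partiallyWellOrderedOn_sublistForall₂ (· = ·)
      (Set.finite_univ.partiallyWellOrderedOn)
  have hsub : ∀ {l m : List Bool}, List.SublistForall₂ (· = ·) l m → l.Sublist m := by
    intro l m h
    rw [List.sublistForall₂_iff] at h
    obtain ⟨l', h1, h2⟩ := h
    rw [List.forall₂_eq_eq_eq] at h1
    exact h1 ▸ h2
  set T : Set (List Bool) := {v | v ∈ S ∧ ∀ u ∈ S, u.Sublist v → u = v} with hT
  refine ⟨T, ?_, fun v hv => hv.1, ?_⟩
  · by_contra hinf
    have hinf' : T.Infinite := hinf
    obtain ⟨m, n, hmn, h⟩ := hw.exists_lt (f := fun n => (hinf'.natEmbedding T n : List Bool))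
      (fun n => fun x _ => Set.mem_univ x)
    have h1 := hsub h
    have h2 := (hinf'.natEmbedding T n).2.2 _ (hinf'.natEmbedding T m).2.1 h1
    have h3 := (hinf'.natEmbedding T).injective (Subtype.ext h2)
    omega
  · intro w hwS
    induction hlen : w.length using Nat.strong_induction_on generalizing w with
    | _ n ih =>
      by_cases hmin : ∀ u ∈ S, u.Sublist w → u = w
      · exact ⟨w, ⟨hwS, hmin⟩, List.Sublist.refl _⟩
      · push Not at hmin
        obtain ⟨u, huS, huw, hne⟩ := hmin
        have hlt : u.length < w.length := by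
          rcases lt_or_eq_of_le huw.length_le with h | h
          · exact h
          · exact absurd (huw.eq_of_length h) hne
        obtain ⟨v, hv, hvu⟩ := ih u.length (hlen ▸ hlt) u huS rfl
        exact ⟨v, hv, hvu.trans huw⟩

/-! ### degrees -/

/-- the degree weight -/
def wd (q : Var) : ℕ := if q.1.1 = 0 then 1 else 2

theorem hom_isWH {M : Type*} [AddCommMonoid M] (ω : Var → M) (φ : CC F →ₐ[F] CC F)
    (h : ∀ q, IsWeightedHomogeneous ω (φ (X q)) (ω q)) {f : CC F} {n : M}
    (hf : IsWeightedHomogeneous ω f n) : IsWeightedHomogeneous ω (φ f) n := by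
  have key : ∀ d : Var →₀ ℕ,
      IsWeightedHomogeneous ω (φ (monomial d 1)) (Finsupp.weight ω d) := by
    have hadd : ∀ d e : Var →₀ ℕ,
        IsWeightedHomogeneous ω (φ (monomial d 1)) (Finsupp.weight ω d) →
        IsWeightedHomogeneous ω (φ (monomial e 1)) (Finsupp.weight ω e) →
        IsWeightedHomogeneous ω (φ (monomial (d + e) 1)) (Finsupp.weight ω (d + e)) := by
      intro d e hd he
      have h1 : (monomial (d + e) 1 : CC F) = monomial d 1 * monomial e 1 := by
        rw [monomial_mul, one_mul]
      rw [h1, map_mul, map_add]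
      exact hd.mul he
    intro d
    induction d using Finsupp.induction_linear with
    | zero =>
      have : (monomial 0 1 : CC F) = 1 := rfl
      rw [this, map_one, map_zero]
      exact isWeightedHomogeneous_one _ _
    | add d e hd he => exact hadd d e hd he
    | single q n =>
      induction n with
      | zero =>
        rw [Finsupp.single_zero]
        have : (monomial 0 1 : CC F) = 1 := rfl
        rw [this, map_one, map_zero]
        exact isWeightedHomogeneous_one _ _
      | succ n ih =>
        rw [Finsupp.single_add]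
        apply hadd _ _ ih
        have h1 : (monomial (Finsupp.single q 1) 1 : CC F) = X q := rfl
        have h2 : Finsupp.weight ω (Finsupp.single q 1) = ω q := by
          simp [Finsupp.weight_apply]
        rw [h1, h2]
        exact h q
  rw [f.as_sum, map_sum]
  apply IsWeightedHomogeneous.sum
  intro d hd
  rw [monomial_smul, map_smul, smul_eq_C_mul]
  apply IsWeightedHomogeneous.C_mul
  have := key d
  rwa [hf (mem_support_iff.mp hd)] at this

theorem wd_Z {a b : ℕ} (ha : a ≠ 0) (hb : b ≠ 0) : IsWeightedHomogeneous wd (Z F a b) 2 := by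
  rcases lt_trichotomy a b with h | h | h
  · rw [Z_lt h]
    have := isWeightedHomogeneous_X F wd (⟨(a, b), h⟩ : Var)
    rwa [wd, if_neg ha] at this
  · subst h; rw [Z_self]; exact isWeightedHomogeneous_zero _ _ _
  · rw [Z_swap, Z_lt h]
    have := isWeightedHomogeneous_X F wd (⟨(b, a), h⟩ : Var)
    rw [wd, if_neg hb] at this
    exact this.neg

theorem wd_Z0 {b : ℕ} : IsWeightedHomogeneous wd (Z F 0 b) 1 := by
  by_cases hb : b = 0
  · subst hb; rw [Z_self]; exact isWeightedHomogeneous_zero _ _ _
  · have h : 0 < b := by omega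
    rw [Z_lt h]
    have := isWeightedHomogeneous_X F wd (⟨(0, b), h⟩ : Var)
    rwa [wd, if_pos rfl] at this

theorem wd_yy (u v : ℕ →₀ F) : IsWeightedHomogeneous wd (yy u v) 2 := by
  have : yy u v ∈ (weightedHomogeneousSubmodule F wd 2 : Submodule F (CC F)) := by
    induction u using Finsupp.induction_linear with
    | zero => simp
    | add f g hf hg =>
      rw [map_add, LinearMap.add_apply]; exact Submodule.add_mem _ hf hg
    | single a c =>
      induction v using Finsupp.induction_linear with
      | zero => simp
      | add f g hf hg => rw [map_add]; exact Submodule.add_mem _ hf hg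
      | single b d =>
        have h1 : Finsupp.single a c = c • ee F a := by simp
        have h2 : Finsupp.single b d = d • ee F b := by simp
        rw [h1, h2, map_smul, map_smul, LinearMap.smul_apply]
        apply Submodule.smul_mem
        apply Submodule.smul_mem
        rw [yy_ee]
        split_ifs with h
        · exact Submodule.zero_mem _
        · push Not at h
          exact wd_Z h.1 h.2
  exact this

theorem wd_xx (v : ℕ →₀ F) : IsWeightedHomogeneous wd (xx v) 1 := by
  have : xx v ∈ (weightedHomogeneousSubmodule F wd 1 : Submodule F (CC F)) := by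
    induction v using Finsupp.induction_linear with
    | zero => simp
    | add f g hf hg => rw [map_add]; exact Submodule.add_mem _ hf hg
    | single b d =>
      have h2 : Finsupp.single b d = d • ee F b := by simp
      rw [h2, map_smul]
      apply Submodule.smul_mem
      rw [xx_ee]
      exact wd_Z0
  exact this

theorem zz_yy {u v : ℕ →₀ F} (hu : u 0 = 0) (hv : v 0 = 0) : zz F u v = yy u v := by
  rw [yy_apply, pr_apply, pr_apply, hu, hv]; simp

theorem phi_wd {g : (ℕ →₀ F) →ₗ[F] (ℕ →₀ F)} (hg : Good g) {f : CC F} {n : ℕ}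
    (hf : IsWeightedHomogeneous wd f n) : IsWeightedHomogeneous wd (phi g f) n := by
  apply hom_isWH wd (phi g) _ hf
  intro q
  rw [← Z_var, ← zz_ee, phi_zz]
  obtain ⟨⟨a, b⟩, hab⟩ := q
  simp only at hab ⊢
  have hb : b ≠ 0 := by omega
  have hgb : g (ee F b) 0 = 0 := by rw [hg.c0, Finsupp.single_eq_of_ne (Ne.symm hb)]
  by_cases ha : a = 0
  · subst ha
    rw [hg.e0]
    have : wd ⟨(0, b), hab⟩ = 1 := rfl
    rw [this]
    exact wd_xx _
  · have : wd ⟨(a, b), hab⟩ = 2 := by simp [wd, ha]
    rw [this, zz_yy _ hgb]
    · exact wd_yy _ _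
    · rw [hg.c0, Finsupp.single_eq_of_ne (Ne.symm ha)]

/-- degree of a word -/
def dw : List Bool → ℕ
  | [] => 0
  | true :: w => w.count false + dw w
  | false :: w => dw w

theorem p_wd (n : ℕ) (idx : Fin n → ℕ) :
    IsWeightedHomogeneous wd (p F n (fun i => ee F (idx i))) n := by
  have := p_family (F := F) (fun n idx =>
    (weightedHomogeneousSubmodule F wd n).toAddSubgroup) ?_ ?_ ?_ n idx
  · exact this
  · intro idx
    change IsWeightedHomogeneous wd (1 : CC F) 0
    exact isWeightedHomogeneous_one _ _
  · intro idx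
    change IsWeightedHomogeneous wd (Z F 0 (idx 0)) 1
    exact wd_Z0
  · intro n idx i j g hg h1 h2
    have hg' : IsWeightedHomogeneous wd g n := hg
    change IsWeightedHomogeneous wd (Z F (idx i) (Fin.removeNth i idx j) * g) (n + 2)
    have h3 := (wd_Z (F := F) h1 h2).mul hg'
    have h4 : 2 + n = n + 2 := add_comm _ _
    rwa [h4] at h3

theorem P_wd (w : List Bool) : IsWeightedHomogeneous wd (P F w) (dw w) := by
  induction w with
  | nil => exact isWeightedHomogeneous_one _ _
  | cons b w ih =>
    cases b with
    | false => exact ih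
    | true => exact (p_wd _ _).mul ih

/-- polynomials of degree at most `n` -/
noncomputable def Low (F : Type u) [Field F] (n : ℕ) : Submodule F (CC F) :=
  restrictSupport F {d | Finsupp.weight wd d ≤ n}

theorem mem_Low {n : ℕ} {f : CC F} :
    f ∈ Low F n ↔ ∀ d, coeff d f ≠ 0 → Finsupp.weight wd d ≤ n := by
  unfold Low
  rw [mem_restrictSupport_iff]
  constructor
  · intro h d hd
    exact h (mem_support_iff.mpr hd)
  · intro h d hd
    exact h d (mem_support_iff.mp hd)

theorem isWH_Low {m n : ℕ} {f : CC F} (hf : IsWeightedHomogeneous wd f m) (h : m ≤ n) :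
    f ∈ Low F n := by
  rw [mem_Low]
  intro d hd
  rw [hf hd]; exact h

theorem Low_stable (n : ℕ) : Stable (Low F n) := by
  intro g g' hg _ f hf
  rw [mem_Low] at hf
  rw [f.as_sum, map_sum]
  apply Submodule.sum_mem
  intro d hd
  apply isWH_Low (m := Finsupp.weight wd d) _ (hf d (mem_support_iff.mp hd))
  exact phi_wd hg (isWeightedHomogeneous_monomial wd d _ rfl)

theorem sup_stable {I J : Submodule F (CC F)} (hI : Stable I) (hJ : Stable J) :
    Stable (I ⊔ J) := by
  intro g g' hg h f hf
  rw [Submodule.mem_sup] at hf ⊢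
  obtain ⟨a, ha, b, hb, rfl⟩ := hf
  exact ⟨phi g a, hI g g' hg h a ha, phi g b, hJ g g' hg h b hb, (map_add _ _ _).symm⟩

/-- **Main finiteness theorem.** -/
theorem finiteness [CharZero F] {K : Submodule F (CC F)} (hK : LStable K) :
    ∃ (T : Set (List Bool)) (n : ℕ), T.Finite ∧ (∀ w ∈ T, P F w ∈ K) ∧
      (∀ K' : Submodule F (CC F), LStable K' → (∀ w ∈ T, P F w ∈ K') → K ≤ K') ∧
      K ≤ K2 K ⊔ (K ⊓ Low F n) := by
  classical
  obtain ⟨T, hTfin, hTsub, hT⟩ := higman {w | P F w ∈ K}
  refine ⟨T, hTfin.toFinset.sup dw, hTfin, hTsub, ?_, ?_⟩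
  · intro K' hK' hTK'
    by_contra hcon
    obtain ⟨w, hw1, hw2⟩ := exists_P_of_not_le hK.stable hK'.stable hcon
    obtain ⟨v, hv, hvw⟩ := hT w hw1
    rcases sublist_mem hK' hvw (hTK' v hv) with h | h
    · exact hw2 (h ▸ hTK' v hv)
    · exact hw2 (K2_le hK' h)
  · by_contra hcon
    obtain ⟨w, hw1, hw2⟩ := exists_P_of_not_le hK.stable
      (sup_stable (K2_stable hK.stable) (inf_stable hK.stable (Low_stable _))) hcon
    obtain ⟨v, hv, hvw⟩ := hT w hw1
    apply hw2
    rcases sublist_mem hK hvw (hTsub hv) with h | h
    · apply Submodule.mem_sup_right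
      refine ⟨hw1, ?_⟩
      rw [h]
      exact isWH_Low (P_wd v) (Finset.le_sup (f := dw) (hTfin.mem_toFinset.mpr hv))
    · exact Submodule.mem_sup_left h

end

end Pool.Agent.MP_1670b2_al
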