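import Pool.Agent.Work.MP_1670b2_al.Insert

/-!
A Poincaré–Birkhoff–Witt type statement: the algebra generated by the operators `L` is universal
for the relation `[[x, y], z] = 0`.
-/

open MvPolynomial

namespace Pool.Agent.MP_1670b2_al

universe u v

section Sym

variable (F : Type u) [Field F] {E : Type v} [Ring E] [Algebra F E]

/-- symmetrized products -/
noncomputable def symN (r : ℕ → E) : ℕ → Multiset ℕ → E
  | 0, _ => 1
  | (n + 1), s => ((n + 1 : ℕ) : F)⁻¹ • (s.map (fun a => r a * symN r n (s.erase a))).sum

/-- symmetrized products -/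
noncomputable def sym (r : ℕ → E) (s : Multiset ℕ) : E := symN F r (Multiset.card s) s

/-- half commutators -/
noncomputable def zeta (r : ℕ → E) (i j : ℕ) : E := (2 : F)⁻¹ • (r i * r j - r j * r i)

variable {F}

theorem sym_zero (r : ℕ → E) : sym F r 0 = 1 := rfl

theorem sym_euler [CharZero F] (r : ℕ → E) (s : Multiset ℕ) :
    (s.map (fun a => r a * sym F r (s.erase a))).sum = (Multiset.card s : F) • sym F r s := by
  rcases Nat.eq_zero_or_pos (Multiset.card s) with h | h
  · rw [Multiset.card_eq_zero] at h
    subst h; simp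
  · obtain ⟨n, hn⟩ := Nat.exists_eq_succ_of_ne_zero h.ne'
    have h1 : sym F r s = ((n + 1 : ℕ) : F)⁻¹ •
        (s.map (fun a => r a * symN F r n (s.erase a))).sum := by
      unfold sym
      rw [hn]
      rfl
    have h2 : s.map (fun a => r a * sym F r (s.erase a)) =
        s.map (fun a => r a * symN F r n (s.erase a)) := by
      apply Multiset.map_congr rfl
      intro a ha
      unfold sym
      rw [Multiset.card_erase_of_mem ha, hn]
      rfl
    rw [h1, h2, hn, smul_smul, Nat.succ_eq_add_one, mul_inv_cancel₀, one_smul]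
    exact Nat.cast_ne_zero.mpr (Nat.succ_ne_zero n)

theorem sum_erase (s : Multiset ℕ) (f : ℕ → E) {a : ℕ} (ha : a ∈ s) :
    ((s.erase a).map f).sum = (s.map f).sum - f a := by
  conv_rhs => rw [← Multiset.cons_erase ha]
  rw [Multiset.map_cons, Multiset.sum_cons]
  abel

theorem sum_smul' (s : Multiset ℕ) (c : F) (f : ℕ → E) :
    (s.map (fun a => c • f a)).sum = c • (s.map f).sum := by
  induction s using Multiset.induction_on with
  | empty => simp
  | cons a s ih => rw [Multiset.map_cons, Multiset.sum_cons, ih, Multiset.map_cons,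
      Multiset.sum_cons, smul_add]

theorem sum_swap (s : Multiset ℕ) (G : ℕ → ℕ → E) :
    (s.map (fun a => ((s.erase a).map (fun b => G a b)).sum)).sum =
      (s.map (fun b => ((s.erase b).map (fun a => G a b)).sum)).sum := by
  have h1 : s.map (fun a => ((s.erase a).map (fun b => G a b)).sum) =
      s.map (fun a => (s.map (fun b => G a b)).sum - G a a) := by
    apply Multiset.map_congr rfl
    intro a ha
    rw [sum_erase s _ ha]
  have h2 : s.map (fun b => ((s.erase b).map (fun a => G a b)).sum) =
      s.map (fun b => (s.map (fun a => G a b)).sum - G b b) := by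
    apply Multiset.map_congr rfl
    intro a ha
    rw [sum_erase s _ ha]
  rw [h1, h2, Multiset.sum_map_sub, Multiset.sum_map_sub, Multiset.sum_map_sum_map]

theorem sym_key [CharZero F] (r : ℕ → E)
    (hc : ∀ i j (e : E), zeta F r i j * e = e * zeta F r i j) (s : Multiset ℕ) (j : ℕ) :
    r j * sym F r s = sym F r (j ::ₘ s) +
      (s.map (fun a => zeta F r j a * sym F r (s.erase a))).sum := by
  induction hn : Multiset.card s using Nat.strong_induction_on generalizing s with
  | _ n ih =>
    have h1 := sym_euler (F := F) r (j ::ₘ s)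
    rw [Multiset.map_cons, Multiset.sum_cons, Multiset.erase_cons_head, Multiset.card_cons] at h1
    have h2 : s.map (fun a => r a * sym F r ((j ::ₘ s).erase a)) =
        s.map (fun a => r j * (r a * sym F r (s.erase a)) -
          (2 : F) • (zeta F r j a * sym F r (s.erase a)) -
          ((s.erase a).map (fun b => zeta F r j b * (r a * sym F r ((s.erase a).erase b)))).sum) := by
      apply Multiset.map_congr rfl
      intro a ha
      have hcard : Multiset.card (s.erase a) < n := by
        have := Multiset.card_pos_iff_exists_mem.mpr ⟨a, ha⟩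
        rw [Multiset.card_erase_of_mem ha, Nat.pred_eq_sub_one]
        omega
      have h3 := ih _ hcard (s.erase a) rfl
      rw [Multiset.erase_cons_tail_of_mem ha]
      have h4 : sym F r (j ::ₘ s.erase a) = r j * sym F r (s.erase a) -
          ((s.erase a).map (fun b => zeta F r j b * sym F r ((s.erase a).erase b))).sum := by
        rw [h3]; abel
      rw [h4, mul_sub]
      have h5 : r a * (r j * sym F r (s.erase a)) = r j * (r a * sym F r (s.erase a)) -
          (2 : F) • (zeta F r j a * sym F r (s.erase a)) := by
        unfold zeta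
        rw [smul_mul_assoc, smul_smul, mul_inv_cancel₀ two_ne_zero, one_smul, sub_mul]
        simp only [mul_assoc]
        abel
      have h6 : r a * ((s.erase a).map
          (fun b => zeta F r j b * sym F r ((s.erase a).erase b))).sum =
          ((s.erase a).map (fun b => zeta F r j b * (r a * sym F r ((s.erase a).erase b)))).sum := by
        rw [← Multiset.sum_map_mul_left]
        apply congrArg
        apply Multiset.map_congr rfl
        intro b _
        rw [← mul_assoc, ← hc, mul_assoc]
      rw [h5, h6]
    rw [h2, Multiset.sum_map_sub, Multiset.sum_map_sub, sum_swap] at h1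
    have h7 : s.map (fun b => ((s.erase b).map
        (fun a => zeta F r j b * (r a * sym F r ((s.erase a).erase b)))).sum) =
        s.map (fun b => ((n : F) - 1) • (zeta F r j b * sym F r (s.erase b))) := by
      apply Multiset.map_congr rfl
      intro b hb
      have h8 : (s.erase b).map (fun a => zeta F r j b * (r a * sym F r ((s.erase a).erase b))) =
          (s.erase b).map (fun a => zeta F r j b * (r a * sym F r ((s.erase b).erase a))) := by
        apply Multiset.map_congr rfl
        intro a _
        rw [Multiset.erase_comm]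
      rw [h8, Multiset.sum_map_mul_left, sym_euler, Multiset.card_erase_of_mem hb, hn,
        mul_smul_comm]
      congr 1
      have := Multiset.card_pos_iff_exists_mem.mpr ⟨b, hb⟩
      rw [Nat.pred_eq_sub_one, Nat.cast_sub (by omega)]
      simp
    have h9 : (s.map (fun a => r j * (r a * sym F r (s.erase a)))).sum =
        (n : F) • (r j * sym F r s) := by
      rw [Multiset.sum_map_mul_left, sym_euler, hn, mul_smul_comm]
    rw [h7, h9, sum_smul', sum_smul', hn] at h1
    set A := r j * sym F r s
    set Bs := (s.map (fun a => zeta F r j a * sym F r (s.erase a))).sum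
    set C := sym F r (j ::ₘ s)
    have hn1 : ((n + 1 : ℕ) : F) ≠ 0 := Nat.cast_ne_zero.mpr (Nat.succ_ne_zero n)
    have h10 : ((n + 1 : ℕ) : F) • (A - Bs) = ((n + 1 : ℕ) : F) • C := by
      rw [← h1]
      push_cast
      module
    have h11 : A - Bs = C := by
      have := congrArg (fun x => ((n + 1 : ℕ) : F)⁻¹ • x) h10
      simp only [smul_smul, inv_mul_cancel₀ hn1, one_smul] at this
      exact this
    rw [← h11]; abel

end Sym

section Nu

variable {F : Type u} [Field F] {E : Type v} [Ring E] [Algebra F E]

theorem zeta_swap (r : ℕ → E) (i j : ℕ) : zeta F r j i = - zeta F r i j := by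
  unfold zeta
  rw [← smul_neg, neg_sub]

theorem zeta_self (r : ℕ → E) (i : ℕ) : zeta F r i i = 0 := by
  unfold zeta
  rw [sub_self, smul_zero]

/-- The index part of a monomial. -/
noncomputable def xm : (Var →₀ ℕ) →+ Multiset ℕ :=
  Finsupp.liftAddHom (fun q => if q.1.1 = 0 then multiplesHom (Multiset ℕ) {q.1.2 - 1} else 0)

theorem xm_single_zero {b : ℕ} (h : 0 < b) :
    xm (Finsupp.single ⟨(0, b), h⟩ 1) = {b - 1} := by
  simp [xm]

theorem xm_single_pos {a b : ℕ} (h : a < b) (ha : a ≠ 0) :
    xm (Finsupp.single ⟨(a, b), h⟩ 1) = 0 := by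
  simp [xm, ha]

variable (r : ℕ → E) (hc : ∀ i j (e : E), zeta F r i j * e = e * zeta F r i j)

/-- central part -/
noncomputable def cz : CC F →ₐ[F] Subalgebra.center F E :=
  aeval (fun q => if q.1.1 = 0 then 1 else
    ⟨zeta F r (q.1.1 - 1) (q.1.2 - 1), by
      rw [Subalgebra.mem_center_iff]
      intro e
      exact (hc _ _ e).symm⟩)

/-- the map `ν` -/
noncomputable def nu : CC F →ₗ[F] E :=
  (basisMonomials Var F).constr F (fun d => sym F r (xm d) * (cz r hc (monomial d 1) : E))

theorem nu_monomial (d : Var →₀ ℕ) :
    nu r hc (monomial d 1) = sym F r (xm d) * (cz r hc (monomial d 1) : E) := by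
  have : (monomial d 1 : CC F) = basisMonomials Var F d := by simp
  conv_lhs => rw [this, nu, Module.Basis.constr_basis]

theorem mono_add (d e : Var →₀ ℕ) :
    (monomial (d + e) 1 : CC F) = monomial d 1 * monomial e 1 := by
  rw [monomial_mul, one_mul]

theorem nu_one : nu r hc (1 : CC F) = 1 := by
  have h : (1 : CC F) = monomial 0 1 := rfl
  rw [h, nu_monomial, map_zero, sym_zero]
  have h2 : (monomial 0 1 : CC F) = 1 := rfl
  rw [h2, map_one]; simp

theorem nu_Z {a b : ℕ} (ha : a ≠ 0) (hb : b ≠ 0) (d : Var →₀ ℕ) :
    nu r hc (monomial d 1 * Z F a b) = zeta F r (a - 1) (b - 1) * nu r hc (monomial d 1) := by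
  have main : ∀ {a b : ℕ}, a ≠ 0 → a < b → nu r hc (monomial d 1 * Z F a b) =
      zeta F r (a - 1) (b - 1) * nu r hc (monomial d 1) := by
    intro a b ha hab
    have h1 : (monomial d 1 * Z F a b : CC F) =
        monomial (d + Finsupp.single ⟨(a, b), hab⟩ 1) 1 := by
      rw [mono_add, Z_lt hab]; rfl
    have h2 : cz r hc (monomial (Finsupp.single (⟨(a, b), hab⟩ : Var) 1) 1) =
        ⟨zeta F r (a - 1) (b - 1), by
          rw [Subalgebra.mem_center_iff]
          intro e
          exact (hc _ _ e).symm⟩ := by
      have : (monomial (Finsupp.single (⟨(a, b), hab⟩ : Var) 1) 1 : CC F) =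
        X (⟨(a, b), hab⟩ : Var) := rfl
      rw [this, cz, aeval_X, if_neg ha]
    rw [h1, nu_monomial, nu_monomial, map_add, xm_single_pos hab ha, add_zero, mono_add, map_mul,
      h2]
    simp only [MulMemClass.coe_mul]
    rw [← hc, ← mul_assoc, ← hc, mul_assoc]
  rcases lt_trichotomy a b with h | h | h
  · exact main ha h
  · subst h
    rw [Z_self, mul_zero, map_zero, zeta_self, zero_mul]
  · rw [Z_swap, mul_neg, map_neg, main hb h, zeta_swap r (b - 1) (a - 1), neg_mul]

theorem nu_der (j : ℕ) (d : Var →₀ ℕ) : ∀ e : Var →₀ ℕ,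
    nu r hc (monomial e 1 * der (T0 (ee F (j + 1))) (monomial d 1)) =
      ((xm d).map (fun a => zeta F r j a * sym F r (xm e + (xm d).erase a))).sum *
        (cz r hc (monomial e 1 * monomial d 1) : E) := by
  have hadd : ∀ d1 d2 : Var →₀ ℕ,
      (∀ e : Var →₀ ℕ, nu r hc (monomial e 1 * der (T0 (ee F (j + 1))) (monomial d1 1)) =
      ((xm d1).map (fun a => zeta F r j a * sym F r (xm e + (xm d1).erase a))).sum *
        (cz r hc (monomial e 1 * monomial d1 1) : E)) →
      (∀ e : Var →₀ ℕ, nu r hc (monomial e 1 * der (T0 (ee F (j + 1))) (monomial d2 1)) =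
      ((xm d2).map (fun a => zeta F r j a * sym F r (xm e + (xm d2).erase a))).sum *
        (cz r hc (monomial e 1 * monomial d2 1) : E)) →
      (∀ e : Var →₀ ℕ, nu r hc (monomial e 1 * der (T0 (ee F (j + 1))) (monomial (d1 + d2) 1)) =
      ((xm (d1 + d2)).map (fun a => zeta F r j a * sym F r (xm e + (xm (d1 + d2)).erase a))).sum *
        (cz r hc (monomial e 1 * monomial (d1 + d2) 1) : E)) := by
    intro d1 d2 h1 h2 e
    have h3 : (monomial e 1 * der (T0 (ee F (j + 1))) (monomial (d1 + d2) 1) : CC F) =
        monomial (e + d1) 1 * der (T0 (ee F (j + 1))) (monomial d2 1) +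
        monomial (e + d2) 1 * der (T0 (ee F (j + 1))) (monomial d1 1) := by
      rw [mono_add d1 d2, Derivation.leibniz, mono_add e d1, mono_add e d2]
      simp only [smul_eq_mul]
      ring
    rw [h3, map_add, h1, h2]
    have h4 : (monomial (e + d1) 1 * monomial d2 1 : CC F) =
        monomial e 1 * monomial (d1 + d2) 1 := by
      rw [mono_add, mono_add]; ring
    have h5 : (monomial (e + d2) 1 * monomial d1 1 : CC F) =
        monomial e 1 * monomial (d1 + d2) 1 := by
      rw [mono_add, mono_add]; ring
    rw [h4, h5, ← add_mul, add_comm]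
    congr 1
    rw [map_add xm d1 d2, Multiset.map_add, Multiset.sum_add]
    congr 1
    · apply congrArg
      apply Multiset.map_congr rfl
      intro a ha
      rw [Multiset.erase_add_left_pos _ ha, map_add]
      congr 2
      abel
    · apply congrArg
      apply Multiset.map_congr rfl
      intro a ha
      rw [Multiset.erase_add_right_pos _ ha, map_add]
      congr 2
      abel
  induction d using Finsupp.induction_linear with
  | zero =>
    intro e
    have : (monomial 0 1 : CC F) = 1 := rfl
    rw [this, Derivation.map_one_eq_zero]; simp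
  | add d1 d2 h1 h2 => exact hadd d1 d2 h1 h2
  | single q n =>
    induction n with
    | zero =>
      intro e
      rw [Finsupp.single_zero]
      have : (monomial 0 1 : CC F) = 1 := rfl
      rw [this, Derivation.map_one_eq_zero]; simp
    | succ n ih =>
      rw [Finsupp.single_add]
      apply hadd _ _ ih
      intro e
      obtain ⟨⟨a, b⟩, hab⟩ := q
      simp only at hab
      have hb : b ≠ 0 := by omega
      have h1 : (monomial (Finsupp.single (⟨(a, b), hab⟩ : Var) 1) 1 : CC F) =
        X (⟨(a, b), hab⟩ : Var) := rfl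
      have h2 : der (T0 (ee F (j + 1))) (X (⟨(a, b), hab⟩ : Var)) =
          if a = 0 then Z F (j + 1) b else 0 := by
        rw [← Z_var, ← zz_ee, der_zz, T0_apply, T0_apply]
        simp only
        rw [Finsupp.single_eq_of_ne (Ne.symm hb), zero_smul, LinearMap.map_zero, add_zero]
        by_cases ha : a = 0
        · subst ha
          rw [if_pos rfl, Finsupp.single_eq_same, one_smul, zz_ee]
        · rw [if_neg ha, Finsupp.single_eq_of_ne (Ne.symm ha), zero_smul, LinearMap.map_zero,
            LinearMap.zero_apply]
      by_cases ha : a = 0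
      · subst ha
        rw [h1, h2, if_pos rfl, nu_Z r hc (Nat.succ_ne_zero j) hb, nu_monomial,
          xm_single_zero hab]
        have h3 : cz r hc (X (⟨(0, b), hab⟩ : Var)) = 1 := by
          rw [cz, aeval_X, if_pos rfl]
        rw [map_mul, h3, mul_one]
        simp [mul_assoc]
      · rw [h1, h2, if_neg ha, xm_single_pos hab ha]; simp

theorem nu_L [CharZero F] (j : ℕ) (f : CC F) : nu r hc (L (ee F (j + 1)) f) = r j * nu r hc f := by
  have key : (nu r hc).comp (L (ee F (j + 1))) = (LinearMap.mulLeft F (r j)).comp (nu r hc) := by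
    apply (basisMonomials Var F).ext
    intro d
    simp only [LinearMap.comp_apply, coe_basisMonomials, LinearMap.mulLeft_apply]
    rw [L_apply, map_add, zz_ee]
    have h1 : (Z F 0 (j + 1) * monomial d 1 : CC F) =
        monomial (d + Finsupp.single ⟨(0, j + 1), Nat.succ_pos j⟩ 1) 1 := by
      rw [mono_add, mul_comm, Z_lt (Nat.succ_pos j)]; rfl
    have h2 := nu_der r hc j d 0
    have h3 : (monomial 0 1 : CC F) = 1 := rfl
    rw [h3, one_mul, map_zero, one_mul] at h2
    simp only [zero_add] at h2
    have h4 : cz r hc (monomial (Finsupp.single (⟨(0, j + 1), Nat.succ_pos j⟩ : Var) 1) 1) = 1 := by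
      have : (monomial (Finsupp.single (⟨(0, j + 1), Nat.succ_pos j⟩ : Var) 1) 1 : CC F) =
        X (⟨(0, j + 1), Nat.succ_pos j⟩ : Var) := rfl
      rw [this, cz, aeval_X, if_pos rfl]
    rw [h2, h1, nu_monomial, nu_monomial, map_add, xm_single_zero, mono_add, map_mul, h4, mul_one,
      ← mul_assoc, sym_key r hc (xm d) j, add_mul]
    congr 3
    rw [add_comm, Nat.add_sub_cancel]; rfl
  exact LinearMap.congr_fun key f

end Nu

section Theta

variable {F : Type u} [Field F]

variable (F) in
/-- the representation of the free algebra by the operators `L` -/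
noncomputable def lam : FreeAlgebra F ℕ →ₐ[F] Module.End F (CC F) :=
  FreeAlgebra.lift F (fun k => L (ee F (k + 1)))

theorem lam_ι (k : ℕ) : lam F (FreeAlgebra.ι F k) = L (ee F (k + 1)) := by
  rw [lam, FreeAlgebra.lift_ι_apply]

variable (F) in
/-- `θ(b) = λ(b) 1` -/
noncomputable def theta : FreeAlgebra F ℕ →ₗ[F] CC F :=
  (LinearMap.applyₗ (1 : CC F)).comp (lam F).toLinearMap

theorem theta_apply (b : FreeAlgebra F ℕ) : theta F b = lam F b 1 := rfl

theorem lift_eq_nu [CharZero F] {E : Type v} [Ring E] [Algebra F E] (r : ℕ → E)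
    (hc : ∀ i j (e : E), zeta F r i j * e = e * zeta F r i j) (b : FreeAlgebra F ℕ) :
    ∀ f : CC F, nu r hc (lam F b f) = FreeAlgebra.lift F r b * nu r hc f := by
  induction b using FreeAlgebra.induction with
  | grade0 a =>
    intro f
    rw [AlgHom.commutes, AlgHom.commutes, Module.algebraMap_end_apply, map_smul,
      Algebra.smul_def]
  | grade1 j =>
    intro f
    rw [lam_ι, FreeAlgebra.lift_ι_apply, nu_L]
  | mul a b ha hb =>
    intro f
    rw [map_mul, map_mul, Module.End.mul_apply, ha, hb, mul_assoc]
  | add a b ha hb =>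
    intro f
    rw [map_add, map_add, LinearMap.add_apply, map_add, ha, hb, add_mul]

/-- **PBW**: elements killed by `θ` vanish in every algebra in which the commutators of the
generators commute with the generators. -/
theorem pbw [CharZero F] {E : Type v} [Ring E] [Algebra F E] (r : ℕ → E)
    (hr : ∀ i j k, (r i * r j - r j * r i) * r k = r k * (r i * r j - r j * r i))
    {b : FreeAlgebra F ℕ} (hb : theta F b = 0) : FreeAlgebra.lift F r b = 0 := by
  set E' := Algebra.adjoin F (Set.range r) with hE'
  set r' : ℕ → E' := fun i => ⟨r i, Algebra.subset_adjoin ⟨i, rfl⟩⟩ with hr'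
  have hc : ∀ i j (e : E'), zeta F r' i j * e = e * zeta F r' i j := by
    intro i j e
    have h1 : ∀ e ∈ E', (r i * r j - r j * r i) * e = e * (r i * r j - r j * r i) := by
      intro e he
      induction he using Algebra.adjoin_induction with
      | mem x hx =>
        obtain ⟨k, rfl⟩ := hx
        exact hr i j k
      | algebraMap a => exact (Algebra.commutes a _).symm
      | add x y _ _ hx hy => rw [mul_add, add_mul, hx, hy]
      | mul x y _ _ hx hy => rw [← mul_assoc, hx, mul_assoc, hy, mul_assoc]
    apply Subtype.ext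
    unfold zeta
    simp only [MulMemClass.coe_mul, SetLike.val_smul, AddSubgroupClass.coe_sub]
    rw [smul_mul_assoc, mul_smul_comm, h1 _ e.2]
  have h2 := lift_eq_nu r' hc b 1
  rw [nu_one, mul_one, ← theta_apply, hb, map_zero] at h2
  have h3 : (E'.val).comp (FreeAlgebra.lift F r') = FreeAlgebra.lift F r := by
    apply FreeAlgebra.hom_ext
    funext k
    simp [hr']
  rw [← h3, AlgHom.comp_apply, ← h2, map_zero]

end Theta

end Pool.Agent.MP_1670b2_al
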