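import Pool.Agent.Work.MP_1670b2_al.Slice

/-!
The Pfaffian-like alternating maps.
-/

open MvPolynomial AlternatingMap

namespace Pool.Agent.MP_1670b2_al

universe u

section

variable {F : Type u} [Field F]

/-- alternating maps with values in the polynomial ring -/
abbrev Alt (F : Type u) [Field F] (n : ℕ) : Type u := (ℕ →₀ F) [⋀^Fin n]→ₗ[F] CC F

instance instTowerAlt {n : ℕ} : IsScalarTower F (CC F) (Alt F n) :=
  ⟨fun a b f => by ext; simp⟩

noncomputable instance instAlt1 {n : ℕ} : AddCommGroup ((ℕ →₀ F) →ₗ[F] Alt F n) :=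
  inferInstance

noncomputable instance instAlt2 {n : ℕ} :
    AddCommGroup ((ℕ →₀ F) →ₗ[F] (ℕ →₀ F) →ₗ[F] Alt F n) := inferInstance

/-- two-fold alternatization -/
noncomputable def AU2 {n : ℕ} :
    ((ℕ →₀ F) →ₗ[F] (ℕ →₀ F) →ₗ[F] Alt F n) →ₗ[F] Alt F (n + 2) where
  toFun h := alternatizeUncurryFin (alternatizeUncurryFinLM ∘ₗ h)
  map_add' f g := by
    rw [LinearMap.comp_add, alternatizeUncurryFin_add]
  map_smul' c f := by
    rw [LinearMap.comp_smul, alternatizeUncurryFin_smul]; rfl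

theorem AU2_apply {n : ℕ} (h : (ℕ →₀ F) →ₗ[F] (ℕ →₀ F) →ₗ[F] Alt F n) :
    AU2 h = alternatizeUncurryFin (alternatizeUncurryFinLM ∘ₗ h) := rfl

theorem AU2_flip {n : ℕ} (h : (ℕ →₀ F) →ₗ[F] (ℕ →₀ F) →ₗ[F] Alt F n) :
    AU2 h.flip = - AU2 h := by
  have h1 : AU2 (h.flip + h) = 0 := by
    rw [AU2_apply]
    apply alternatizeUncurryFin_alternatizeUncurryFinLM_comp_of_symmetric
    intro x y
    simp only [LinearMap.add_apply, LinearMap.flip_apply]
    rw [add_comm]
  rw [map_add] at h1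
  exact eq_neg_of_add_eq_zero_left h1

/-- three-fold alternatization -/
noncomputable def AU3 {n : ℕ}
    (h : (ℕ →₀ F) →ₗ[F] (ℕ →₀ F) →ₗ[F] (ℕ →₀ F) →ₗ[F] Alt F n) : Alt F (n + 3) :=
  alternatizeUncurryFin (AU2 ∘ₗ h)

theorem AU3_eq {n : ℕ} (h : (ℕ →₀ F) →ₗ[F] (ℕ →₀ F) →ₗ[F] (ℕ →₀ F) →ₗ[F] Alt F n) :
    AU3 h = AU2 (h.compr₂ alternatizeUncurryFinLM) := rfl

theorem AU3_swap12 {n : ℕ} (h : (ℕ →₀ F) →ₗ[F] (ℕ →₀ F) →ₗ[F] (ℕ →₀ F) →ₗ[F] Alt F n) :
    AU3 h.flip = - AU3 h := by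
  rw [AU3_eq, AU3_eq, ← AU2_flip]
  rfl

theorem AU3_swap23 {n : ℕ} (h h' : (ℕ →₀ F) →ₗ[F] (ℕ →₀ F) →ₗ[F] (ℕ →₀ F) →ₗ[F] Alt F n)
    (hh : ∀ x y z, h' x y z = h x z y) :
    AU3 h' = - AU3 h := by
  unfold AU3
  have : AU2 ∘ₗ h' = - (AU2 ∘ₗ h) := by
    apply LinearMap.ext
    intro x
    rw [LinearMap.neg_apply, LinearMap.comp_apply, LinearMap.comp_apply, ← AU2_flip]
    congr 1
    apply LinearMap.ext
    intro y
    apply LinearMap.ext
    intro z
    rw [hh, LinearMap.flip_apply]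
  rw [this]
  have h2 : (-(AU2 ∘ₗ h) : (ℕ →₀ F) →ₗ[F] Alt F (n + 2)) = (-1 : F) • (AU2 ∘ₗ h) :=
    (neg_one_smul F _).symm
  rw [h2, alternatizeUncurryFin_smul]
  apply AlternatingMap.ext
  intro v
  rw [AlternatingMap.smul_apply, AlternatingMap.neg_apply, neg_one_smul]

/-- the operator `A_a` -/
noncomputable def A {n : ℕ} (a : (ℕ →₀ F) →ₗ[F] CC F) (f : Alt F n) : Alt F (n + 1) :=
  alternatizeUncurryFin (a.smulRight f)

/-- auxiliary bilinear map -/
noncomputable def G {n : ℕ} (β : (ℕ →₀ F) →ₗ[F] (ℕ →₀ F) →ₗ[F] CC F) (f : Alt F n) :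
    (ℕ →₀ F) →ₗ[F] (ℕ →₀ F) →ₗ[F] Alt F n :=
  LinearMap.mk₂ F (fun v v' => β v v' • f)
    (fun u u' v => by simp [add_smul]) (fun c u v => by simp)
    (fun u v v' => by simp [add_smul]) (fun c u v => by simp)

theorem G_apply {n : ℕ} (β : (ℕ →₀ F) →ₗ[F] (ℕ →₀ F) →ₗ[F] CC F) (f : Alt F n)
    (v v' : ℕ →₀ F) : G β f v v' = β v v' • f := rfl

/-- the operator `A2_β` -/
noncomputable def A2 {n : ℕ} (β : (ℕ →₀ F) →ₗ[F] (ℕ →₀ F) →ₗ[F] CC F) (f : Alt F n) :
    Alt F (n + 2) := AU2 (G β f)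

theorem A_apply {n : ℕ} (a : (ℕ →₀ F) →ₗ[F] CC F) (f : Alt F n) (v : Fin (n + 1) → (ℕ →₀ F)) :
    A a f v = ∑ i : Fin (n + 1), (-1) ^ (i : ℕ) • (a (v i) * f (Fin.removeNth i v)) := by
  rw [A, alternatizeUncurryFin_apply]
  rfl

theorem A2_apply {n : ℕ} (β : (ℕ →₀ F) →ₗ[F] (ℕ →₀ F) →ₗ[F] CC F) (f : Alt F n)
    (v : Fin (n + 2) → (ℕ →₀ F)) :
    A2 β f v = ∑ i : Fin (n + 2), (-1) ^ (i : ℕ) • ∑ j : Fin (n + 1), (-1) ^ (j : ℕ) •
      (β (v i) (Fin.removeNth i v j) * f (Fin.removeNth j (Fin.removeNth i v))) := by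
  rw [A2, AU2_apply, alternatizeUncurryFin_apply]
  apply Finset.sum_congr rfl
  intro i _
  rw [LinearMap.comp_apply, alternatizeUncurryFinLM_apply, alternatizeUncurryFin_apply]
  rfl

theorem A_A {n : ℕ} (a b : (ℕ →₀ F) →ₗ[F] CC F) (f : Alt F n) :
    A a (A b f) = AU2 (G (a.smulRight b) f) := by
  unfold A
  rw [AU2_apply]
  congr 1
  apply LinearMap.ext
  intro v
  rw [LinearMap.comp_apply, LinearMap.smulRight_apply, alternatizeUncurryFinLM_apply,
    ← alternatizeUncurryFin_smul]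
  congr 1
  apply LinearMap.ext
  intro v'
  rw [G_apply, LinearMap.smul_apply, LinearMap.smulRight_apply, smul_smul]
  rfl

theorem A_anti {n : ℕ} (a b : (ℕ →₀ F) →ₗ[F] CC F) (f : Alt F n) :
    A a (A b f) = - A b (A a f) := by
  rw [A_A, A_A, ← AU2_flip]
  congr 1
  apply LinearMap.ext
  intro v
  apply LinearMap.ext
  intro v'
  rw [G_apply, LinearMap.flip_apply, G_apply]
  congr 1
  change a v * b v' = b v' * a v
  ring

theorem A_self [CharZero F] {n : ℕ} (a : (ℕ →₀ F) →ₗ[F] CC F) (f : Alt F n) :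
    A a (A a f) = 0 := by
  have h := A_anti a a f
  have h2 : (2 : F) • A a (A a f) = 0 := by
    rw [two_smul]
    nth_rw 1 [h]
    simp
  exact (smul_eq_zero.mp h2).resolve_left two_ne_zero

theorem A_A2 {n : ℕ} (a : (ℕ →₀ F) →ₗ[F] CC F) (β : (ℕ →₀ F) →ₗ[F] (ℕ →₀ F) →ₗ[F] CC F)
    (f : Alt F n) : A a (A2 β f) = A2 β (A a f) := by
  set T : (ℕ →₀ F) →ₗ[F] (ℕ →₀ F) →ₗ[F] (ℕ →₀ F) →ₗ[F] Alt F n :=
    LinearMap.mk₂ F (fun v v' => (a v • β v').smulRight f)
      (fun u u' v => by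
        apply LinearMap.ext; intro w
        simp only [map_add, LinearMap.smulRight_apply, LinearMap.smul_apply,
          LinearMap.add_apply, add_smul])
      (fun c u v => by ext; simp)
      (fun u v v' => by
        apply LinearMap.ext; intro w
        simp only [map_add, LinearMap.smulRight_apply, LinearMap.smul_apply,
          LinearMap.add_apply, add_smul, smul_add])
      (fun c u v => by ext; simp) with hT
  set T' : (ℕ →₀ F) →ₗ[F] (ℕ →₀ F) →ₗ[F] (ℕ →₀ F) →ₗ[F] Alt F n :=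
    LinearMap.mk₂ F (fun v v' => (β v v' • a).smulRight f)
      (fun u u' v => by
        apply LinearMap.ext; intro w
        simp only [map_add, LinearMap.smulRight_apply, LinearMap.smul_apply,
          LinearMap.add_apply, add_smul])
      (fun c u v => by ext; simp)
      (fun u v v' => by
        apply LinearMap.ext; intro w
        simp only [map_add, LinearMap.smulRight_apply, LinearMap.smul_apply,
          LinearMap.add_apply, add_smul])
      (fun c u v => by ext; simp) with hT'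
  have h1 : A a (A2 β f) = AU3 T := by
    unfold A AU3
    congr 1
    apply LinearMap.ext
    intro v
    rw [LinearMap.smulRight_apply, LinearMap.comp_apply, A2, AU2_apply, AU2_apply,
      ← alternatizeUncurryFin_smul]
    congr 1
    apply LinearMap.ext
    intro v'
    rw [LinearMap.smul_apply, LinearMap.comp_apply, LinearMap.comp_apply,
      alternatizeUncurryFinLM_apply, alternatizeUncurryFinLM_apply, ← alternatizeUncurryFin_smul]
    congr 1
    apply LinearMap.ext
    intro v''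
    rw [LinearMap.smul_apply, G_apply, smul_smul]
    rfl
  have h2 : A2 β (A a f) = AU3 T' := by
    rw [AU3_eq, A2]
    congr 1
    apply LinearMap.ext
    intro v
    apply LinearMap.ext
    intro v'
    rw [G_apply, LinearMap.compr₂_apply, alternatizeUncurryFinLM_apply, A,
      ← alternatizeUncurryFin_smul]
    congr 1
    apply LinearMap.ext
    intro v''
    rw [LinearMap.smul_apply, LinearMap.smulRight_apply, smul_smul]
    rfl
  have h3 : AU3 T' = - AU3 T.flip := by
    apply AU3_swap23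
    intro x y z
    rw [LinearMap.flip_apply]
    change (β x y * a z) • f = (a z * β x y) • f
    rw [mul_comm]
  rw [h1, h2, h3, AU3_swap12, neg_neg]

/-- projection killing `e_0` -/
noncomputable def pr : (ℕ →₀ F) →ₗ[F] (ℕ →₀ F) :=
  LinearMap.id - (Finsupp.lapply 0 : (ℕ →₀ F) →ₗ[F] F).smulRight (ee F 0)

theorem pr_apply (u : ℕ →₀ F) : pr u = u - u 0 • ee F 0 := rfl

theorem pr_ee {i : ℕ} (hi : i ≠ 0) : pr (ee F i) = ee F i := by
  rw [pr_apply, Finsupp.single_eq_of_ne (Ne.symm hi), zero_smul, sub_zero]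

theorem pr_ee0 : pr (ee F 0) = 0 := by
  rw [pr_apply]; simp

theorem pr_zero (u : ℕ →₀ F) : pr u 0 = 0 := by
  rw [pr_apply]; simp

theorem pr_of_ne {k : ℕ} (hk : k ≠ 0) (u : ℕ →₀ F) : pr u k = u k := by
  rw [pr_apply, Finsupp.sub_apply, Finsupp.smul_apply, Finsupp.single_eq_of_ne hk]; simp

theorem pr_good {g : (ℕ →₀ F) →ₗ[F] (ℕ →₀ F)} (hg : Good g) (u : ℕ →₀ F) :
    g (pr u) = pr (g u) := by
  rw [pr_apply, pr_apply, map_sub, map_smul, hg.e0, hg.c0]

/-- the linear form `x` -/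
noncomputable def xx : (ℕ →₀ F) →ₗ[F] CC F := zz F (ee F 0)

/-- the bilinear form `z` on `W` -/
noncomputable def yy : (ℕ →₀ F) →ₗ[F] (ℕ →₀ F) →ₗ[F] CC F := (zz F).compl₁₂ pr pr

theorem yy_apply (u v : ℕ →₀ F) : yy u v = zz F (pr u) (pr v) := rfl

variable (F) in
/-- the alternating maps `p_n` -/
noncomputable def p : (n : ℕ) → Alt F n
  | 0 => AlternatingMap.constOfIsEmpty F (ℕ →₀ F) (Fin 0) 1
  | 1 => A xx (AlternatingMap.constOfIsEmpty F (ℕ →₀ F) (Fin 0) 1)
  | (n + 2) => A2 yy (p n)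

theorem p_zero (v : Fin 0 → (ℕ →₀ F)) : p F 0 v = 1 := rfl

theorem p_one : p F 1 = A xx (p F 0) := rfl

theorem p_add_two (n : ℕ) : p F (n + 2) = A2 yy (p F n) := rfl

theorem A_xx_p [CharZero F] (n : ℕ) :
    (Even n → A xx (p F n) = p F (n + 1)) ∧ (Odd n → A xx (p F n) = 0) := by
  induction n using Nat.twoStepInduction with
  | zero => exact ⟨fun _ => rfl, fun h => by simp at h⟩
  | one => exact ⟨fun h => by simp at h, fun _ => by rw [p_one, A_self]⟩
  | more n ih1 _ =>
    constructor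
    · intro h
      rw [p_add_two, A_A2, ih1.1 (by rwa [Nat.even_add, iff_true_right even_two] at h)]
      rfl
    · intro h
      rw [p_add_two, A_A2, ih1.2 (by rwa [Nat.odd_add, iff_true_right even_two] at h), A2]
      have : G (yy (F := F)) (0 : Alt F (n + 1)) = 0 := by
        ext; simp [G_apply]
      rw [this]
      exact LinearMap.map_zero _

theorem phi_A {g : (ℕ →₀ F) →ₗ[F] (ℕ →₀ F)} (hg : Good g) (n : ℕ) :
    ∀ v : Fin n → (ℕ →₀ F), phi g (p F n v) = p F n (fun i => g (v i)) := by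
  induction n using Nat.twoStepInduction with
  | zero => intro v; rw [p_zero, p_zero, map_one]
  | one =>
    intro v
    rw [p_one, A_apply, A_apply, map_sum]
    apply Finset.sum_congr rfl
    intro i _
    rw [map_zsmul, map_mul, p_zero, p_zero, map_one, xx, phi_zz, hg.e0]
  | more n ih1 _ =>
    intro v
    rw [p_add_two, A2_apply, A2_apply, map_sum]
    apply Finset.sum_congr rfl
    intro i _
    rw [map_zsmul, map_sum]
    congr 1
    apply Finset.sum_congr rfl
    intro j _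
    rw [map_zsmul, map_mul, ih1, yy_apply, phi_zz, yy_apply, pr_good hg, pr_good hg]
    rfl

/-- coordinate forms -/
noncomputable def eps (k : ℕ) : (ℕ →₀ F) →ₗ[F] CC F :=
  (Algebra.linearMap F (CC F)).comp (Finsupp.lapply k)

theorem eps_apply (k : ℕ) (v : ℕ →₀ F) : eps k v = algebraMap F (CC F) (v k) := rfl

/-- composition with `D k` -/
noncomputable def Dc (k : ℕ) {n : ℕ} (f : Alt F n) : Alt F n :=
  (D k).toLinearMap.compAlternatingMap f

theorem Dc_apply (k : ℕ) {n : ℕ} (f : Alt F n) (v : Fin n → (ℕ →₀ F)) :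
    Dc k f v = D k (f v) := rfl

theorem D_xx {k : ℕ} (hk : k ≠ 0) (v : ℕ →₀ F) : D k (xx v) = eps k v := by
  rw [xx, D_zz, eps_apply, zz_self, smul_zero, Finsupp.single_eq_of_ne hk,
    Finsupp.single_eq_same]
  simp

theorem D_yy {k : ℕ} (hk : k ≠ 0) (u v : ℕ →₀ F) :
    D k (yy u v) = eps k u * xx v - xx u * eps k v := by
  have hx : ∀ v : ℕ →₀ F, zz F (ee F 0) (pr v) = xx v := by
    intro v
    rw [pr_apply, map_sub, map_smul, zz_self, smul_zero, sub_zero]; rfl
  rw [yy_apply, D_zz, pr_zero, pr_zero, pr_of_ne hk, pr_of_ne hk, zz_swap (ee F 0) (pr u), hx, hx,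
    eps_apply, eps_apply]
  simp only [zero_mul, mul_zero, sub_zero, _root_.map_zero, add_zero, Algebra.smul_def]
  ring

theorem Dc_A {k : ℕ} (hk : k ≠ 0) {n : ℕ} (f : Alt F n) :
    Dc k (A xx f) = A (eps k) f + A xx (Dc k f) := by
  apply AlternatingMap.ext
  intro v
  rw [Dc_apply, A_apply, AlternatingMap.add_apply, A_apply, A_apply, map_sum,
    ← Finset.sum_add_distrib]
  apply Finset.sum_congr rfl
  intro i _
  rw [map_zsmul, Derivation.leibniz, D_xx hk, smul_eq_mul, smul_eq_mul, Dc_apply, ← smul_add]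
  congr 1
  ring

theorem Dc_A2 {k : ℕ} (hk : k ≠ 0) {n : ℕ} (f : Alt F n) :
    Dc k (A2 yy f) = (2 : F) • A (eps k) (A xx f) + A2 yy (Dc k f) := by
  have h1 : Dc k (A2 yy f) = (A (eps k) (A xx f) - A xx (A (eps k) f)) + A2 yy (Dc k f) := by
    rw [A_A, A_A, ← map_sub, A2, A2]
    change Dc k (A2 yy f) = _
    apply AlternatingMap.ext
    intro v
    have h2 : G ((eps k : (ℕ →₀ F) →ₗ[F] CC F).smulRight xx) f -
        G ((xx : (ℕ →₀ F) →ₗ[F] CC F).smulRight (eps k)) f =
        G ((eps k : (ℕ →₀ F) →ₗ[F] CC F).smulRight xx -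
          (xx : (ℕ →₀ F) →ₗ[F] CC F).smulRight (eps k)) f := by
      ext; simp [G_apply, sub_mul]
    rw [h2]
    change _ = (A2 _ f + A2 yy (Dc k f)) v
    rw [Dc_apply, A2_apply, AlternatingMap.add_apply, A2_apply, A2_apply, map_sum,
      ← Finset.sum_add_distrib]
    apply Finset.sum_congr rfl
    intro i _
    rw [map_zsmul, map_sum, ← smul_add, ← Finset.sum_add_distrib]
    congr 1
    apply Finset.sum_congr rfl
    intro j _
    rw [map_zsmul, Derivation.leibniz, D_yy hk, smul_eq_mul, smul_eq_mul, Dc_apply, ← smul_add]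
    congr 1
    simp only [LinearMap.sub_apply, LinearMap.smulRight_apply, LinearMap.smul_apply, smul_eq_mul]
    ring
  rw [h1, A_anti xx (eps k), sub_neg_eq_add, two_smul]

/-- coefficients -/
def cc : ℕ → ℤ
  | 0 => 1
  | 1 => 2
  | (n + 2) => if Even n then cc n else cc n + 2

theorem cc_pos (n : ℕ) : 0 < cc n := by
  induction n using Nat.twoStepInduction with
  | zero => simp [cc]
  | one => simp [cc]
  | more n ih1 _ =>
    rw [cc]
    split_ifs
    · exact ih1
    · omega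

theorem Dc_p [CharZero F] {k : ℕ} (hk : k ≠ 0) (n : ℕ) :
    Dc k (p F (n + 1)) = (cc n : F) • A (eps k) (p F n) := by
  induction n using Nat.twoStepInduction with
  | zero =>
    rw [p_one, Dc_A hk]
    have : Dc k (p F 0) = 0 := by
      apply AlternatingMap.ext
      intro v
      rw [Dc_apply, p_zero]; simp
    rw [this]
    have h2 : A (xx (F := F)) (0 : Alt F 0) = 0 := by
      apply AlternatingMap.ext
      intro v
      rw [A_apply]; simp
    rw [h2, add_zero, cc]; simp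
  | one =>
    rw [p_add_two, Dc_A2 hk]
    have : Dc k (p F 0) = 0 := by
      apply AlternatingMap.ext
      intro v
      rw [Dc_apply, p_zero]; simp
    rw [this]
    have h2 : A2 (yy (F := F)) (0 : Alt F 0) = 0 := by
      apply AlternatingMap.ext
      intro v
      rw [A2_apply]; simp
    rw [h2, add_zero, ← p_one, cc]; simp
  | more n ih1 _ =>
    have hsm : ∀ (c : F) (f : Alt F (n + 1)), A2 yy (c • f) = c • A2 yy f := by
      intro c f
      apply AlternatingMap.ext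
      intro v
      rw [A2_apply, AlternatingMap.smul_apply, A2_apply, Finset.smul_sum]
      apply Finset.sum_congr rfl
      intro i _
      rw [smul_comm c]
      congr 1
      rw [Finset.smul_sum]
      apply Finset.sum_congr rfl
      intro j _
      rw [smul_comm c, AlternatingMap.smul_apply, mul_smul_comm]
    have h3 : p F (n + 2 + 1) = A2 yy (p F (n + 1)) := rfl
    rw [h3, Dc_A2 hk, ih1, hsm, ← A_A2, ← p_add_two, cc]
    by_cases hn : Even n
    · rw [if_pos hn, (A_xx_p (n + 1)).2 (by rw [Nat.odd_add_one]; simpa using hn)]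
      have h2 : A (eps (F := F) k) (0 : Alt F (n + 2)) = 0 := by
        apply AlternatingMap.ext
        intro v
        rw [A_apply]; simp
      rw [h2, smul_zero, zero_add]
    · rw [if_neg hn, (A_xx_p (n + 1)).1 (by rw [Nat.even_add_one]; exact hn), ← add_smul]
      push_cast
      ring_nf

end

end Pool.Agent.MP_1670b2_al
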