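import Mathlib

/-!
The polynomial ring `C = Sym(Λ² V)`, the operators `L`, `D`, the substitutions `φ`, and the
Fischer form `B`.
-/

open MvPolynomial

namespace Pool.Agent.MP_1670b2_al

universe u

/-- Pairs `a < b`. -/
abbrev Var : Type := {p : ℕ × ℕ // p.1 < p.2}

section

variable (F : Type u) [Field F]

/-- The polynomial ring in the skew variables. -/
abbrev CC : Type u := MvPolynomial Var F

/-- basis vector -/
noncomputable abbrev ee (i : ℕ) : ℕ →₀ F := Finsupp.single i 1

/-- The skew variables. -/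
noncomputable def Z (a b : ℕ) : CC F :=
  if h : a < b then X ⟨(a, b), h⟩ else if h' : b < a then - X ⟨(b, a), h'⟩ else 0

variable {F}

theorem Z_lt {a b : ℕ} (h : a < b) : Z F a b = X ⟨(a, b), h⟩ := by
  simp [Z, h]

theorem Z_var (p : Var) : Z F p.1.1 p.1.2 = X p := Z_lt p.2

@[simp] theorem Z_self (a : ℕ) : Z F a a = 0 := by simp [Z]

theorem Z_swap (a b : ℕ) : Z F b a = - Z F a b := by
  rcases lt_trichotomy a b with h | h | h
  · simp [Z, h, h.not_gt]
  · subst h; simp
  · simp [Z, h, h.not_gt]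

variable (F) in
/-- The universal alternating bilinear map. -/
noncomputable def zz : (ℕ →₀ F) →ₗ[F] (ℕ →₀ F) →ₗ[F] CC F :=
  Finsupp.linearCombination F (fun a => (Finsupp.linearCombination F (fun b => Z F a b)))

theorem zz_ee (a b : ℕ) : zz F (ee F a) (ee F b) = Z F a b := by
  simp [zz]

theorem zz_self (u : ℕ →₀ F) : zz F u u = 0 := by
  induction u using Finsupp.induction_linear with
  | zero => simp
  | add f g hf hg =>
    simp only [map_add, LinearMap.add_apply]
    rw [hf, hg]
    have : ∀ f g : ℕ →₀ F, zz F f g = - zz F g f := by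
      intro f g
      have h : zz F = - (zz F).flip := by
        ext a b
        simp only [LinearMap.coe_comp, Function.comp_apply, Finsupp.lsingle_apply,
          LinearMap.neg_apply, LinearMap.flip_apply]
        rw [zz_ee, zz_ee, Z_swap]
      conv_lhs => rw [h]
      rfl
    rw [this f g]; simp
  | single a c =>
    have : Finsupp.single a c = c • ee F a := by simp
    rw [this]; simp only [map_smul, LinearMap.smul_apply, zz_ee, Z_self, smul_zero]

theorem zz_swap (u v : ℕ →₀ F) : zz F v u = - zz F u v := by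
  have h := zz_self (u + v)
  simp only [map_add, LinearMap.add_apply, zz_self, zero_add, add_zero] at h
  exact eq_neg_of_add_eq_zero_left h

/-- bilinear extensionality -/
theorem bil_ext {M : Type*} [AddCommGroup M] [Module F M]
    {f g : (ℕ →₀ F) →ₗ[F] (ℕ →₀ F) →ₗ[F] M}
    (h : ∀ a b, f (ee F a) (ee F b) = g (ee F a) (ee F b)) : f = g := by
  ext a b
  exact h a b

/-- For a linear map `T` out of `C` and an alternating `β`, `T (zz u v) = β u v` can be checked on
variables. -/
theorem lin_zz {M : Type*} [AddCommGroup M] [Module F M] (T : CC F →ₗ[F] M)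
    (β : (ℕ →₀ F) →ₗ[F] (ℕ →₀ F) →ₗ[F] M) (hβ0 : ∀ u, β u u = 0)
    (h : ∀ p : Var, T (X p) = β (ee F p.1.1) (ee F p.1.2)) (u v : ℕ →₀ F) :
    T (zz F u v) = β u v := by
  have hsw : ∀ u v, β v u = - β u v := by
    intro u v
    have h := hβ0 (u + v)
    simp only [map_add, LinearMap.add_apply, hβ0, zero_add, add_zero] at h
    exact eq_neg_of_add_eq_zero_left h
  have key : (zz F).compr₂ T = β := by
    apply bil_ext
    intro a b
    rw [LinearMap.compr₂_apply, zz_ee]
    rcases lt_trichotomy a b with hab | hab | hab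
    · rw [Z_lt hab, h]
    · subst hab; rw [Z_self, map_zero, hβ0]
    · rw [Z_swap b a, Z_lt hab, map_neg, h, ← hsw]
  rw [← key]; rfl

/-- The substitution attached to a linear map. -/
noncomputable def phi (g : (ℕ →₀ F) →ₗ[F] (ℕ →₀ F)) : CC F →ₐ[F] CC F :=
  aeval (fun p => zz F (g (ee F p.1.1)) (g (ee F p.1.2)))

theorem phi_zz (g : (ℕ →₀ F) →ₗ[F] (ℕ →₀ F)) (u v : ℕ →₀ F) :
    phi g (zz F u v) = zz F (g u) (g v) := by
  have := lin_zz (phi g).toLinearMap ((zz F).compl₁₂ g g) (fun u => by
    rw [LinearMap.compl₁₂_apply]; exact zz_self _) (fun p => by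
    simp [phi]) u v
  simpa using this

theorem phi_id : phi (LinearMap.id : (ℕ →₀ F) →ₗ[F] (ℕ →₀ F)) = AlgHom.id F (CC F) := by
  apply MvPolynomial.algHom_ext
  intro p
  rw [← Z_var, ← zz_ee, phi_zz]; rfl

theorem phi_comp (g h : (ℕ →₀ F) →ₗ[F] (ℕ →₀ F)) :
    (phi g).comp (phi h) = phi (g.comp h) := by
  apply MvPolynomial.algHom_ext
  intro p
  rw [← Z_var, ← zz_ee, AlgHom.comp_apply, phi_zz, phi_zz, phi_zz]; rfl

/-- The derivation attached to a linear map. -/
noncomputable def der (T : (ℕ →₀ F) →ₗ[F] (ℕ →₀ F)) : Derivation F (CC F) (CC F) :=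
  mkDerivation F (fun p => zz F (T (ee F p.1.1)) (ee F p.1.2) + zz F (ee F p.1.1) (T (ee F p.1.2)))

theorem der_zz (T : (ℕ →₀ F) →ₗ[F] (ℕ →₀ F)) (u v : ℕ →₀ F) :
    der T (zz F u v) = zz F (T u) v + zz F u (T v) := by
  have := lin_zz (der T).toLinearMap ((zz F).compl₁₂ T LinearMap.id +
    (zz F).compl₁₂ LinearMap.id T) (fun u => by
    simp only [LinearMap.add_apply, LinearMap.compl₁₂_apply, LinearMap.id_apply]
    rw [zz_swap (T u) u]; simp) (fun p => by
    simp [der]) u v
  simpa using this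

/-- The rank one map `u ↦ u_0 • v`. -/
noncomputable def T0 (v : ℕ →₀ F) : (ℕ →₀ F) →ₗ[F] (ℕ →₀ F) :=
  (Finsupp.lapply 0 : (ℕ →₀ F) →ₗ[F] F).smulRight v

theorem T0_apply (u v : ℕ →₀ F) : T0 v u = u 0 • v := rfl

/-- The operator `L_v = x(v) + Y_v`. -/
noncomputable def L (v : ℕ →₀ F) : CC F →ₗ[F] CC F :=
  LinearMap.mulLeft F (zz F (ee F 0) v) + (der (T0 v)).toLinearMap

theorem L_apply (v : ℕ →₀ F) (f : CC F) : L v f = zz F (ee F 0) v * f + der (T0 v) f := rfl

/-- The alternating form used for `D`. -/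
noncomputable def dform (k : ℕ) : (ℕ →₀ F) →ₗ[F] (ℕ →₀ F) →ₗ[F] CC F :=
  LinearMap.mk₂ F (fun u v => u k • zz F (ee F 0) v + v k • zz F u (ee F 0)
      + algebraMap F (CC F) (u 0 * v k - u k * v 0))
    (fun u u' v => by simp only [Finsupp.add_apply, map_add, LinearMap.add_apply, add_smul,
      smul_add, add_mul, map_sub]; ring)
    (fun c u v => by
      simp only [Finsupp.smul_apply, smul_eq_mul, map_smul, LinearMap.smul_apply,
        Algebra.smul_def, map_mul, map_sub]; ring)
    (fun u v v' => by simp only [Finsupp.add_apply, map_add, add_smul,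
      smul_add, mul_add, map_sub]; ring)
    (fun c u v => by
      simp only [Finsupp.smul_apply, smul_eq_mul, map_smul,
        Algebra.smul_def, map_mul, map_sub]; ring)

theorem dform_apply (k : ℕ) (u v : ℕ →₀ F) : dform k u v =
    u k • zz F (ee F 0) v + v k • zz F u (ee F 0)
      + algebraMap F (CC F) (u 0 * v k - u k * v 0) := rfl

/-- The operator `D_k`, adjoint of `L (e_k)` for `k ≥ 1`. -/
noncomputable def D (k : ℕ) : Derivation F (CC F) (CC F) :=
  mkDerivation F (fun p => dform k (ee F p.1.1) (ee F p.1.2))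

theorem D_zz (k : ℕ) (u v : ℕ →₀ F) : D k (zz F u v) =
    u k • zz F (ee F 0) v + v k • zz F u (ee F 0)
      + algebraMap F (CC F) (u 0 * v k - u k * v 0) := by
  have := lin_zz (D k).toLinearMap (dform k) (fun u => by
    rw [dform_apply, zz_swap u (ee F 0), mul_comm]; simp) (fun p => by
    simp [D]) u v
  simpa [dform_apply] using this

/-- good maps: fix `e_0` and preserve the zeroth coordinate -/
structure Good (g : (ℕ →₀ F) →ₗ[F] (ℕ →₀ F)) : Prop where
  e0 : g (ee F 0) = ee F 0
  c0 : ∀ u, g u 0 = u 0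

theorem phi_der (g T T' : (ℕ →₀ F) →ₗ[F] (ℕ →₀ F)) (h : ∀ u, g (T u) = T' (g u)) (f : CC F) :
    phi g (der T f) = der T' (phi g f) := by
  induction f using MvPolynomial.induction_on with
  | C a =>
    have h1 : (C a : CC F) = algebraMap F (CC F) a := rfl
    rw [h1, Derivation.map_algebraMap, map_zero, AlgHom.commutes, Derivation.map_algebraMap]
  | add p q hp hq => rw [map_add, map_add, hp, hq, map_add, map_add]
  | mul_X p i hp =>
    rw [Derivation.leibniz, map_add, smul_eq_mul, smul_eq_mul, map_mul, map_mul, map_mul,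
      Derivation.leibniz, hp, smul_eq_mul, smul_eq_mul]
    have : phi g (der T (X i)) = der T' (phi g (X i)) := by
      rw [← Z_var, ← zz_ee, der_zz, map_add, phi_zz, phi_zz, phi_zz, der_zz, h, h]
    rw [this]

theorem phi_L {g : (ℕ →₀ F) →ₗ[F] (ℕ →₀ F)} (hg : Good g) (v : ℕ →₀ F) (f : CC F) :
    phi g (L v f) = L (g v) (phi g f) := by
  rw [L_apply, L_apply, map_add, map_mul, phi_zz, hg.e0,
    phi_der g (T0 v) (T0 (g v)) (fun u => by rw [T0_apply, T0_apply, map_smul, hg.c0])]

theorem der_der_T0 (v w : ℕ →₀ F) (hv : v 0 = 0) (hw : w 0 = 0) (f : CC F) :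
    der (T0 v) (der (T0 w) f) = der (T0 w) (der (T0 v) f) := by
  have key : (⁅der (T0 v), der (T0 w)⁆ : Derivation F (CC F) (CC F)) = 0 := by
    apply MvPolynomial.derivation_ext
    intro p
    rw [Derivation.commutator_apply, ← Z_var, ← zz_ee, der_zz, der_zz, map_add, map_add,
      der_zz, der_zz, der_zz, der_zz]
    simp only [T0_apply, map_smul, hv, hw, smul_zero, zero_smul, map_zero,
      LinearMap.smul_apply, LinearMap.zero_apply]
    simp only [Derivation.coe_zero, Pi.zero_apply]
    ring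
  have := DFunLike.congr_fun key f
  rw [Derivation.commutator_apply] at this
  exact sub_eq_zero.mp this

/-- commutators of the `L`'s are central multiplications -/
theorem L_comm (v w : ℕ →₀ F) (hv : v 0 = 0) (hw : w 0 = 0) (f : CC F) :
    L v (L w f) - L w (L v f) = 2 * zz F v w * f := by
  simp only [L_apply, map_add, Derivation.leibniz, smul_eq_mul, der_zz, T0_apply]
  rw [der_der_T0 v w hv hw]
  have e1 : (ee F 0 : ℕ →₀ F) 0 = 1 := by simp
  rw [e1, hw, hv]
  simp only [one_smul, zero_smul, map_zero, add_zero]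
  rw [zz_swap v w]
  ring

end

end Pool.Agent.MP_1670b2_al
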