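import Pool.Agent.Work.MP_1670b2_al.Defs

/-!
# No finite basic superrank, part 1: the alternating operator `bop`
-/

set_option autoImplicit false

open scoped TensorProduct

namespace Pool.Agent.MP_1670b2_al

section bop

variable {E : Type*} [Ring E]

/-- The alternating sum of products of commutators. -/
def bop {n : ℕ} (r y : Fin n → E) : E :=
  ∑ σ : Equiv.Perm (Fin n), ((Equiv.Perm.sign σ : ℤˣ) : ℤ) •
    (List.ofFn fun i => r i * y (σ i) - y (σ i) * r i).prod

end bop

section intertwine

variable {R R' B B' : Type*} [Semiring R] [Semiring R'] [AddCommGroup B] [AddCommGroup B']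
  [Module R B] [Module R' B']

/-- `φ` intertwines `a` and `b`. -/
def IT (φ : B →+ B') (a : Module.End R B) (b : Module.End R' B') : Prop :=
  ∀ z, φ (a z) = b (φ z)

variable {φ : B →+ B'}

lemma IT.one : IT φ (1 : Module.End R B) (1 : Module.End R' B') := fun _ => rfl

lemma IT.zero : IT φ (0 : Module.End R B) (0 : Module.End R' B') := fun _ => by simp

lemma IT.mul {a a' : Module.End R B} {b b' : Module.End R' B'} (h : IT φ a b) (h' : IT φ a' b') :
    IT φ (a * a') (b * b') := fun z => by
  rw [Module.End.mul_apply, Module.End.mul_apply, h, h']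

lemma IT.sub {a a' : Module.End R B} {b b' : Module.End R' B'} (h : IT φ a b) (h' : IT φ a' b') :
    IT φ (a - a') (b - b') := fun z => by
  rw [LinearMap.sub_apply, LinearMap.sub_apply, map_sub, h, h']

lemma IT.add {a a' : Module.End R B} {b b' : Module.End R' B'} (h : IT φ a b) (h' : IT φ a' b') :
    IT φ (a + a') (b + b') := fun z => by
  rw [LinearMap.add_apply, LinearMap.add_apply, map_add, h, h']

lemma IT.zsmul (c : ℤ) {a : Module.End R B} {b : Module.End R' B'} (h : IT φ a b) :
    IT φ (c • a) (c • b) := fun z => by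
  rw [LinearMap.smul_apply, LinearMap.smul_apply, map_zsmul, h]

lemma IT.sum {ι : Type*} (s : Finset ι) {a : ι → Module.End R B} {b : ι → Module.End R' B'}
    (h : ∀ i ∈ s, IT φ (a i) (b i)) : IT φ (∑ i ∈ s, a i) (∑ i ∈ s, b i) := fun z => by
  rw [LinearMap.sum_apply, LinearMap.sum_apply, map_sum]
  exact Finset.sum_congr rfl fun i hi => h i hi z

lemma IT.pow (m : ℕ) {a : Module.End R B} {b : Module.End R' B'} (h : IT φ a b) :
    IT φ (a ^ m) (b ^ m) := by
  induction m with
  | zero => simpa using IT.one
  | succ m ih => rw [pow_succ, pow_succ]; exact ih.mul h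

lemma IT.ofFn_prod : ∀ {n : ℕ} {a : Fin n → Module.End R B} {b : Fin n → Module.End R' B'},
    (∀ i, IT φ (a i) (b i)) → IT φ (List.ofFn a).prod (List.ofFn b).prod
  | 0, a, b, _ => by simpa using IT.one
  | n + 1, a, b, h => by
    rw [List.ofFn_succ, List.ofFn_succ, List.prod_cons, List.prod_cons]
    exact (h 0).mul (IT.ofFn_prod fun i => h i.succ)

lemma IT.bop {n : ℕ} {r y : Fin n → Module.End R B} {r' y' : Fin n → Module.End R' B'}
    (hr : ∀ i, IT φ (r i) (r' i)) (hy : ∀ i, IT φ (y i) (y' i)) :
    IT φ (bop r y) (bop r' y') := by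
  unfold Pool.Agent.MP_1670b2_al.bop
  refine IT.sum _ fun σ _ => IT.zsmul _ (IT.ofFn_prod fun i => ?_)
  exact ((hr i).mul (hy _)).sub ((hy _).mul (hr i))

end intertwine

section alt

variable {Z E : Type*} [CommRing Z] [Ring E] [Algebra Z E]

/-- `bop` as an alternating map in the second family. -/
lemma bop_eq_alternatization {n : ℕ} (r y : Fin n → E) :
    bop r y = MultilinearMap.alternatization
      ((MultilinearMap.mkPiAlgebraFin Z n E).compLinearMap
        fun i => LinearMap.mulLeft Z (r i) - LinearMap.mulRight Z (r i)) y := by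
  rw [MultilinearMap.alternatization_apply]
  unfold bop
  refine Finset.sum_congr rfl fun σ _ => ?_
  rfl

lemma bop_eq_zero {n : ℕ} {ι : Type*} [Fintype ι] (r : Fin n → E) (e : ι → E)
    (γ : Fin n → ι → Z) (hk : Fintype.card ι < n) :
    bop r (fun j => ∑ s, γ j s • e s) = 0 := by
  classical
  rw [bop_eq_alternatization (Z := Z)]
  set g : E [⋀^Fin n]→ₗ[Z] E := MultilinearMap.alternatization
      ((MultilinearMap.mkPiAlgebraFin Z n E).compLinearMap
        fun i => LinearMap.mulLeft Z (r i) - LinearMap.mulRight Z (r i)) with hg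
  set L : (ι → Z) →ₗ[Z] E := Fintype.linearCombination Z e with hL
  have h1 : g.compLinearMap L = 0 := by
    refine Module.Basis.ext_alternating (Pi.basisFun Z ι) fun v hv => ?_
    exfalso
    have := Fintype.card_le_of_injective v hv
    rw [Fintype.card_fin] at this
    omega
  have h2 : (fun j => ∑ s, γ j s • e s) = fun j => L (γ j) := by
    funext j
    rw [hL, Fintype.linearCombination_apply]
  rw [h2]
  have h3 := congrArg (fun q : (ι → Z) [⋀^Fin n]→ₗ[Z] E => q γ) h1
  exact h3

end alt

end Pool.Agent.MP_1670b2_al
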