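import Pool.Agent.Work.MP_1670b2_al.Defs

/-!
# No finite basic superrank, part 2: the Grassmann algebra
-/

set_option autoImplicit false

open scoped TensorProduct

namespace Pool.Agent.MP_1670b2_al

universe u

variable (F : Type u) [Field F]

lemma iota_anti (v w : ℕ →₀ F) : ExteriorAlgebra.ι F (M := ℕ →₀ F) v * ExteriorAlgebra.ι F (M := ℕ →₀ F) w = -(ExteriorAlgebra.ι F (M := ℕ →₀ F) w * ExteriorAlgebra.ι F (M := ℕ →₀ F) v) := by
  rw [eq_neg_iff_add_eq_zero]
  exact ExteriorAlgebra.ι_add_mul_swap v w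

lemma iota_word (v : ℕ →₀ F) (l : List ℕ) : ExteriorAlgebra.ι F (M := ℕ →₀ F) v * (l.map (gen F)).prod =
    (-1 : F) ^ l.length • ((l.map (gen F)).prod * ExteriorAlgebra.ι F (M := ℕ →₀ F) v) := by
  induction l with
  | nil => simp
  | cons a l ih =>
    rw [List.map_cons, List.prod_cons, List.length_cons, pow_succ, ← mul_assoc, gen, iota_anti,
      neg_mul, mul_assoc, ih, mul_smul_comm, mul_smul, neg_one_smul, smul_neg, mul_assoc]

lemma iota_even {g : Grass F} (hg : g ∈ grassPart F 0) (v : ℕ →₀ F) : ExteriorAlgebra.ι F (M := ℕ →₀ F) v * g = g * ExteriorAlgebra.ι F (M := ℕ →₀ F) v := by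
  unfold grassPart at hg
  induction hg using Submodule.span_induction with
  | mem g hg =>
    obtain ⟨l, hl, rfl⟩ := hg
    rw [iota_word, Even.neg_one_pow ((ZMod.natCast_eq_zero_iff_even).1 hl), one_smul]
  | zero => simp
  | add x y _ _ h1 h2 => rw [mul_add, add_mul, h1, h2]
  | smul c x _ h1 => rw [mul_smul_comm, smul_mul_assoc, h1]

lemma iota_odd {g : Grass F} (hg : g ∈ grassPart F 1) (v : ℕ →₀ F) : ExteriorAlgebra.ι F (M := ℕ →₀ F) v * g = -(g * ExteriorAlgebra.ι F (M := ℕ →₀ F) v) := by
  unfold grassPart at hg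
  induction hg using Submodule.span_induction with
  | mem g hg =>
    obtain ⟨l, hl, rfl⟩ := hg
    rw [iota_word, Odd.neg_one_pow ((ZMod.natCast_eq_one_iff_odd).1 hl), neg_one_smul]
  | zero => simp
  | add x y _ _ h1 h2 => rw [mul_add, add_mul, h1, h2, neg_add]
  | smul c x _ h1 => rw [mul_smul_comm, smul_mul_assoc, h1, smul_neg]

lemma even_central {g : Grass F} (hg : g ∈ grassPart F 0) (h : Grass F) : h * g = g * h := by
  induction h using ExteriorAlgebra.induction with
  | algebraMap r => exact Algebra.commutes r g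
  | ι v => exact iota_even F hg v
  | mul a b ha hb => rw [mul_assoc, hb, ← mul_assoc, ha, mul_assoc]
  | add a b ha hb => rw [add_mul, mul_add, ha, hb]

lemma odd_swap {g : Grass F} (hg : g ∈ grassPart F 1) (h : Grass F) : ∃ h', h * g = g * h' := by
  induction h using ExteriorAlgebra.induction with
  | algebraMap r => exact ⟨_, Algebra.commutes r g⟩
  | ι v => exact ⟨-ExteriorAlgebra.ι F (M := ℕ →₀ F) v, by rw [iota_odd F hg v, mul_neg]⟩
  | mul a b ha hb =>
    obtain ⟨a', ha⟩ := ha
    obtain ⟨b', hb⟩ := hb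
    exact ⟨a' * b', by rw [mul_assoc, hb, ← mul_assoc, ha, mul_assoc]⟩
  | add a b ha hb =>
    obtain ⟨a', ha⟩ := ha
    obtain ⟨b', hb⟩ := hb
    exact ⟨a' + b', by rw [add_mul, mul_add, ha, hb]⟩

lemma odd_anti {g h : Grass F} (hg : g ∈ grassPart F 1) (hh : h ∈ grassPart F 1) :
    h * g = -(g * h) := by
  unfold grassPart at hh
  induction hh using Submodule.span_induction with
  | mem h hh =>
    obtain ⟨l, hl, rfl⟩ := hh
    have key : ∀ l : List ℕ, (l.map (gen F)).prod * g =
        (-1 : F) ^ l.length • (g * (l.map (gen F)).prod) := by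
      intro l
      induction l with
      | nil => simp
      | cons a l ih =>
        rw [List.map_cons, List.prod_cons, List.length_cons, pow_succ, mul_assoc, ih,
          mul_smul_comm, ← mul_assoc, gen, iota_odd F hg, neg_mul, mul_assoc, mul_smul,
          neg_one_smul]
    rw [key, Odd.neg_one_pow ((ZMod.natCast_eq_one_iff_odd).1 hl), neg_one_smul]
  | zero => simp
  | add x y _ _ h1 h2 => rw [mul_add, add_mul, h1, h2, neg_add]
  | smul c x _ h1 => rw [mul_smul_comm, smul_mul_assoc, h1, smul_neg]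

lemma odd_sq [CharZero F] {g : Grass F} (hg : g ∈ grassPart F 1) : g * g = 0 := by
  have h1 := odd_anti F hg hg
  have h2 : (2 : F) • (g * g) = 0 := by
    rw [two_smul]
    nth_rewrite 1 [h1]
    exact neg_add_cancel _
  exact (smul_eq_zero.1 h2).resolve_left two_ne_zero

/-- Products of more than `card κ` members of a family of odd elements vanish. -/
lemma odd_prod_mem [CharZero F] {κ : Type*} (δ : κ → Grass F) (hδ : ∀ i, δ i ∈ grassPart F 1)
    (a : κ) (l : List κ) (ha : a ∈ l) : δ a * (l.map δ).prod = 0 := by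
  induction l with
  | nil => simp at ha
  | cons b l ih =>
    rw [List.map_cons, List.prod_cons, ← mul_assoc]
    by_cases hab : a = b
    · subst hab
      rw [odd_sq F (hδ a), zero_mul]
    · rw [odd_anti F (hδ b) (hδ a), neg_mul, mul_assoc,
        ih ((List.mem_cons.1 ha).resolve_left hab), mul_zero, neg_zero]

lemma odd_prod_eq_zero [CharZero F] {κ : Type*} [Fintype κ] (δ : κ → Grass F)
    (hδ : ∀ i, δ i ∈ grassPart F 1) (l : List κ) (hl : Fintype.card κ < l.length) :
    (l.map δ).prod = 0 := by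
  have h1 : ¬ l.Nodup := fun h => absurd (h.length_le_card) (by omega)
  clear hl
  induction l with
  | nil => exact absurd List.nodup_nil h1
  | cons a l ih =>
    rw [List.map_cons, List.prod_cons]
    by_cases ha : a ∈ l
    · exact odd_prod_mem F δ hδ a l ha
    · rw [ih (fun h => h1 (List.nodup_cons.2 ⟨ha, h⟩)), mul_zero]

/-- A functional equal to `1` on a given word without repetitions. -/
lemma exists_functional (l : List ℕ) (hl : l.Nodup) :
    ∃ φ : Grass F →ₗ[F] F, φ (l.map (gen F)).prod = 1 := by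
  classical
  set n := l.length with hn
  let π : (ℕ →₀ F) →ₗ[F] (Fin n → F) :=
    LinearMap.pi fun j => Finsupp.lapply (l.get j)
  let D : (ℕ →₀ F) [⋀^Fin n]→ₗ[F] F := Matrix.detRowAlternating.compLinearMap π
  let f : ∀ i, (ℕ →₀ F) [⋀^Fin i]→ₗ[F] F := fun i =>
    if h : i = n then h ▸ D else 0
  have hf : f n = D := by simp [f]
  refine ⟨ExteriorAlgebra.liftAlternating f, ?_⟩
  have h1 : (l.map (gen F)).prod =
      ExteriorAlgebra.ιMulti F n (fun i : Fin n => Finsupp.single (l.get i) (1 : F)) := by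
    rw [ExteriorAlgebra.ιMulti_apply]
    congr 1
    conv_lhs => rw [← List.ofFn_get l, List.map_ofFn]
    rfl
  rw [h1, ExteriorAlgebra.liftAlternating_apply_ιMulti, hf]
  have h2 : D (fun i : Fin n => Finsupp.single (l.get i) (1 : F)) =
      Matrix.det (1 : Matrix (Fin n) (Fin n) F) := by
    change Matrix.det (Matrix.of fun i j => π (Finsupp.single (l.get i) (1 : F)) j) = _
    congr 1
    ext i j
    simp only [Matrix.of_apply, π, LinearMap.pi_apply, Finsupp.lapply_apply,
      Finsupp.single_apply, Matrix.one_apply]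
    by_cases hij : i = j
    · simp [hij]
    · have : l.get i ≠ l.get j := fun h => hij (hl.injective_get h)
      rw [if_neg this, if_neg hij]
  rw [h2, Matrix.det_one]

end Pool.Agent.MP_1670b2_al
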