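import Pool.Agent.Work.MP_1670b2_al.SR1
import Pool.Agent.Work.MP_1670b2_al.SR2

/-!
# No finite basic superrank, part 3: Grassmann envelopes satisfy the test identity
-/

set_option autoImplicit false

open scoped TensorProduct

namespace Pool.Agent.MP_1670b2_al

universe u

variable (F : Type u) [Field F] {A : Type u} [NonUnitalNonAssocRing A] [Module F A]
  [IsScalarTower F A A] [SMulCommClass F A A]

/-- Right multiplication on `G ⊗ A` is linear over `G` (acting on the left). -/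
noncomputable def RG (y : Grass F ⊗[F] A) : Module.End (Grass F) (Grass F ⊗[F] A) where
  toFun ω := ω * y
  map_add' a b := add_mul a b y
  map_smul' g ω := smul_mul_assoc g ω y

lemma RG_apply (y ω : Grass F ⊗[F] A) : RG F y ω = ω * y := rfl

lemma mul_even {γ : Grass F} (hγ : γ ∈ grassPart F 0) (a : A) (ω : Grass F ⊗[F] A) :
    ω * (γ ⊗ₜ[F] a) = γ • (ω * ((1 : Grass F) ⊗ₜ[F] a)) := by
  induction ω using TensorProduct.induction_on with
  | zero => simp
  | tmul g b =>
    rw [Algebra.TensorProduct.tmul_mul_tmul, Algebra.TensorProduct.tmul_mul_tmul,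
      TensorProduct.smul_tmul', mul_one, smul_eq_mul, even_central F hγ]
  | add x y hx hy => rw [add_mul, add_mul, smul_add, hx, hy]

lemma mul_odd {δ : Grass F} (hδ : δ ∈ grassPart F 1) (a : A) (ω : Grass F ⊗[F] A) :
    ∃ ω', ω * (δ ⊗ₜ[F] a) = δ • ω' := by
  induction ω using TensorProduct.induction_on with
  | zero => exact ⟨0, by simp⟩
  | tmul g b =>
    obtain ⟨g', hg'⟩ := odd_swap F hδ g
    refine ⟨g' ⊗ₜ[F] (b * a), ?_⟩
    rw [Algebra.TensorProduct.tmul_mul_tmul, TensorProduct.smul_tmul', smul_eq_mul, hg']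
  | add x y hx hy =>
    obtain ⟨x', hx⟩ := hx
    obtain ⟨y', hy⟩ := hy
    exact ⟨x' + y', by rw [add_mul, smul_add, hx, hy]⟩

lemma zmod2_cases (i : ZMod 2) : i = 0 ∨ i = 1 := by
  revert i
  decide

/-- The word of a given parity in the letter `c`. -/
def pw (c : ℕ) (i : ZMod 2) : List ℕ := if i = 0 then [] else [c]

lemma pw_length (c : ℕ) (i : ZMod 2) : ((pw c i).length : ZMod 2) = i := by
  rcases zmod2_cases i with rfl | rfl <;> simp [pw]

lemma pw_nodup (i j k : ZMod 2) : (pw 0 i ++ pw 1 j ++ pw 2 k).Nodup := by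
  unfold pw
  split_ifs <;> decide

/-- The envelope of a superalgebra satisfies `x(yz) = 0` only if the superalgebra does. -/
lemma mul_mul_eq_zero {𝒜 : ZMod 2 → Submodule F A} (h : IsSuper F A 𝒜)
    (hE : Satisfies F (envelope F h) (I1 F)) (a b c : A) : a * (b * c) = 0 := by
  have hom : ∀ i j k : ZMod 2, ∀ a ∈ 𝒜 i, ∀ b ∈ 𝒜 j, ∀ c ∈ 𝒜 k, a * (b * c) = 0 := by
    intro i j k a ha b hb c hc
    obtain ⟨φ, hφ⟩ := exists_functional F _ (pw_nodup i j k)
    have hmem : ∀ (t : ℕ) (i : ZMod 2) (a : A), a ∈ 𝒜 i →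
        (((pw t i).map (gen F)).prod ⊗ₜ[F] a : Grass F ⊗[F] A) ∈ envelope F h := by
      intro t i a ha
      exact Submodule.subset_span ⟨i, _, Submodule.subset_span ⟨pw t i, pw_length t i, rfl⟩,
        a, ha, rfl⟩
    let v : ℕ → envelope F h := fun t => if t = 0 then ⟨_, hmem 0 i a ha⟩ else
      if t = 1 then ⟨_, hmem 1 j b hb⟩ else ⟨_, hmem 2 k c hc⟩
    have h1 := hE v
    simp only [I1, X, map_mul, FreeNonUnitalNonAssocAlgebra.lift_of_apply] at h1
    have h2 := congrArg (fun z : envelope F h => (z : Grass F ⊗[F] A)) h1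
    simp only [NonUnitalSubalgebra.coe_mul, v, if_true, one_ne_zero, if_false,
      OfNat.ofNat_ne_zero, OfNat.ofNat_ne_one, Algebra.TensorProduct.tmul_mul_tmul,
      NonUnitalSubalgebra.coe_zero] at h2
    have h3 := congrArg (fun z => TensorProduct.lid F A (LinearMap.rTensor A φ z)) h2
    simp only [LinearMap.rTensor_tmul, TensorProduct.lid_tmul, map_zero] at h3
    rw [← List.prod_append, ← List.prod_append, ← List.map_append, ← List.map_append,
      ← List.append_assoc, hφ, one_smul] at h3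
    exact h3
  have hcompl : IsCompl (𝒜 0) (𝒜 1) :=
    (DirectSum.isInternal_submodule_iff_isCompl 𝒜 (i := 0) (j := 1) (by decide) (by
      ext i
      simpa using zmod2_cases i)).1 h.isInternal
  have hdec : ∀ a : A, ∃ a0 ∈ 𝒜 0, ∃ a1 ∈ 𝒜 1, a0 + a1 = a := by
    intro a
    have : a ∈ 𝒜 0 ⊔ 𝒜 1 := by rw [hcompl.sup_eq_top]; trivial
    exact Submodule.mem_sup.1 this
  obtain ⟨a0, ha0, a1, ha1, rfl⟩ := hdec a
  obtain ⟨b0, hb0, b1, hb1, rfl⟩ := hdec b
  obtain ⟨c0, hc0, c1, hc1, rfl⟩ := hdec c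
  simp only [mul_add, add_mul]
  rw [hom 0 0 0 a0 ha0 b0 hb0 c0 hc0, hom 0 0 1 a0 ha0 b0 hb0 c1 hc1,
    hom 0 1 0 a0 ha0 b1 hb1 c0 hc0, hom 0 1 1 a0 ha0 b1 hb1 c1 hc1,
    hom 1 0 0 a1 ha1 b0 hb0 c0 hc0, hom 1 0 1 a1 ha1 b0 hb0 c1 hc1,
    hom 1 1 0 a1 ha1 b1 hb1 c0 hc0, hom 1 1 1 a1 ha1 b1 hb1 c1 hc1]
  simp

/-- Generators span the algebra modulo products. -/
lemma span_gen {S : Set A} [Fintype S] (hS : NonUnitalAlgebra.adjoin F S = ⊤) (a : A) :
    ∃ (c : S → F), ∃ p ∈ Submodule.span F {q : A | ∃ x y, q = x * y},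
      a = ∑ s, c s • (s : A) + p := by
  classical
  have ha : a ∈ NonUnitalAlgebra.adjoin F S := by rw [hS]; trivial
  induction ha using NonUnitalAlgebra.adjoin_induction with
  | mem x hx =>
    refine ⟨Pi.single ⟨x, hx⟩ 1, 0, Submodule.zero_mem _, ?_⟩
    rw [add_zero, Finset.sum_eq_single ⟨x, hx⟩]
    · simp
    · intro b _ hb
      simp [Pi.single_eq_of_ne hb]
    · simp
  | add x y _ _ hx hy =>
    obtain ⟨c, p, hp, hx⟩ := hx
    obtain ⟨d, q, hq, hy⟩ := hy
    refine ⟨c + d, p + q, Submodule.add_mem _ hp hq, ?_⟩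
    nth_rewrite 1 [hx, hy]
    simp only [Pi.add_apply, add_smul, Finset.sum_add_distrib]
    abel
  | zero => exact ⟨0, 0, Submodule.zero_mem _, by simp⟩
  | mul x y _ _ _ _ =>
    exact ⟨0, x * y, Submodule.subset_span ⟨x, y, rfl⟩, by simp⟩
  | smul r x _ hx =>
    obtain ⟨c, p, hp, hx⟩ := hx
    refine ⟨r • c, r • p, Submodule.smul_mem _ _ hp, ?_⟩
    nth_rewrite 1 [hx]
    rw [smul_add, Finset.smul_sum]
    simp only [Pi.smul_apply, smul_assoc]

lemma mul_tmul_prod (hA : ∀ a b c : A, a * (b * c) = 0) (g : Grass F) (p : A)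
    (hp : p ∈ Submodule.span F {q : A | ∃ x y, q = x * y}) (ω : Grass F ⊗[F] A) :
    ω * (g ⊗ₜ[F] p) = 0 := by
  have h1 : ∀ a : A, a * p = 0 := by
    intro a
    induction hp using Submodule.span_induction with
    | mem x hx => obtain ⟨b, c, rfl⟩ := hx; exact hA a b c
    | zero => exact mul_zero a
    | add x y _ _ hx hy => rw [mul_add, hx, hy, add_zero]
    | smul c x _ hx => rw [mul_smul_comm, hx, smul_zero]
  induction ω using TensorProduct.induction_on with
  | zero => simp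
  | tmul h b => rw [Algebra.TensorProduct.tmul_mul_tmul, h1, TensorProduct.tmul_zero]
  | add x y hx hy => rw [add_mul, hx, hy, add_zero]

/-- Elements of the envelope act as combinations of the generators with homogeneous
coefficients. -/
lemma env_decomp {𝒜 : ZMod 2 → Submodule F A} (hA : ∀ a b c : A, a * (b * c) = 0)
    {S : Set A} [Fintype S] (hS : NonUnitalAlgebra.adjoin F S = ⊤) (y : Grass F ⊗[F] A)
    (hy : y ∈ envSpace F A 𝒜) :
    ∃ (γ δ : S → Grass F), (∀ s, γ s ∈ grassPart F 0) ∧ (∀ s, δ s ∈ grassPart F 1) ∧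
      ∀ ω : Grass F ⊗[F] A, ω * y =
        ∑ s, ω * (γ s ⊗ₜ[F] (s : A)) + ∑ s, ω * (δ s ⊗ₜ[F] (s : A)) := by
  have hz : ∀ i, (0 : Grass F) ∈ grassPart F i := fun i => Submodule.zero_mem _
  unfold envSpace at hy
  induction hy using Submodule.span_induction with
  | mem y hy =>
    obtain ⟨i, g, hg, a, ha, rfl⟩ := hy
    obtain ⟨c, p, hp, hap⟩ := span_gen F hS a
    have key : ∀ ω : Grass F ⊗[F] A, ω * (g ⊗ₜ[F] a) = ∑ s, ω * ((c s • g) ⊗ₜ[F] (s : A)) := by
      intro ω
      rw [hap, TensorProduct.tmul_add, mul_add, mul_tmul_prod F hA g p hp, add_zero,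
        TensorProduct.tmul_sum, Finset.mul_sum]
      refine Finset.sum_congr rfl fun s _ => ?_
      rw [TensorProduct.tmul_smul, TensorProduct.smul_tmul']
    rcases zmod2_cases i with rfl | rfl
    · refine ⟨fun s => c s • g, fun _ => 0, fun s => Submodule.smul_mem _ _ hg, fun _ => hz 1,
        fun ω => ?_⟩
      rw [key]
      simp
    · refine ⟨fun _ => 0, fun s => c s • g, fun _ => hz 0, fun s => Submodule.smul_mem _ _ hg,
        fun ω => ?_⟩
      rw [key]
      simp
  | zero => exact ⟨fun _ => 0, fun _ => 0, fun _ => hz 0, fun _ => hz 1, fun ω => by simp⟩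
  | add x y _ _ hx hy =>
    obtain ⟨γ, δ, h1, h2, h3⟩ := hx
    obtain ⟨γ', δ', h1', h2', h3'⟩ := hy
    refine ⟨γ + γ', δ + δ', fun s => Submodule.add_mem _ (h1 s) (h1' s),
      fun s => Submodule.add_mem _ (h2 s) (h2' s), fun ω => ?_⟩
    rw [mul_add, h3, h3']
    simp only [Pi.add_apply, TensorProduct.add_tmul, mul_add, Finset.sum_add_distrib]
    abel
  | smul c x _ hx =>
    obtain ⟨γ, δ, h1, h2, h3⟩ := hx
    refine ⟨c • γ, c • δ, fun s => Submodule.smul_mem _ _ (h1 s),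
      fun s => Submodule.smul_mem _ _ (h2 s), fun ω => ?_⟩
    rw [mul_smul_comm, h3, smul_add, Finset.smul_sum, Finset.smul_sum]
    simp only [Pi.smul_apply, ← TensorProduct.smul_tmul', mul_smul_comm]

lemma bop_mem_general {Z Ω : Type*} [CommRing Z] [AddCommGroup Ω] [Module Z Ω]
    (N : Submodule Z Ω) {n : ℕ} {ι : Type*} [Fintype ι] (r y : Fin n → Module.End Z Ω)
    (e : ι → Module.End Z Ω) (γ : Fin n → ι → Z) (hr : ∀ i, N ≤ N.comap (r i))
    (he : ∀ i, N ≤ N.comap (e i))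
    (hyy : ∀ j ω, y j ω - ∑ s, γ j s • e s ω ∈ N) (hk : Fintype.card ι < n) (ω : Ω) :
    bop r y ω ∈ N := by
  have h0 : bop (fun i => N.mapQ N (r i) (hr i))
      (fun j => ∑ s, γ j s • N.mapQ N (e s) (he s)) = 0 := bop_eq_zero _ _ γ hk
  have hIT : IT (N.mkQ.toAddMonoidHom) (bop r y)
      (bop (fun i => N.mapQ N (r i) (hr i)) (fun j => ∑ s, γ j s • N.mapQ N (e s) (he s))) := by
    refine IT.bop (fun i z => rfl) fun j z => ?_
    change N.mkQ (y j z) = (∑ s, γ j s • N.mapQ N (e s) (he s)) (N.mkQ z)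
    rw [LinearMap.sum_apply]
    simp only [LinearMap.smul_apply, Submodule.mkQ_apply, Submodule.mapQ_apply]
    rw [← sub_eq_zero]
    have h2 : (Submodule.Quotient.mk (y j z) : Ω ⧸ N) -
        ∑ s, γ j s • (Submodule.Quotient.mk (e s z) : Ω ⧸ N) =
        N.mkQ (y j z - ∑ s, γ j s • e s z) := by
      rw [map_sub, map_sum]
      simp only [map_smul, Submodule.mkQ_apply]
    rw [h2, Submodule.mkQ_apply, Submodule.Quotient.mk_eq_zero]
    exact hyy j z
  have h1 := hIT ω
  rw [h0] at h1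
  change N.mkQ _ = 0 at h1
  rwa [Submodule.mkQ_apply, Submodule.Quotient.mk_eq_zero] at h1

/-- Multiplication by central elements: the centre of the Grassmann algebra. -/
noncomputable abbrev ZG : Subalgebra F (Grass F) := Subalgebra.center F (Grass F)

section main

variable {F}
variable {κ : Type*}

/-- The span of `δ • Ω`. -/
noncomputable def Om1 (A : Type u) [NonUnitalNonAssocRing A] [Module F A]
    [IsScalarTower F A A] [SMulCommClass F A A] (δ : κ → Grass F) :
    Submodule (ZG F) (Grass F ⊗[F] A) :=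
  Submodule.span (ZG F) {x | ∃ (i : κ) (ω : Grass F ⊗[F] A), x = δ i • ω}

/-- Right multiplication as a map linear over the centre. -/
noncomputable def RZ (y : Grass F ⊗[F] A) : Module.End (ZG F) (Grass F ⊗[F] A) where
  toFun ω := ω * y
  map_add' a b := add_mul a b y
  map_smul' g ω := smul_mul_assoc (g : Grass F) ω y

lemma RZ_apply (y ω : Grass F ⊗[F] A) : RZ y ω = ω * y := rfl

lemma RZ_le (δ : κ → Grass F) (y : Grass F ⊗[F] A) :
    Om1 A δ ≤ (Om1 A δ).comap (RZ y) := by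
  unfold Om1
  rw [Submodule.span_le]
  rintro _ ⟨i, ω, rfl⟩
  refine Submodule.subset_span ⟨i, ω * y, ?_⟩
  rw [RZ_apply, smul_mul_assoc]

/-- `bop` maps `Ω` to `Om1`. -/
lemma bop_mem {n : ℕ} {ι : Type*} [Fintype ι] (hk : Fintype.card ι < n) (e : ι → A)
    (x y : Fin n → Grass F ⊗[F] A) (γ δ : Fin n → ι → Grass F)
    (hγ : ∀ j s, γ j s ∈ grassPart F 0) (hδ : ∀ j s, δ j s ∈ grassPart F 1)
    (hy : ∀ j, ∀ ω : Grass F ⊗[F] A, ω * y j =
        ∑ s, ω * (γ j s ⊗ₜ[F] e s) + ∑ s, ω * (δ j s ⊗ₜ[F] e s)) (ω : Grass F ⊗[F] A) :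
    bop (fun i => RG F (x i)) (fun j => RG F (y j)) ω ∈
      Om1 A (fun q : Fin n × ι => δ q.1 q.2) := by
  let γ' : Fin n → ι → ZG F := fun j s => ⟨γ j s, by
    rw [Subalgebra.mem_center_iff]
    exact fun b => even_central F (hγ j s) b⟩
  have h0 := bop_mem_general (Om1 A (fun q : Fin n × ι => δ q.1 q.2)) (fun i => RZ (x i))
    (fun j => RZ (y j)) (fun s => RZ ((1 : Grass F) ⊗ₜ[F] e s)) γ' (fun i => RZ_le _ _)
    (fun s => RZ_le _ _) (by
      intro j z
      rw [RZ_apply, hy j z]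
      have h1 : ∑ s, γ' j s • RZ ((1 : Grass F) ⊗ₜ[F] e s) z = ∑ s, z * (γ j s ⊗ₜ[F] e s) := by
        refine Finset.sum_congr rfl fun s _ => ?_
        rw [mul_even F (hγ j s)]
        rfl
      rw [h1, add_sub_cancel_left]
      refine Submodule.sum_mem _ fun s _ => ?_
      obtain ⟨ω', hω'⟩ := mul_odd F (hδ j s) (e s) z
      rw [hω']
      exact Submodule.subset_span ⟨(j, s), ω', rfl⟩) hk ω
  have hIT : IT (AddMonoidHom.id (Grass F ⊗[F] A))
      (bop (fun i => RG F (x i)) (fun j => RG F (y j)))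
      (bop (fun i => RZ (x i)) (fun j => RZ (y j))) :=
    IT.bop (fun i z => rfl) fun j z => rfl
  have h1 := hIT ω
  simp only [AddMonoidHom.id_apply] at h1
  rw [h1]
  exact h0

/-- Nilpotency. -/
lemma pow_kill [CharZero F] {κ : Type*} [Fintype κ] (δ : κ → Grass F)
    (hδ : ∀ i, δ i ∈ grassPart F 1) (b : Module.End (Grass F) (Grass F ⊗[F] A))
    (hb : ∀ ω, b ω ∈ Om1 A δ) : ∀ (r : ℕ) (l : List κ), Fintype.card κ < l.length + r →
      ∀ ω, (l.map δ).prod • (b ^ r) ω = 0 := by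
  intro r
  induction r with
  | zero =>
    intro l hl ω
    rw [odd_prod_eq_zero F δ hδ l (by omega), zero_smul]
  | succ r ih =>
    intro l hl ω
    rw [pow_succ, Module.End.mul_apply]
    have key : ∀ z ∈ Om1 A δ, (l.map δ).prod • (b ^ r) z = 0 := by
      intro z hz
      unfold Om1 at hz
      induction hz using Submodule.span_induction with
      | mem z hz =>
        obtain ⟨i, ω', rfl⟩ := hz
        rw [map_smul, smul_smul]
        have h1 := ih (l ++ [i]) (by rw [List.length_append, List.length_singleton]; omega) ω'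
        rwa [List.map_append, List.prod_append, List.map_singleton, List.prod_singleton] at h1
      | zero => rw [map_zero, smul_zero]
      | add x y _ _ hx hy => rw [map_add, smul_add, hx, hy, add_zero]
      | smul c x _ hx =>
        have h1 : c • x = (c : Grass F) • x := rfl
        rw [h1, map_smul, smul_smul, Subalgebra.mem_center_iff.1 c.2, mul_smul, hx, smul_zero]
    exact key _ (hb ω)

end main

end Pool.Agent.MP_1670b2_al
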