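import Pool.Agent.Work.MP_1670b2_al.Weights

/-!
Uniqueness of highest weight vectors of a given weight (Gaussian elimination).
-/

open MvPolynomial

namespace Pool.Agent.MP_1670b2_al

universe u

section

variable {F : Type u} [Field F]

/-- skew matrices -/
structure Skew (q : ℕ → ℕ → F) : Prop where
  sw : ∀ a b, q b a = - q a b
  dia : ∀ a, q a a = 0

/-- evaluation at a matrix -/
noncomputable def evq (q : ℕ → ℕ → F) : CC F →ₐ[F] F := aeval (fun p => q p.1.1 p.1.2)

theorem evq_X (q : ℕ → ℕ → F) (p : Var) : evq q (X p) = q p.1.1 p.1.2 := by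
  simp [evq]

theorem evq_Z {q : ℕ → ℕ → F} (hq : Skew q) (a b : ℕ) : evq q (Z F a b) = q a b := by
  rcases lt_trichotomy a b with h | h | h
  · rw [Z_lt h, evq_X]
  · subst h; rw [Z_self, map_zero, hq.dia]
  · rw [Z_swap, Z_lt h, map_neg, evq_X, hq.sw, neg_neg]

theorem evq_shear {q : ℕ → ℕ → F} (hq : Skew q) (s : ℕ) (t : ℕ →₀ F) (f : CC F) :
    evq q (phi (shear s t) f) = evq (fun a b => q a b + t a * q s b + t b * q a s) f := by
  have : (evq q).comp (phi (shear s t)) =
      evq (fun a b => q a b + t a * q s b + t b * q a s) := by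
    apply MvPolynomial.algHom_ext
    intro p
    rw [evq_X, AlgHom.comp_apply, ← Z_var, ← zz_ee, phi_zz, shear_ee, shear_ee]
    simp only [map_add, map_smul, LinearMap.add_apply, LinearMap.smul_apply, zz_ee,
      evq_Z hq, hq.dia, smul_eq_mul]
    ring
  rw [← this]; rfl

theorem skew_shear {q : ℕ → ℕ → F} (hq : Skew q) (s : ℕ) (t : ℕ →₀ F) :
    Skew (fun a b => q a b + t a * q s b + t b * q a s) := by
  constructor
  · intro a b
    rw [hq.sw a b, hq.sw a s, hq.sw s b]; ring
  · intro a
    rw [hq.dia, hq.sw a s]; ring

theorem evq_dg {q : ℕ → ℕ → F} (hq : Skew q) (t : ℕ → F) (f : CC F) :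
    evq q (phi (dg t) f) = evq (fun a b => t a * t b * q a b) f := by
  have : (evq q).comp (phi (dg t)) = evq (fun a b => t a * t b * q a b) := by
    apply MvPolynomial.algHom_ext
    intro p
    rw [evq_X, AlgHom.comp_apply, ← Z_var, ← zz_ee, phi_zz, dg_ee, dg_ee]
    simp only [map_smul, LinearMap.smul_apply, zz_ee, evq_Z hq, smul_eq_mul]
    ring
  rw [← this]; rfl

theorem evq_congr {q q' : ℕ → ℕ → F} {f : CC F} {N : ℕ} (hN : ∀ p ∈ f.vars, p.1.2 < N)
    (h : ∀ a b, a < b → b < N → q a b = q' a b) : evq q f = evq q' f := by
  have := MvPolynomial.hom_congr_vars (f₁ := (evq q : CC F →+* F)) (f₂ := (evq q' : CC F →+* F))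
    (p₁ := f) (p₂ := f) (by
      ext a
      simp) (fun p hp _ => by
      simp only [RingHom.coe_coe, evq_X]
      exact h _ _ p.2 (hN p hp)) rfl
  simpa using this

theorem exists_bound (f : CC F) : ∃ N : ℕ, ∀ p ∈ f.vars, p.1.2 < N := by
  classical
  refine ⟨f.vars.sup (fun p => p.1.2) + 1, fun p hp => ?_⟩
  have := Finset.le_sup (f := fun p : Var => p.1.2) hp
  omega

/-- the elimination step -/
theorem slice_aux [Infinite F] {f : CC F} (hf : Hwv f) {N : ℕ}
    (hN : ∀ p ∈ f.vars, p.1.2 < N)
    (htri : ∀ q : ℕ → ℕ → F, Skew q → (∀ a b, a + 2 ≤ b → q a b = 0) → evq q f = 0) :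
    ∀ k r : ℕ, r + k = N → ∀ q : ℕ → ℕ → F, Skew q →
      (∀ a < r, ∀ b, a + 2 ≤ b → b < N → q a b = 0) → evq q f = 0 := by
  classical
  intro k
  induction k with
  | zero =>
    intro r hr q hq hrow
    rw [add_zero] at hr
    subst hr
    have h1 : evq q f = evq (fun a b => if b = a + 1 ∨ a = b + 1 then q a b else 0) f := by
      apply evq_congr hN
      intro a b hab hb
      by_cases h : b = a + 1
      · rw [if_pos (Or.inl h)]
      · rw [if_neg (by omega)]
        exact hrow a (by omega) b (by omega) hb
    rw [h1]
    apply htri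
    · constructor
      · intro a b
        by_cases h : b = a + 1 ∨ a = b + 1
        · rw [if_pos h, if_pos (Or.symm h), hq.sw]
        · rw [if_neg h, if_neg (fun h' => h (Or.symm h')), neg_zero]
      · intro a; rw [if_neg (by omega)]
    · intro a b hab
      rw [if_neg (by omega)]
  | succ k ih =>
    intro r hr q hq hrow
    -- the case of a nonzero pivot
    have main : ∀ q : ℕ → ℕ → F, Skew q →
        (∀ a < r, ∀ b, a + 2 ≤ b → b < N → q a b = 0) → q r (r + 1) ≠ 0 → evq q f = 0 := by
      intro q hq hrow hpiv
      set t : ℕ →₀ F := Finsupp.onFinset (Finset.range N)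
        (fun j => if r + 2 ≤ j ∧ j < N then - q r j / q r (r + 1) else 0) (by
          intro j hj
          rw [Finset.mem_range]
          by_contra hc
          apply hj
          rw [if_neg (by omega)]) with ht
      have ht1 : ∀ j, t j = if r + 2 ≤ j ∧ j < N then - q r j / q r (r + 1) else 0 := by
        intro j; rw [ht, Finsupp.onFinset_apply]
      have ht0 : ∀ j ≤ r + 1, t j = 0 := by
        intro j hj; rw [ht1, if_neg (by omega)]
      have h2 := hf (r + 1) t (by omega) ht0
      rw [← h2, evq_shear hq]
      apply ih (r + 1) (by omega) _ (skew_shear hq _ _)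
      intro a ha b hab hb
      rw [ht0 a (by omega), zero_mul, add_zero]
      by_cases har : a = r
      · subst har
        rw [ht1, if_pos ⟨hab, hb⟩]
        field_simp
        ring
      · have ha' : a < r := by omega
        rw [hrow a ha' b hab hb, zero_add]
        by_cases hr1 : r + 1 < N
        · rw [hrow a ha' (r + 1) (by omega) hr1, mul_zero]
        · rw [ht1, if_neg (by omega), zero_mul]
    by_cases hpiv : q r (r + 1) = 0
    · -- perturbation
      set H : CC F →ₐ[F] Polynomial F := aeval (fun p => Polynomial.C (q p.1.1 p.1.2) +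
        if p.1.1 = r ∧ p.1.2 = r + 1 then Polynomial.X else 0) with hH
      have hev : ∀ τ : F, Polynomial.eval τ (H f) =
          evq (fun a b => q a b + (if a = r ∧ b = r + 1 then τ else 0) -
            (if b = r ∧ a = r + 1 then τ else 0)) f := by
        intro τ
        have : ((Polynomial.aeval τ : Polynomial F →ₐ[F] F).comp H) =
            evq (fun a b => q a b + (if a = r ∧ b = r + 1 then τ else 0) -
            (if b = r ∧ a = r + 1 then τ else 0)) := by
          apply MvPolynomial.algHom_ext
          intro p
          rw [evq_X, AlgHom.comp_apply, hH, aeval_X, map_add, Polynomial.aeval_C]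
          have hp := p.2
          rw [if_neg (by omega : ¬ (p.1.2 = r ∧ p.1.1 = r + 1)), sub_zero]
          congr 1
          split_ifs <;> simp
        rw [← this]
        simp
      have hH0 : H f = 0 := by
        apply Polynomial.eq_zero_of_infinite_isRoot
        apply Set.Infinite.mono (s := {τ : F | τ ≠ 0})
        · intro τ hτ
          rw [Set.mem_ofPred_eq, Polynomial.IsRoot.def, hev]
          apply main
          · constructor
            · intro a b
              rw [hq.sw a b]; ring
            · intro a
              rw [hq.dia]; ring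
          · intro a ha b hab hb
            rw [hrow a ha b hab hb, if_neg (by omega), if_neg (by omega)]; simp
          · rw [hpiv, if_pos ⟨rfl, rfl⟩, if_neg (by omega)]
            simpa using hτ
        · exact (Set.finite_singleton (0 : F)).infinite_compl
      have h3 := hev 0
      rw [hH0, Polynomial.eval_zero] at h3
      rw [h3]
      congr 2
      funext a b
      simp
    · exact main q hq hrow hpiv

theorem slice [Infinite F] {f : CC F} (hf : Hwv f)
    (htri : ∀ q : ℕ → ℕ → F, Skew q → (∀ a b, a + 2 ≤ b → q a b = 0) → evq q f = 0) :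
    f = 0 := by
  classical
  obtain ⟨N, hN⟩ := exists_bound f
  apply MvPolynomial.funext
  intro y
  rw [map_zero]
  have h1 := slice_aux hf hN htri N 0 (by omega)
    (fun a b => if h : a < b then y ⟨(a, b), h⟩ else if h' : b < a then - y ⟨(b, a), h'⟩ else 0)
    (by
      constructor
      · intro a b
        rcases lt_trichotomy a b with h | h | h
        · simp [h, h.not_gt]
        · subst h; simp
        · simp [h, h.not_gt]
      · intro a; simp)
    (by intro a ha; omega)
  rw [← h1]
  have : (evq (fun a b => if h : a < b then y ⟨(a, b), h⟩ else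
      if h' : b < a then - y ⟨(b, a), h'⟩ else 0) : CC F →ₐ[F] F) = aeval y := by
    apply MvPolynomial.algHom_ext
    intro p
    rw [evq_X, aeval_X]
    simp [p.2]
  rw [this]
  rfl

/-- base point -/
def q0 (a b : ℕ) : F := if b = a + 1 then 1 else if a = b + 1 then -1 else 0

theorem q0_skew : Skew (q0 : ℕ → ℕ → F) := by
  constructor
  · intro a b
    unfold q0
    by_cases h1 : b = a + 1
    · rw [if_neg (by omega), if_pos h1, if_pos h1]
    · by_cases h2 : a = b + 1
      · rw [if_pos h2, if_neg h1, if_pos h2, neg_neg]
      · rw [if_neg h2, if_neg h1, if_neg h1, if_neg h2, neg_zero]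
  · intro a
    unfold q0
    rw [if_neg (by omega), if_neg (by omega)]

/-- recursive torus element with prescribed consecutive products -/
noncomputable def tor (c : ℕ → F) : ℕ → F
  | 0 => 1
  | (n + 1) => c n / tor c n

theorem tor_ne_zero (c : ℕ → F) (n : ℕ) (h : ∀ i < n, c i ≠ 0) : tor c n ≠ 0 := by
  induction n with
  | zero => simp [tor]
  | succ n ih =>
    rw [tor]
    exact div_ne_zero (h n (by omega)) (ih (fun i hi => h i (by omega)))

/-- A highest weight vector of weight `α` vanishing at the base point is zero. -/
theorem hwv_unique [Infinite F] {f : CC F} (hf : Hwv f) {α : ℕ →₀ ℕ} (hα : IsW α f)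
    (h0 : evq q0 f = 0) : f = 0 := by
  classical
  apply slice hf
  obtain ⟨N, hN⟩ := exists_bound f
  set sl : CC F →ₐ[F] MvPolynomial ℕ F := aeval (fun p =>
    if p.1.2 = p.1.1 + 1 then X p.1.1 else 0) with hsl
  have hsl_ev : ∀ q : ℕ → ℕ → F, (∀ a b, a + 2 ≤ b → q a b = 0) →
      evq q f = eval (fun i => q i (i + 1)) (sl f) := by
    intro q hq
    have : evq q = (aeval (fun i => q i (i + 1)) : MvPolynomial ℕ F →ₐ[F] F).comp sl := by
      apply MvPolynomial.algHom_ext
      intro p
      rw [evq_X, AlgHom.comp_apply, hsl, aeval_X]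
      by_cases h : p.1.2 = p.1.1 + 1
      · rw [if_pos h, aeval_X, h]
      · rw [if_neg h, map_zero]
        have := p.2
        exact hq _ _ (by omega)
    rw [this]; rfl
  have hsl0 : sl f = 0 := by
    have h1 : sl f * ∏ i ∈ Finset.range N, (X i : MvPolynomial ℕ F) = 0 := by
      apply MvPolynomial.funext
      intro c
      rw [map_mul, map_zero, map_prod]
      simp only [eval_X]
      by_cases hc : ∀ i < N, c i ≠ 0
      · -- torus translate
        have h2 : evq (fun a b => tor c a * tor c b * q0 a b) f = 0 := by
          rw [← evq_dg q0_skew, phi_dg_isW _ (by simp [tor]) hα, map_smul, h0, smul_zero]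
        rw [hsl_ev _ (by
          intro a b hab
          unfold q0
          rw [if_neg (by omega), if_neg (by omega), mul_zero])] at h2
        have h3 : eval (fun i => tor c i * tor c (i + 1) * q0 i (i + 1)) (sl f) =
            eval c (sl f) := by
          have := MvPolynomial.hom_congr_vars
            (f₁ := (eval (fun i => tor c i * tor c (i + 1) * q0 i (i + 1))).comp (sl : CC F →+* _))
            (f₂ := (eval c).comp (sl : CC F →+* _)) (p₁ := f) (p₂ := f) (by
              ext a
              simp) (fun p hp _ => by
              simp only [RingHom.comp_apply, RingHom.coe_coe, hsl, aeval_X]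
              by_cases h : p.1.2 = p.1.1 + 1
              · rw [if_pos h, eval_X, eval_X]
                have h5 := hN p hp
                have h6 : tor c p.1.1 ≠ 0 := tor_ne_zero c _ (fun i hi => hc i (by omega))
                have h7 : (q0 p.1.1 (p.1.1 + 1) : F) = 1 := by simp [q0]
                rw [h7, mul_one, tor]
                field_simp
              · rw [if_neg h, map_zero, map_zero]) rfl
          simpa using this
        rw [h3] at h2
        rw [h2, zero_mul]
      · push Not at hc
        obtain ⟨i, hi, hci⟩ := hc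
        rw [Finset.prod_eq_zero (Finset.mem_range.mpr hi) hci, mul_zero]
    rcases mul_eq_zero.mp h1 with h2 | h2
    · exact h2
    · rw [Finset.prod_eq_zero_iff] at h2
      obtain ⟨i, _, hi⟩ := h2
      exact absurd hi (X_ne_zero i)
  intro q _ hq2
  rw [hsl_ev q hq2, hsl0, map_zero]

end

end Pool.Agent.MP_1670b2_al
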