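import Mathlib

/-!
Definitions used in the statement of the hand-in MP_1670b2_al.NoFiniteSuperrank: algebras
(not necessarily associative or unital) over a field, their identities, varieties, the finite
basis property, the Specht property, superalgebras, Grassmann envelopes and finite basic
superrank.
-/

open scoped TensorProduct

namespace Pool.Agent.MP_1670b2_al.Stmt

universe u

section Multiplication

variable {F : Type u} [Field F] {V : Type u} [AddCommGroup V] [Module F V]

/-- The value of the nonassociative word `w` in the variables `x₀, x₁, x₂, …` when `x_i` is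
replaced by `v i`, in the vector space `V` with the bilinear multiplication `m`. -/
noncomputable def evalWord (m : V →ₗ[F] V →ₗ[F] V) (v : ℕ → V) (w : FreeMagma ℕ) : V :=
  FreeMagma.rec v (fun _ _ a b => m a b) w

/-- The value of the nonassociative polynomial `f` (a linear combination of nonassociative
words) when `x_i` is replaced by `v i`. -/
noncomputable def evalPoly (m : V →ₗ[F] V →ₗ[F] V) (v : ℕ → V) (f : FreeMagma ℕ →₀ F) : V :=
  f.sum fun w c => c • evalWord m v w

/-- The multiplication `m` satisfies the identity `f = 0`. -/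
def IsIdentity (m : V →ₗ[F] V →ₗ[F] V) (f : FreeMagma ℕ →₀ F) : Prop :=
  ∀ v : ℕ → V, evalPoly m v f = 0

/-- The subspace `B` is closed under the multiplication `m`. -/
def IsClosed (m : V →ₗ[F] V →ₗ[F] V) (B : Submodule F V) : Prop :=
  ∀ x ∈ B, ∀ y ∈ B, m x y ∈ B

/-- `V` with the multiplication `m` is finitely generated: there is a finite set `S` such that
the only subspace of `V` that contains `S` and is closed under `m` is `V` itself. -/
def IsFinGen (m : V →ₗ[F] V →ₗ[F] V) : Prop :=
  ∃ S : Set V, S.Finite ∧ ∀ B : Submodule F V, IsClosed m B → S ⊆ B → B = ⊤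

/-- The subspaces `P 0` and `P 1` form a superalgebra structure for the multiplication `m`:
`V = P 0 ⊕ P 1` and `(P i) (P j) ⊆ P (i + j)` for all `i, j ∈ ℤ/2`. -/
def IsSuperStructure (m : V →ₗ[F] V →ₗ[F] V) (P : ZMod 2 → Submodule F V) : Prop :=
  IsCompl (P 0) (P 1) ∧ ∀ i j : ZMod 2, ∀ a ∈ P i, ∀ b ∈ P j, m a b ∈ P (i + j)

/-- The restriction of the multiplication `m` to a subspace `B` closed under it. -/
def restrictMul (m : V →ₗ[F] V →ₗ[F] V) (B : Submodule F V) (h : IsClosed m B) :
    B →ₗ[F] B →ₗ[F] B :=
  LinearMap.mk₂ F (fun x y : B => (⟨m x y, h x x.2 y y.2⟩ : B))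
    (fun _ _ _ => Subtype.ext (by simp)) (fun _ _ _ => Subtype.ext (by simp))
    (fun _ _ _ => Subtype.ext (by simp)) (fun _ _ _ => Subtype.ext (by simp))

/-- The multiplication `(g ⊗ a) (h ⊗ b) = (g h) ⊗ (a b)` on `R ⊗ V`, for an associative
algebra `R`. -/
noncomputable def tensorMul (R : Type u) [Ring R] [Algebra F R] (m : V →ₗ[F] V →ₗ[F] V) :
    R ⊗[F] V →ₗ[F] R ⊗[F] V →ₗ[F] R ⊗[F] V :=
  TensorProduct.map₂ (LinearMap.mul F R) m

/-- The component `G_i` (`i ∈ ℤ/2`) of the Grassmann algebra `G` on the generators
`e₀, e₁, e₂, …`: the span of the products `e_{l₁} e_{l₂} ⋯ e_{l_k}` with `k ≡ i` mod `2`. -/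
noncomputable def grassPart (F : Type u) [Field F] (i : ZMod 2) :
    Submodule F (ExteriorAlgebra F (ℕ →₀ F)) :=
  Submodule.span F {w | ∃ l : List ℕ, (l.length : ZMod 2) = i ∧
    w = (l.map fun j => ExteriorAlgebra.ι F (Finsupp.single j (1 : F))).prod}

/-- The subspace `G_0 ⊗ P 0 + G_1 ⊗ P 1` of `G ⊗ V`, where `G` is the Grassmann algebra. -/
noncomputable def envSpace (P : ZMod 2 → Submodule F V) :
    Submodule F (ExteriorAlgebra F (ℕ →₀ F) ⊗[F] V) :=
  Submodule.span F {t | ∃ i : ZMod 2, ∃ g ∈ grassPart F i, ∃ a ∈ P i, t = g ⊗ₜ[F] a}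

theorem grassPart_mul {i j : ZMod 2} {a b : ExteriorAlgebra F (ℕ →₀ F)}
    (ha : a ∈ grassPart F i) (hb : b ∈ grassPart F j) : a * b ∈ grassPart F (i + j) := by
  have h1 : a * b ∈ grassPart F i * grassPart F j := Submodule.mul_mem_mul ha hb
  refine (?_ : grassPart F i * grassPart F j ≤ _) h1
  unfold grassPart
  rw [Submodule.span_mul_span]
  refine Submodule.span_mono ?_
  rintro _ ⟨x, ⟨l, hl, rfl⟩, y, ⟨m, hm, rfl⟩, rfl⟩
  exact ⟨l ++ m, by simp [hl, hm], by simp⟩

theorem isClosed_envSpace (m : V →ₗ[F] V →ₗ[F] V) (P : ZMod 2 → Submodule F V)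
    (hP : IsSuperStructure m P) :
    IsClosed (tensorMul (ExteriorAlgebra F (ℕ →₀ F)) m) (envSpace P) := by
  intro x hx y hy
  unfold envSpace at hx hy ⊢
  induction hx using Submodule.span_induction with
  | mem x hx =>
    obtain ⟨i, g, hg, a, ha, rfl⟩ := hx
    induction hy using Submodule.span_induction with
    | mem y hy =>
      obtain ⟨j, g', hg', a', ha', rfl⟩ := hy
      exact Submodule.subset_span
        ⟨i + j, _, grassPart_mul hg hg', _, hP.2 i j a ha a' ha', rfl⟩
    | zero => rw [map_zero]; exact Submodule.zero_mem _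
    | add y z _ _ h1 h2 => rw [map_add]; exact Submodule.add_mem _ h1 h2
    | smul c y _ h1 => rw [map_smul]; exact Submodule.smul_mem _ _ h1
  | zero => rw [map_zero, LinearMap.zero_apply]; exact Submodule.zero_mem _
  | add y z _ _ h1 h2 => rw [map_add, LinearMap.add_apply]; exact Submodule.add_mem _ h1 h2
  | smul c y _ h1 => rw [map_smul, LinearMap.smul_apply]; exact Submodule.smul_mem _ _ h1

/-- The multiplication of the Grassmann envelope `G_0 ⊗ P 0 + G_1 ⊗ P 1`, a subalgebra of
`G ⊗ V`. -/
noncomputable def envMul (m : V →ₗ[F] V →ₗ[F] V) (P : ZMod 2 → Submodule F V)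
    (hP : IsSuperStructure m P) : envSpace P →ₗ[F] envSpace P →ₗ[F] envSpace P :=
  restrictMul (tensorMul (ExteriorAlgebra F (ℕ →₀ F)) m) (envSpace P) (isClosed_envSpace m P hP)

end Multiplication

section Varieties

/-- An algebra over the field `F` (not necessarily associative, not necessarily unital): a
vector space with a bilinear multiplication. -/
structure Alg (F : Type u) [Field F] where
  /-- the underlying set -/
  carrier : Type u
  [group : AddCommGroup carrier]
  [module : Module F carrier]
  /-- the multiplication -/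
  mul : carrier →ₗ[F] carrier →ₗ[F] carrier

attribute [instance] Alg.group Alg.module

variable {F : Type u} [Field F]

/-- The set of all identities of the algebra `A`. -/
def identities (A : Alg F) : Set (FreeMagma ℕ →₀ F) := {f | IsIdentity A.mul f}

/-- The variety defined by the set `E` of identities: the class of all algebras satisfying
all identities of `E`. -/
def variety (E : Set (FreeMagma ℕ →₀ F)) : Set (Alg F) := {A | ∀ f ∈ E, IsIdentity A.mul f}

/-- The variety generated by the algebra `A`: the class of all algebras satisfying all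
identities of `A`. -/
def generated (A : Alg F) : Set (Alg F) := variety (identities A)

/-- The algebra `A` has a finite basis of identities: the variety generated by `A` is defined
by finitely many identities. -/
def FinitelyBased (A : Alg F) : Prop :=
  ∃ S : Set (FreeMagma ℕ →₀ F), S.Finite ∧ variety S = generated A

/-- A class of algebras is Spechtian: each of its algebras has a finite basis of identities. -/
def Spechtian (V : Set (Alg F)) : Prop := ∀ A ∈ V, FinitelyBased A

/-- The Grassmann envelope `G(A) = G_0 ⊗ A_0 + G_1 ⊗ A_1` of the superalgebra `A = A_0 + A_1`,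
where `A_i = P i`. -/
noncomputable def envelope (A : Alg F) (P : ZMod 2 → Submodule F A.carrier)
    (hP : IsSuperStructure A.mul P) : Alg F where
  carrier := envSpace P
  mul := envMul A.mul P hP

/-- The class `V` of algebras has a finite basic superrank: it is the variety generated by the
Grassmann envelope of some finitely generated superalgebra `A = A_0 + A_1`, where `A_i = P i`. -/
def HasFiniteBasicSuperrank (V : Set (Alg F)) : Prop :=
  ∃ (A : Alg F) (P : ZMod 2 → Submodule F A.carrier) (hP : IsSuperStructure A.mul P),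
    IsFinGen A.mul ∧ V = generated (envelope A P hP)

/-- The variable `x_i`. -/
def x (i : ℕ) : FreeMagma ℕ := FreeMagma.of i

/-- The polynomial `x₀ (x₁ x₂)`. -/
noncomputable def I1 (F : Type u) [Field F] : FreeMagma ℕ →₀ F :=
  Finsupp.single (x 0 * (x 1 * x 2)) 1

/-- The polynomial `((x₀x₁)x₂)x₃ - ((x₀x₂)x₁)x₃ - ((x₀x₃)x₁)x₂ + ((x₀x₃)x₂)x₁`. -/
noncomputable def I2 (F : Type u) [Field F] : FreeMagma ℕ →₀ F :=
  Finsupp.single (((x 0 * x 1) * x 2) * x 3) 1 - Finsupp.single (((x 0 * x 2) * x 1) * x 3) 1
    - Finsupp.single (((x 0 * x 3) * x 1) * x 2) 1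
    + Finsupp.single (((x 0 * x 3) * x 2) * x 1) 1

end Varieties

end Pool.Agent.MP_1670b2_al.Stmt
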