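import Pool.Agent.Work.MP_1670b2_al.PBW

/-!
Surjectivity of `θ`, with degree control.
-/

open MvPolynomial

namespace Pool.Agent.MP_1670b2_al

universe u

section

variable {F : Type u} [Field F]

/-- words of length at most `n` -/
noncomputable def Wd (F : Type u) [Field F] (n : ℕ) : Submodule F (FreeAlgebra F ℕ) :=
  Submodule.span F {b | ∃ l : List ℕ, l.length ≤ n ∧ b = (l.map (FreeAlgebra.ι F)).prod}

theorem Wd_mono {m n : ℕ} (h : m ≤ n) : Wd F m ≤ Wd F n := by
  unfold Wd
  apply Submodule.span_mono
  rintro _ ⟨l, hl, rfl⟩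
  exact ⟨l, hl.trans h, rfl⟩

theorem ι_mul_Wd (k : ℕ) {n : ℕ} {b : FreeAlgebra F ℕ} (hb : b ∈ Wd F n) :
    FreeAlgebra.ι F k * b ∈ Wd F (n + 1) := by
  unfold Wd at hb
  induction hb using Submodule.span_induction with
  | mem x hx =>
    obtain ⟨l, hl, rfl⟩ := hx
    apply Submodule.subset_span
    exact ⟨k :: l, by simpa using hl, by simp⟩
  | zero => rw [mul_zero]; exact Submodule.zero_mem _
  | add x y _ _ hx hy => rw [mul_add]; exact Submodule.add_mem _ hx hy
  | smul c x _ hx => rw [mul_smul_comm]; exact Submodule.smul_mem _ _ hx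

/-- image of the words of length at most `n` -/
noncomputable def Th (F : Type u) [Field F] (n : ℕ) : Submodule F (CC F) :=
  (Wd F n).map (theta F)

theorem Th_mono {m n : ℕ} (h : m ≤ n) : Th F m ≤ Th F n := Submodule.map_mono (Wd_mono h)

theorem one_mem_Th (n : ℕ) : (1 : CC F) ∈ Th F n := by
  refine ⟨1, ?_, ?_⟩
  · apply Submodule.subset_span
    exact ⟨[], by simp, by simp⟩
  · rw [theta_apply, map_one (lam F)]; rfl

theorem theta_ι_mul (k : ℕ) (b : FreeAlgebra F ℕ) :
    theta F (FreeAlgebra.ι F k * b) = L (ee F (k + 1)) (theta F b) := by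
  rw [theta_apply, map_mul, lam_ι]; rfl

theorem L_mem_Th {k : ℕ} (hk : k ≠ 0) {n : ℕ} {f : CC F} (hf : f ∈ Th F n) :
    L (ee F k) f ∈ Th F (n + 1) := by
  obtain ⟨b, hb, rfl⟩ := hf
  obtain ⟨j, rfl⟩ := Nat.exists_eq_succ_of_ne_zero hk
  exact ⟨FreeAlgebra.ι F j * b, ι_mul_Wd j hb, theta_ι_mul j b⟩

theorem Z_mem_Th [CharZero F] {a b : ℕ} (ha : a ≠ 0) (hb : b ≠ 0) {n : ℕ} {f : CC F}
    (hf : f ∈ Th F n) : Z F a b * f ∈ Th F (n + 2) := by
  have h1 := L_comm (ee F a) (ee F b) (Finsupp.single_eq_of_ne (Ne.symm ha))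
    (Finsupp.single_eq_of_ne (Ne.symm hb)) f
  have h2 : Z F a b * f =
      (2 : F)⁻¹ • (L (ee F a) (L (ee F b) f) - L (ee F b) (L (ee F a) f)) := by
    rw [h1, zz_ee]
    have : (2 : CC F) = algebraMap F (CC F) 2 := (map_ofNat (algebraMap F (CC F)) 2).symm
    rw [this, mul_assoc, ← Algebra.smul_def, smul_smul, inv_mul_cancel₀ two_ne_zero, one_smul]
  rw [h2]
  apply Submodule.smul_mem
  exact Submodule.sub_mem _ (L_mem_Th ha (L_mem_Th hb hf)) (L_mem_Th hb (L_mem_Th ha hf))

/-- combined weight -/
def ww (q : Var) : ℤ × ℤ := (w0 q, (wd q : ℤ))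

theorem ww_Z {a b : ℕ} (ha : a ≠ 0) (hb : b ≠ 0) :
    IsWeightedHomogeneous ww (Z F a b) ((0, 2) : ℤ × ℤ) := by
  rcases lt_trichotomy a b with h | h | h
  · rw [Z_lt h]
    have := isWeightedHomogeneous_X F ww (⟨(a, b), h⟩ : Var)
    rw [ww, w0, wd, if_neg ha, if_neg ha] at this
    exact this
  · subst h; rw [Z_self]; exact isWeightedHomogeneous_zero _ _ _
  · rw [Z_swap, Z_lt h]
    have := isWeightedHomogeneous_X F ww (⟨(b, a), h⟩ : Var)
    rw [ww, w0, wd, if_neg hb, if_neg hb] at this
    exact this.neg

theorem derT0_ww {k : ℕ} (hk : k ≠ 0) {f : CC F} {n : ℤ × ℤ}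
    (hf : IsWeightedHomogeneous ww f n) :
    IsWeightedHomogeneous ww (der (T0 (ee F k)) f) (n + (-1, 1)) := by
  apply der_isWH ww _ _ _ hf
  intro q
  rw [← Z_var, ← zz_ee, der_zz, T0_apply, T0_apply]
  obtain ⟨⟨a, b⟩, hab⟩ := q
  simp only at hab
  have hb : b ≠ 0 := by omega
  simp only
  rw [Finsupp.single_eq_of_ne (Ne.symm hb), zero_smul, LinearMap.map_zero, add_zero]
  by_cases ha : a = 0
  · subst ha
    rw [Finsupp.single_eq_same, one_smul, zz_ee]
    have : ww ⟨(0, b), hab⟩ + (-1, 1) = ((0, 2) : ℤ × ℤ) := by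
      simp [ww, w0, wd]
    rw [this]
    exact ww_Z hk hb
  · rw [Finsupp.single_eq_of_ne (Ne.symm ha), zero_smul, LinearMap.map_zero,
      LinearMap.zero_apply]
    exact isWeightedHomogeneous_zero _ _ _

theorem ww_nonneg (d : Var →₀ ℕ) : 0 ≤ (Finsupp.weight ww d).1 ∧ 0 ≤ (Finsupp.weight ww d).2 := by
  rw [Finsupp.weight_apply, Finsupp.sum, Prod.fst_sum, Prod.snd_sum]
  constructor
  · apply Finset.sum_nonneg
    intro q _
    simp only [Prod.smul_fst, ww, w0]
    split_ifs <;> simp
  · apply Finset.sum_nonneg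
    intro q _
    simp only [Prod.smul_snd, ww, wd]
    positivity

theorem mono_mem_Th [CharZero F] (m : ℕ) : ∀ k : ℕ, ∀ d : Var →₀ ℕ,
    Finsupp.weight ww d = ((k : ℤ), (m : ℤ)) → (monomial d 1 : CC F) ∈ Th F m := by
  classical
  induction m using Nat.strong_induction_on with
  | _ m ihm =>
    intro k
    induction k using Nat.strong_induction_on with
    | _ k ihk =>
      intro d hd
      by_cases hd0 : d = 0
      · subst hd0
        exact one_mem_Th m
      · obtain ⟨q, hq⟩ := Finsupp.support_nonempty_iff.mpr hd0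
        have hq1 : 1 ≤ d q := Nat.one_le_iff_ne_zero.mpr (Finsupp.mem_support_iff.mp hq)
        obtain ⟨d', hd'⟩ : ∃ d', d = d' + Finsupp.single q 1 := by
          refine ⟨d - Finsupp.single q 1, ?_⟩
          rw [tsub_add_cancel_of_le]
          rw [Finsupp.single_le_iff]; exact hq1
        have hmul : (monomial d 1 : CC F) = monomial d' 1 * X q := by
          rw [hd', mono_add]; rfl
        have hw : Finsupp.weight ww d' + ww q = ((k : ℤ), (m : ℤ)) := by
          rw [← hd, hd', map_add]
          congr 1
          simp [Finsupp.weight_apply]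
        obtain ⟨⟨a, b⟩, hab⟩ := q
        simp only at hab
        have hb : b ≠ 0 := by omega
        have hnn := ww_nonneg d'
        have hw1 := congrArg Prod.fst hw
        have hw2 := congrArg Prod.snd hw
        simp only [Prod.fst_add, Prod.snd_add, ww, w0, wd] at hw1 hw2
        rw [hmul, mul_comm, ← Z_var]
        simp only
        by_cases ha : a = 0
        · subst ha
          simp only [if_true] at hw1 hw2
          push_cast at hw2
          have hm1 : 1 ≤ m := by omega
          have hk1 : 1 ≤ k := by omega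
          have hd'w : Finsupp.weight ww d' = (((k - 1 : ℕ) : ℤ), ((m - 1 : ℕ) : ℤ)) := by
            ext
            · push_cast [hk1]; omega
            · push_cast [hm1]; omega
          have h1 := ihm (m - 1) (by omega) (k - 1) d' hd'w
          have h2 := L_mem_Th hb h1
          rw [Nat.sub_add_cancel hm1, L_apply, zz_ee] at h2
          have h3 : der (T0 (ee F b)) (monomial d' 1) ∈ Th F m := by
            have h4 := derT0_ww (F := F) hb (isWeightedHomogeneous_monomial ww d' 1 hd'w)
            set g := der (T0 (ee F b)) (monomial d' 1) with hg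
            rw [g.as_sum]
            apply Submodule.sum_mem
            intro e he
            rw [monomial_smul]
            apply Submodule.smul_mem
            have h5 := h4 (mem_support_iff.mp he)
            have h6 := ww_nonneg e
            rw [h5] at h6
            have h7 := h6.1
            simp only [Prod.fst_add] at h7
            have hk2 : 2 ≤ k := by
              by_contra hc
              have : k = 1 := by omega
              subst this
              simp at h7
            apply ihk (k - 2) (by omega) e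
            rw [h5]
            ext
            · simp only [Prod.fst_add]; push_cast [hk1, hk2]; omega
            · simp only [Prod.snd_add]; push_cast [hm1]; omega
          have h4 := Submodule.sub_mem _ h2 h3
          rwa [add_sub_cancel_right] at h4
        · simp only [if_neg ha] at hw1 hw2
          push_cast at hw2
          have hm1 : 2 ≤ m := by omega
          have hd'w : Finsupp.weight ww d' = (((k : ℕ) : ℤ), ((m - 2 : ℕ) : ℤ)) := by
            ext
            · simp only; omega
            · push_cast [hm1]; omega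
          have h1 := ihm (m - 2) (by omega) k d' hd'w
          have h2 := Z_mem_Th ha hb h1
          rwa [Nat.sub_add_cancel hm1] at h2

theorem Low_le_Th [CharZero F] (n : ℕ) : Low F n ≤ Th F n := by
  intro f hf
  rw [mem_Low] at hf
  rw [f.as_sum]
  apply Submodule.sum_mem
  intro d hd
  rw [monomial_smul]
  apply Submodule.smul_mem
  have h1 := hf d (mem_support_iff.mp hd)
  apply Th_mono h1
  have h2 := ww_nonneg d
  apply mono_mem_Th _ (Finsupp.weight ww d).1.toNat
  ext
  · simp only [Int.toNat_of_nonneg h2.1]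
  · rw [Finsupp.weight_apply, Finsupp.weight_apply, Finsupp.sum, Finsupp.sum, Prod.snd_sum]
    push_cast
    apply Finset.sum_congr rfl
    intro q _
    simp [ww]

end

end Pool.Agent.MP_1670b2_al
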