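import Pool.Agent.Work.MP_1670b2_al.Adj

/-!
Weights, stable subspaces, highest weight vectors.
-/

open MvPolynomial

namespace Pool.Agent.MP_1670b2_al

universe u

/-- weight of an index -/
noncomputable def wv (a : ℕ) : ℕ →₀ ℕ := if a = 0 then 0 else Finsupp.single a 1

/-- weight of a variable -/
noncomputable def wt (p : Var) : ℕ →₀ ℕ := wv p.1.1 + wv p.1.2

theorem wv_zero : wv 0 = 0 := by simp [wv]

theorem wv_pos {a : ℕ} (h : a ≠ 0) : wv a = Finsupp.single a 1 := by simp [wv, h]

theorem wv_at_zero (a : ℕ) : wv a 0 = 0 := by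
  by_cases h : a = 0
  · subst h; rw [wv_zero]; rfl
  · rw [wv_pos h, Finsupp.single_eq_of_ne (Ne.symm h)]

theorem weight_at_zero (d : Var →₀ ℕ) : Finsupp.weight wt d 0 = 0 := by
  rw [Finsupp.weight_apply, Finsupp.sum, Finsupp.finsetSum_apply]
  apply Finset.sum_eq_zero
  intro p _
  simp [wt, wv_at_zero]

/-- moment of a weight -/
noncomputable def mm : (ℕ →₀ ℕ) →+ ℕ := Finsupp.liftAddHom (fun i => AddMonoidHom.mulRight i)

theorem mm_apply (α : ℕ →₀ ℕ) : mm α = α.sum (fun i k => k * i) := rfl

theorem mm_wv (a : ℕ) : mm (wv a) = a := by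
  by_cases h : a = 0
  · subst h; rw [wv_zero, map_zero]
  · rw [wv_pos h, mm_apply, Finsupp.sum_single_index] <;> simp

/-- moment of a monomial -/
noncomputable def mom (d : Var →₀ ℕ) : ℕ := mm (Finsupp.weight wt d)

theorem mom_add (d e : Var →₀ ℕ) : mom (d + e) = mom d + mom e := by
  simp [mom]

theorem mom_single (p : Var) : mom (Finsupp.single p 1) = p.1.1 + p.1.2 := by
  simp [mom, Finsupp.weight_apply, wt, mm_wv]

section

variable {F : Type u} [Field F]

/-- Weight homogeneous. -/
abbrev IsW (α : ℕ →₀ ℕ) (f : CC F) : Prop := IsWeightedHomogeneous wt f α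

/-- weight component -/
noncomputable abbrev wc (α : ℕ →₀ ℕ) (f : CC F) : CC F := weightedHomogeneousComponent wt α f

theorem isW_Z (a b : ℕ) : IsW (wv a + wv b) (Z F a b) := by
  rcases lt_trichotomy a b with h | h | h
  · rw [Z_lt h]; exact isWeightedHomogeneous_X F wt ⟨(a, b), h⟩
  · subst h; rw [Z_self]; exact isWeightedHomogeneous_zero _ _ _
  · rw [Z_swap, Z_lt h, add_comm]
    exact (isWeightedHomogeneous_X F wt ⟨(b, a), h⟩).neg

/-- torus character -/
noncomputable def tm (t : ℕ → F) (α : ℕ →₀ ℕ) : F := α.prod (fun i k => t i ^ k)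

theorem tm_add (t : ℕ → F) (α β : ℕ →₀ ℕ) : tm t (α + β) = tm t α * tm t β := by
  unfold tm
  rw [Finsupp.prod_add_index']
  · simp
  · intro a b c; rw [pow_add]

theorem tm_zero (t : ℕ → F) : tm t 0 = 1 := by simp [tm]

theorem tm_wv (t : ℕ → F) (h0 : t 0 = 1) (a : ℕ) : tm t (wv a) = t a := by
  by_cases h : a = 0
  · subst h; rw [wv_zero, tm_zero, h0]
  · rw [wv_pos h]; simp [tm]

theorem tm_congr {t t' : ℕ → F} (h : ∀ i, i ≠ 0 → t i = t' i) {α : ℕ →₀ ℕ} (hα : α 0 = 0) :
    tm t α = tm t' α := by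
  unfold tm
  apply Finsupp.prod_congr
  intro i hi
  rw [h i]
  rintro rfl
  rw [Finsupp.mem_support_iff] at hi
  exact hi hα

/-- diagonal map -/
noncomputable def dg (t : ℕ → F) : (ℕ →₀ F) →ₗ[F] (ℕ →₀ F) :=
  Finsupp.linearCombination F (fun i => t i • ee F i)

theorem dg_ee (t : ℕ → F) (i : ℕ) : dg t (ee F i) = t i • ee F i := by
  simp [dg]

theorem dg_coord (t : ℕ → F) (u : ℕ →₀ F) (i : ℕ) : dg t u i = t i * u i := by
  induction u using Finsupp.induction_linear with
  | zero => simp
  | add f g hf hg => rw [map_add, Finsupp.add_apply, hf, hg, Finsupp.add_apply, mul_add]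
  | single a c =>
    have : Finsupp.single a c = c • ee F a := by simp
    rw [this, map_smul, dg_ee]
    by_cases h : a = i
    · subst h; simp; ring
    · simp [Ne.symm h]

theorem dg_adj (t : ℕ → F) : Adj (dg t) (dg t) := by
  intro u v
  have : (dot F).comp (dg t) = (dot F).compl₂ (dg t) := by
    apply bil_ext
    intro a b
    rw [LinearMap.comp_apply, LinearMap.compl₂_apply, dg_ee, dg_ee, map_smul, map_smul,
      LinearMap.smul_apply, dot_ee]
    by_cases h : b = a
    · subst h; rfl
    · rw [Finsupp.single_eq_of_ne (Ne.symm h)]; simp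
  exact LinearMap.congr_fun (LinearMap.congr_fun this u) v

theorem dg_good (t : ℕ → F) (h0 : t 0 = 1) : Good (dg t) := by
  constructor
  · rw [dg_ee, h0, one_smul]
  · intro u; rw [dg_coord, h0, one_mul]

theorem phi_dg_monomial (t : ℕ → F) (h0 : t 0 = 1) (d : Var →₀ ℕ) :
    phi (dg t) (monomial d 1) = tm t (Finsupp.weight wt d) • (monomial d 1 : CC F) := by
  have key : ∀ d e : Var →₀ ℕ,
      phi (dg t) (monomial d 1) = tm t (Finsupp.weight wt d) • (monomial d 1 : CC F) →
      phi (dg t) (monomial e 1) = tm t (Finsupp.weight wt e) • (monomial e 1 : CC F) →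
      phi (dg t) (monomial (d + e) 1) =
        tm t (Finsupp.weight wt (d + e)) • (monomial (d + e) 1 : CC F) := by
    intro d e hd he
    have : (monomial (d + e) 1 : CC F) = monomial d 1 * monomial e 1 := by
      rw [monomial_mul, one_mul]
    rw [this, map_mul, hd, he, map_add, tm_add, smul_mul_smul_comm]
  induction d using Finsupp.induction_linear with
  | zero => simp [tm_zero]
  | add d e hd he => exact key d e hd he
  | single p n =>
    induction n with
    | zero => simp [tm_zero]
    | succ n ih =>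
      rw [Finsupp.single_add]
      apply key _ _ ih
      have h1 : (monomial (Finsupp.single p 1) 1 : CC F) = X p := rfl
      have h2 : Finsupp.weight wt (Finsupp.single p 1) = wt p := by
        simp [Finsupp.weight_apply]
      rw [h1, h2, ← Z_var, ← zz_ee, phi_zz, dg_ee, dg_ee, wt, tm_add, tm_wv t h0, tm_wv t h0]
      simp only [map_smul, LinearMap.smul_apply]
      rw [smul_smul, mul_comm]

theorem monomial_smul (d : Var →₀ ℕ) (a : F) :
    (monomial d a : CC F) = a • monomial d 1 := by
  rw [smul_monomial, smul_eq_mul, mul_one]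

theorem phi_dg_eq (t : ℕ → F) (h0 : t 0 = 1) (f : CC F) :
    phi (dg t) f = ∑ d ∈ f.support, (coeff d f * tm t (Finsupp.weight wt d)) •
      (monomial d 1 : CC F) := by
  conv_lhs => rw [f.as_sum]
  rw [map_sum]
  apply Finset.sum_congr rfl
  intro d _
  rw [monomial_smul, map_smul, phi_dg_monomial t h0, smul_smul]

theorem phi_dg_isW (t : ℕ → F) (h0 : t 0 = 1) {α : ℕ →₀ ℕ} {f : CC F} (hf : IsW α f) :
    phi (dg t) f = tm t α • f := by
  rw [phi_dg_eq t h0]
  conv_rhs => rw [f.as_sum]
  rw [Finset.smul_sum]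
  apply Finset.sum_congr rfl
  intro d hd
  rw [hf (mem_support_iff.mp hd), monomial_smul d (coeff d f), smul_smul, mul_comm]

/-- If a subspace contains all torus translates of `f`, it contains the weight components. -/
theorem wc_mem [Infinite F] (I : Submodule F (CC F)) (f : CC F)
    (h : ∀ t : ℕ → F, t 0 = 1 → phi (dg t) f ∈ I) (α : ℕ →₀ ℕ) : wc α f ∈ I := by
  classical
  by_contra hcon
  obtain ⟨ξ, h1, h2⟩ := Submodule.exists_le_ker_of_notMem hcon
  set Q : MvPolynomial ℕ F := ∑ d ∈ f.support,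
    monomial (Finsupp.weight wt d) (coeff d f * ξ (monomial d 1)) with hQ
  have hQ0 : Q = 0 := by
    apply MvPolynomial.funext
    intro t
    rw [map_zero, hQ, map_sum]
    have h3 := h (Function.update t 0 1) (by simp)
    have h4 : ξ (phi (dg (Function.update t 0 1)) f) = 0 := h2 h3
    rw [phi_dg_eq _ (by simp), map_sum] at h4
    rw [← h4]
    apply Finset.sum_congr rfl
    intro d _
    rw [eval_monomial, map_smul, smul_eq_mul]
    have : (Finsupp.weight wt d).prod (fun i k => t i ^ k) =
        tm (Function.update t 0 1) (Finsupp.weight wt d) := by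
      apply tm_congr _ (weight_at_zero d)
      intro i hi
      rw [Function.update_of_ne hi]
    rw [this]; ring
  apply h1
  have h5 : coeff α Q = 0 := by rw [hQ0]; simp
  rw [hQ, coeff_sum] at h5
  simp only [coeff_monomial] at h5
  change ξ (weightedHomogeneousComponent wt α f) = 0
  rw [weightedHomogeneousComponent_apply, map_sum, Finset.sum_filter]
  refine Eq.trans ?_ h5
  apply Finset.sum_congr rfl
  intro d _
  by_cases hd : Finsupp.weight wt d = α
  · rw [if_pos hd, if_pos hd, monomial_smul, map_smul, smul_eq_mul]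
  · rw [if_neg hd, if_neg hd]

/-- Stable subspaces -/
def Stable (I : Submodule F (CC F)) : Prop :=
  ∀ g g' : (ℕ →₀ F) →ₗ[F] (ℕ →₀ F), Good g → Adj g g' → ∀ f ∈ I, phi g f ∈ I

theorem Good.adj {g g' : (ℕ →₀ F) →ₗ[F] (ℕ →₀ F)} (hg : Good g) (h : Adj g g') : Good g' := by
  constructor
  · ext i
    rw [← dot_ee' i, h.symm, dot_comm, dot_ee', hg.c0]
    by_cases hi : i = 0
    · subst hi; rfl
    · simp [Ne.symm hi]
  · intro u
    rw [← dot_ee' 0, h.symm, hg.e0, dot_ee']

theorem Stable.wc_mem [Infinite F] {I : Submodule F (CC F)} (hI : Stable I) {f : CC F}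
    (hf : f ∈ I) (α : ℕ →₀ ℕ) : wc α f ∈ I :=
  Pool.Agent.MP_1670b2_al.wc_mem I f (fun t ht => hI _ _ (dg_good t ht) (dg_adj t) f hf) α

theorem exists_wc_ne_zero {f : CC F} (hf : f ≠ 0) : ∃ α, wc α f ≠ 0 := by
  classical
  obtain ⟨d, hd⟩ := MvPolynomial.ne_zero_iff.mp hf
  refine ⟨Finsupp.weight wt d, fun h => hd ?_⟩
  have := coeff_weightedHomogeneousComponent (w := wt) (Finsupp.weight wt d) f d
  rw [if_pos rfl] at this
  rw [← this]
  have h' : weightedHomogeneousComponent wt (Finsupp.weight wt d) f = 0 := h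
  rw [h', coeff_zero]

/-- the subspace of polynomials whose monomials have moment less than `m` -/
noncomputable def lowM (m : ℕ) : Submodule F (CC F) := restrictSupport F {d | mom d < m}

theorem mem_lowM {m : ℕ} {f : CC F} :
    f ∈ (lowM m : Submodule F (CC F)) ↔ ∀ d, coeff d f ≠ 0 → mom d < m := by
  unfold lowM
  rw [mem_restrictSupport_iff]
  constructor
  · intro h d hd
    exact h (mem_support_iff.mpr hd)
  · intro h d hd
    exact h d (mem_support_iff.mp hd)

theorem lowM_mul {a b : ℕ} {f g : CC F} (hf : f ∈ (lowM a : Submodule F (CC F)))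
    (hg : g ∈ (lowM (b + 1) : Submodule F (CC F))) :
    f * g ∈ (lowM (a + b) : Submodule F (CC F)) := by
  classical
  rw [mem_lowM] at *
  intro d hd
  have h1 := MvPolynomial.support_mul f g (mem_support_iff.mpr hd)
  rw [Finset.mem_add] at h1
  obtain ⟨x, hx, y, hy, rfl⟩ := h1
  have h2 := hf x (mem_support_iff.mp hx)
  have h3 := hg y (mem_support_iff.mp hy)
  rw [mom_add]
  omega

theorem lowM_mono {a b : ℕ} (h : a ≤ b) {f : CC F} (hf : f ∈ (lowM a : Submodule F (CC F))) :
    f ∈ (lowM b : Submodule F (CC F)) := by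
  rw [mem_lowM] at *
  intro d hd
  exact lt_of_lt_of_le (hf d hd) h

theorem isW_lowM {α : ℕ →₀ ℕ} {f : CC F} (hf : IsW α f) :
    f ∈ (lowM (mm α + 1) : Submodule F (CC F)) := by
  rw [mem_lowM]
  intro d hd
  unfold mom
  rw [hf hd]; omega

/-- shear: `e_j ↦ e_j + t_j e_s` -/
noncomputable def shear (s : ℕ) (t : ℕ →₀ F) : (ℕ →₀ F) →ₗ[F] (ℕ →₀ F) :=
  LinearMap.id + (dot F t).smulRight (ee F s)

/-- transpose of the shear -/
noncomputable def shear' (s : ℕ) (t : ℕ →₀ F) : (ℕ →₀ F) →ₗ[F] (ℕ →₀ F) :=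
  LinearMap.id + (Finsupp.lapply s : (ℕ →₀ F) →ₗ[F] F).smulRight t

theorem shear_apply (s : ℕ) (t u : ℕ →₀ F) : shear s t u = u + dot F t u • ee F s := rfl

theorem shear_ee (s : ℕ) (t : ℕ →₀ F) (j : ℕ) : shear s t (ee F j) = ee F j + t j • ee F s := by
  rw [shear_apply, dot_ee']

theorem shear_adj (s : ℕ) (t : ℕ →₀ F) : Adj (shear s t) (shear' s t) := by
  intro u v
  have h : shear' s t v = v + v s • t := rfl
  rw [shear_apply, h, map_add, map_add, LinearMap.add_apply, map_smul, map_smul,
    LinearMap.smul_apply, dot_ee, dot_comm t u, smul_eq_mul, smul_eq_mul, mul_comm]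

theorem shear_good {s : ℕ} (hs : 0 < s) {t : ℕ →₀ F} (ht : t 0 = 0) : Good (shear s t) := by
  constructor
  · rw [shear_ee, ht, zero_smul, add_zero]
  · intro u
    rw [shear_apply, Finsupp.add_apply, Finsupp.smul_apply,
      Finsupp.single_eq_of_ne (by omega : (0 : ℕ) ≠ s)]
    simp

/-- highest weight vectors -/
def Hwv (f : CC F) : Prop :=
  ∀ (s : ℕ) (t : ℕ →₀ F), 0 < s → (∀ j ≤ s, t j = 0) → phi (shear s t) f = f

theorem lowM_X (p : Var) : (X p : CC F) ∈ (lowM (p.1.1 + p.1.2 + 1) : Submodule F (CC F)) := by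
  have := isW_lowM (isWeightedHomogeneous_X F wt p : IsW (wt p) (X p : CC F))
  rwa [wt, map_add, mm_wv, mm_wv] at this

theorem lowM_Z (a b : ℕ) : Z F a b ∈ (lowM (a + b + 1) : Submodule F (CC F)) := by
  have := isW_lowM (isW_Z (F := F) a b)
  rwa [map_add, mm_wv, mm_wv] at this

theorem shear_low {s : ℕ} {t : ℕ →₀ F} (ht : ∀ j ≤ s, t j = 0) (d : Var →₀ ℕ) :
    phi (shear s t) (monomial d 1) - (monomial d 1 : CC F) ∈
      (lowM (mom d) : Submodule F (CC F)) := by
  have hmono : ∀ d : Var →₀ ℕ, (monomial d 1 : CC F) ∈ (lowM (mom d + 1) : Submodule F (CC F)) := by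
    intro d
    rw [mem_lowM]
    intro e he
    rw [coeff_monomial] at he
    split_ifs at he with h
    · subst h; omega
    · exact absurd rfl he
  have key : ∀ d e : Var →₀ ℕ,
      phi (shear s t) (monomial d 1) - (monomial d 1 : CC F) ∈
        (lowM (mom d) : Submodule F (CC F)) →
      phi (shear s t) (monomial e 1) - (monomial e 1 : CC F) ∈
        (lowM (mom e) : Submodule F (CC F)) →
      phi (shear s t) (monomial (d + e) 1) - (monomial (d + e) 1 : CC F) ∈
        (lowM (mom (d + e)) : Submodule F (CC F)) := by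
    intro d e hd he
    have h1 : (monomial (d + e) 1 : CC F) = monomial d 1 * monomial e 1 := by
      rw [monomial_mul, one_mul]
    have h2 : phi (shear s t) (monomial (d + e) 1) - (monomial (d + e) 1 : CC F) =
        (phi (shear s t) (monomial d 1) - monomial d 1) *
          ((phi (shear s t) (monomial e 1) - monomial e 1) + monomial e 1) +
        (phi (shear s t) (monomial e 1) - monomial e 1) * monomial d 1 := by
      rw [h1, map_mul]; ring
    rw [h2, mom_add]
    apply Submodule.add_mem
    · exact lowM_mul hd (Submodule.add_mem _ (lowM_mono (by omega) he) (hmono e))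
    · rw [add_comm (mom d)]
      exact lowM_mul he (hmono d)
  induction d using Finsupp.induction_linear with
  | zero => simp
  | add d e hd he => exact key d e hd he
  | single p n =>
    induction n with
    | zero => simp
    | succ n ih =>
      rw [Finsupp.single_add]
      apply key _ _ ih
      have h1 : (monomial (Finsupp.single p 1) 1 : CC F) = X p := rfl
      rw [h1, mom_single, ← Z_var, ← zz_ee, phi_zz, shear_ee, shear_ee]
      obtain ⟨⟨a, b⟩, hab⟩ := p
      simp only at hab ⊢
      have h3 : zz F (ee F a + t a • ee F s) (ee F b + t b • ee F s) - zz F (ee F a) (ee F b) =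
          t b • Z F a s + t a • Z F s b := by
        simp only [map_add, map_smul, LinearMap.add_apply, LinearMap.smul_apply, zz_ee, Z_self,
          smul_zero, add_zero]
        ring
      rw [h3]
      apply Submodule.add_mem
      · by_cases hb : b ≤ s
        · rw [ht b hb, zero_smul]; exact Submodule.zero_mem _
        · exact Submodule.smul_mem _ _ (lowM_mono (by omega) (lowM_Z a s))
      · by_cases ha : a ≤ s
        · rw [ht a ha, zero_smul]; exact Submodule.zero_mem _
        · exact Submodule.smul_mem _ _ (lowM_mono (by omega) (lowM_Z s b))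

theorem shear_low' {s : ℕ} {t : ℕ →₀ F} (ht : ∀ j ≤ s, t j = 0) {α : ℕ →₀ ℕ} {f : CC F}
    (hf : IsW α f) :
    phi (shear s t) f - f ∈ (lowM (mm α) : Submodule F (CC F)) := by
  have : phi (shear s t) f - f = ∑ d ∈ f.support, coeff d f •
      (phi (shear s t) (monomial d 1) - (monomial d 1 : CC F)) := by
    conv_lhs => rw [f.as_sum]
    rw [map_sum, ← Finset.sum_sub_distrib]
    apply Finset.sum_congr rfl
    intro d _
    rw [monomial_smul, map_smul, smul_sub]
  rw [this]
  apply Submodule.sum_mem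
  intro d hd
  apply Submodule.smul_mem
  have h := shear_low ht d (F := F)
  have : mom d = mm α := by unfold mom; rw [hf (mem_support_iff.mp hd)]
  rwa [this] at h

/-- permutation maps -/
noncomputable def pm (π : Equiv.Perm ℕ) : (ℕ →₀ F) →ₗ[F] (ℕ →₀ F) :=
  (Finsupp.domLCongr π : (ℕ →₀ F) ≃ₗ[F] (ℕ →₀ F)).toLinearMap

theorem pm_ee (π : Equiv.Perm ℕ) (i : ℕ) : pm π (ee F i) = ee F (π i) := by
  simp [pm]

theorem pm_adj (π : Equiv.Perm ℕ) : Adj (F := F) (pm π) (pm π.symm) := by
  intro u v
  have : (dot F).comp (pm π) = (dot F).compl₂ (pm π.symm) := by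
    apply bil_ext
    intro a b
    rw [LinearMap.comp_apply, LinearMap.compl₂_apply, pm_ee, pm_ee, dot_ee, dot_ee]
    by_cases h : b = π a
    · subst h; simp
    · rw [Finsupp.single_eq_of_ne (Ne.symm h), Finsupp.single_eq_of_ne]
      intro h'; apply h; rw [h']; simp
  exact LinearMap.congr_fun (LinearMap.congr_fun this u) v

theorem pm_good (π : Equiv.Perm ℕ) (h0 : π 0 = 0) : Good (F := F) (pm π) := by
  constructor
  · rw [pm_ee, h0]
  · intro u
    rw [← dot_ee' 0, pm_adj, pm_ee, dot_ee']
    congr 1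
    rw [Equiv.symm_apply_eq, h0]

theorem pm_isW (π : Equiv.Perm ℕ) (h0 : π 0 = 0) {α : ℕ →₀ ℕ} {f : CC F} (hf : IsW α f) :
    IsW (Finsupp.mapDomain π α) (phi (pm π) f) := by
  classical
  have hwv : ∀ a, Finsupp.mapDomain π (wv a) = wv (π a) := by
    intro a
    by_cases ha : a = 0
    · subst ha; rw [h0, wv_zero, Finsupp.mapDomain_zero]
    · rw [wv_pos ha, Finsupp.mapDomain_single, wv_pos]
      intro h
      apply ha
      apply π.injective
      rw [h, h0]
  have key : ∀ d : Var →₀ ℕ, IsW (Finsupp.mapDomain π (Finsupp.weight wt d))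
      (phi (pm π) (monomial d 1 : CC F)) := by
    have hadd : ∀ d e : Var →₀ ℕ, IsW (Finsupp.mapDomain π (Finsupp.weight wt d))
      (phi (pm π) (monomial d 1 : CC F)) → IsW (Finsupp.mapDomain π (Finsupp.weight wt e))
      (phi (pm π) (monomial e 1 : CC F)) → IsW (Finsupp.mapDomain π (Finsupp.weight wt (d + e)))
      (phi (pm π) (monomial (d + e) 1 : CC F)) := by
      intro d e hd he
      have h1 : (monomial (d + e) 1 : CC F) = monomial d 1 * monomial e 1 := by
        rw [monomial_mul, one_mul]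
      rw [h1, map_mul, map_add, Finsupp.mapDomain_add]
      exact hd.mul he
    intro d
    induction d using Finsupp.induction_linear with
    | zero =>
      have : (monomial 0 1 : CC F) = 1 := rfl
      rw [this, map_one, map_zero, Finsupp.mapDomain_zero]
      exact isWeightedHomogeneous_one _ _
    | add d e hd he => exact hadd d e hd he
    | single p n =>
      induction n with
      | zero =>
        rw [Finsupp.single_zero]
        have : (monomial 0 1 : CC F) = 1 := rfl
        rw [this, map_one, map_zero, Finsupp.mapDomain_zero]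
        exact isWeightedHomogeneous_one _ _
      | succ n ih =>
        rw [Finsupp.single_add]
        apply hadd _ _ ih
        have h1 : (monomial (Finsupp.single p 1) 1 : CC F) = X p := rfl
        have h2 : Finsupp.weight wt (Finsupp.single p 1) = wt p := by
          simp [Finsupp.weight_apply]
        rw [h1, h2, ← Z_var, ← zz_ee, phi_zz, pm_ee, pm_ee, wt, Finsupp.mapDomain_add, hwv, hwv,
          zz_ee]
        exact isW_Z _ _
  rw [f.as_sum, map_sum]
  apply IsWeightedHomogeneous.sum
  intro d hd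
  rw [monomial_smul, map_smul, smul_eq_C_mul]
  apply IsWeightedHomogeneous.C_mul
  have := key d
  rwa [hf (mem_support_iff.mp hd)] at this

theorem phi_pm_ne_zero (π : Equiv.Perm ℕ) {f : CC F} (hf : f ≠ 0) : phi (pm π) f ≠ 0 := by
  intro h
  apply hf
  have h1 : phi (pm π.symm) (phi (pm π) f) = f := by
    rw [← AlgHom.comp_apply, phi_comp]
    have : (pm π.symm : (ℕ →₀ F) →ₗ[F] (ℕ →₀ F)).comp (pm π) = LinearMap.id := by
      ext i
      simp [pm]
    rw [this, phi_id]; rfl
  rw [← h1, h, map_zero]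

theorem mm_swap (α : ℕ →₀ ℕ) (i : ℕ) :
    mm (Finsupp.mapDomain (Equiv.swap i (i + 1)) α) + α (i + 1) = mm α + α i := by
  induction α using Finsupp.induction_linear with
  | zero => simp
  | add f g hf hg =>
    rw [Finsupp.mapDomain_add, AddMonoidHom.map_add, AddMonoidHom.map_add, Finsupp.add_apply,
      Finsupp.add_apply]
    omega
  | single a c =>
    rw [Finsupp.mapDomain_single]
    have hs : ∀ a c, mm (Finsupp.single a c) = c * a := by
      intro a c
      rw [mm_apply, Finsupp.sum_single_index]; simp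
    rw [hs, hs]
    by_cases h1 : a = i
    · subst h1
      rw [Equiv.swap_apply_left, Finsupp.single_eq_same,
        Finsupp.single_eq_of_ne (by omega : a + 1 ≠ a)]
      ring
    · by_cases h2 : a = i + 1
      · subst h2
        rw [Equiv.swap_apply_right, Finsupp.single_eq_same,
          Finsupp.single_eq_of_ne (by omega : i ≠ i + 1)]
        ring
      · rw [Equiv.swap_apply_of_ne_of_ne h1 h2, Finsupp.single_eq_of_ne (Ne.symm h1),
          Finsupp.single_eq_of_ne (Ne.symm h2)]

/-- Existence of a highest weight vector in a nonzero stable subspace. -/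
theorem exists_hwv [Infinite F] {I : Submodule F (CC F)} (hI : Stable I) (hne : I ≠ ⊥) :
    ∃ f ∈ I, f ≠ 0 ∧ Hwv f ∧ ∃ α, IsW α f ∧ α 0 = 0 ∧ ∀ i, 0 < i → α (i + 1) ≤ α i := by
  classical
  have hex : ∃ m : ℕ, ∃ f ∈ I, f ≠ 0 ∧ ∃ α, IsW α f ∧ mm α = m := by
    obtain ⟨f, hf, hf0⟩ := Submodule.exists_mem_ne_zero_of_ne_bot hne
    obtain ⟨α, hα⟩ := exists_wc_ne_zero hf0
    exact ⟨mm α, wc α f, hI.wc_mem hf α, hα, α,
      weightedHomogeneousComponent_isWeightedHomogeneous α f, rfl⟩
  obtain ⟨f, hf, hf0, α, hα, hm⟩ := Nat.find_spec hex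
  have hmin : ∀ g ∈ I, g ≠ 0 → ∀ β, IsW β g → mm α ≤ mm β := by
    intro g hg hg0 β hβ
    rw [hm]
    exact Nat.find_min' hex ⟨g, hg, hg0, β, hβ, rfl⟩
  refine ⟨f, hf, hf0, ?_, α, hα, ?_, ?_⟩
  · intro s t hs ht
    by_contra hcon
    have h1 : phi (shear s t) f - f ∈ I :=
      Submodule.sub_mem _ (hI _ _ (shear_good hs (ht 0 (Nat.zero_le _))) (shear_adj s t) f hf) hf
    have h2 := shear_low' ht hα
    obtain ⟨β, hβ⟩ := exists_wc_ne_zero (sub_ne_zero.mpr hcon)
    have h3 := hmin _ (hI.wc_mem h1 β) hβ β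
      (weightedHomogeneousComponent_isWeightedHomogeneous β _)
    obtain ⟨d, hd⟩ := MvPolynomial.ne_zero_iff.mp hβ
    rw [coeff_weightedHomogeneousComponent] at hd
    split_ifs at hd with h4
    · have h5 := mem_lowM.mp h2 d hd
      unfold mom at h5
      rw [h4] at h5
      omega
    · exact hd rfl
  · obtain ⟨d, hd⟩ := MvPolynomial.ne_zero_iff.mp hf0
    rw [← hα hd]
    exact weight_at_zero d
  · intro i hi
    have h0 : (Equiv.swap i (i + 1)) 0 = 0 :=
      Equiv.swap_apply_of_ne_of_ne (by omega) (by omega)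
    have h1 := hmin _ (hI _ _ (pm_good _ h0) (pm_adj _) f hf) (phi_pm_ne_zero _ hf0) _
      (pm_isW _ h0 hα)
    have h2 := mm_swap α i
    omega

end

end Pool.Agent.MP_1670b2_al
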