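import Pool.Agent.Work.MP_1670b2_al.Pf

/-!
The highest weight vectors `P_w`.
-/

open MvPolynomial

namespace Pool.Agent.MP_1670b2_al

universe u

section

variable {F : Type u} [Field F]

/-- standard arguments `e_1, …, e_n` -/
noncomputable def st (F : Type u) [Field F] (n : ℕ) : Fin n → (ℕ →₀ F) :=
  fun i => ee F ((i : ℕ) + 1)

variable (F) in
/-- `p_n(e_1, …, e_n)` -/
noncomputable def pe (n : ℕ) : CC F := p F n (st F n)

theorem pe_zero : pe F 0 = 1 := rfl

/-- index shift skipping `k` -/
def sidx (k j : ℕ) : ℕ := if j < k then j else j + 1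

theorem sidx_inj (k : ℕ) : Function.Injective (sidx k) := by
  intro a b h
  unfold sidx at h
  split_ifs at h <;> omega

/-- the linear map skipping `e_k` -/
noncomputable def sh (k : ℕ) : (ℕ →₀ F) →ₗ[F] (ℕ →₀ F) := Finsupp.lmapDomain F F (sidx k)

theorem sh_ee (k j : ℕ) : sh k (ee F j) = ee F (sidx k j) := by
  simp [sh]

/-- transpose of `sh k` -/
noncomputable def sh' (k : ℕ) : (ℕ →₀ F) →ₗ[F] (ℕ →₀ F) :=
  Finsupp.lcomapDomain (sidx k) (sidx_inj k)

theorem sh'_coord (k : ℕ) (u : ℕ →₀ F) (j : ℕ) : sh' k u j = u (sidx k j) := rfl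

theorem sh_adj (k : ℕ) : Adj (F := F) (sh k) (sh' k) := by
  intro u v
  have : (dot F).comp (sh k) = (dot F).compl₂ (sh' k) := by
    apply bil_ext
    intro a b
    rw [LinearMap.comp_apply, LinearMap.compl₂_apply, sh_ee, dot_ee, dot_ee, sh'_coord]
  exact LinearMap.congr_fun (LinearMap.congr_fun this u) v

theorem sh_good {k : ℕ} (hk : k ≠ 0) : Good (F := F) (sh k) := by
  have h0 : sidx k 0 = 0 := by unfold sidx; rw [if_pos (by omega)]
  constructor
  · rw [sh_ee, h0]
  · intro u
    have : sh' k (ee F 0) = ee F 0 := by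
      ext j
      rw [sh'_coord]
      unfold sidx
      split_ifs with h
      · rfl
      · rw [Finsupp.single_eq_of_ne (by omega), Finsupp.single_eq_of_ne (by omega)]
    rw [← dot_ee' 0 (sh k u), sh_adj k u, this, dot_ee']

theorem phi_pe {g : (ℕ →₀ F) →ₗ[F] (ℕ →₀ F)} (hg : Good g) (n : ℕ) :
    phi g (pe F n) = p F n (fun i => g (st F n i)) := phi_A hg n _

theorem phi_sh_pe {k n : ℕ} (h : n < k) : phi (sh k) (pe F n) = pe F n := by
  rw [phi_pe (sh_good (by omega))]
  unfold pe
  congr 1
  funext i
  unfold st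
  rw [sh_ee]
  unfold sidx
  rw [if_pos (by omega)]

theorem A_eps_st (k : ℕ) (n : ℕ) (f : Alt F n) :
    A (eps k) f (st F (n + 1)) =
      if h : 1 ≤ k ∧ k ≤ n + 1 then
        (-1) ^ (k - 1) • f (Fin.removeNth ⟨k - 1, by omega⟩ (st F (n + 1))) else 0 := by
  rw [A_apply]
  have h1 : ∀ i : Fin (n + 1), eps k (st F (n + 1) i) = if (i : ℕ) + 1 = k then 1 else 0 := by
    intro i
    rw [eps_apply, st]
    by_cases h : (i : ℕ) + 1 = k
    · rw [if_pos h, ← h, Finsupp.single_eq_same, map_one]
    · rw [if_neg h, Finsupp.single_eq_of_ne (Ne.symm h), map_zero]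
  split_ifs with h
  · rw [Finset.sum_eq_single (⟨k - 1, by omega⟩ : Fin (n + 1))]
    · rw [h1, if_pos (by simp only; omega), one_mul]
    · intro i _ hi
      rw [h1, if_neg, zero_mul, smul_zero]
      intro hik
      apply hi
      ext
      simp only
      omega
    · intro h; exact absurd (Finset.mem_univ _) h
  · apply Finset.sum_eq_zero
    intro i _
    rw [h1, if_neg (by omega), zero_mul, smul_zero]

theorem removeNth_st {k n : ℕ} (h1 : 1 ≤ k) (hk : k - 1 < n + 1) :
    Fin.removeNth ⟨k - 1, hk⟩ (st F (n + 1)) = fun i => sh k (st F n i) := by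
  funext i
  unfold st
  rw [sh_ee, Fin.removeNth_apply]
  congr 1
  unfold sidx Fin.succAbove
  by_cases h : (i : ℕ) < k - 1
  · rw [if_pos (by simpa [Fin.lt_def] using h), if_pos (by omega)]
    simp
  · rw [if_neg (by simpa [Fin.lt_def] using h), if_neg (by omega)]
    simp

theorem D_pe [CharZero F] {k n : ℕ} (h1 : 1 ≤ k) (h2 : k ≤ n + 1) :
    ∃ c : F, c ≠ 0 ∧ D k (pe F (n + 1)) = c • phi (sh k) (pe F n) := by
  have h := congrArg (fun f : Alt F (n + 1) => f (st F (n + 1))) (Dc_p (F := F)
    (by omega : k ≠ 0) n)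
  rw [Dc_apply, AlternatingMap.smul_apply, A_eps_st, dif_pos ⟨h1, h2⟩,
    removeNth_st h1, ← phi_pe (sh_good (by omega))] at h
  refine ⟨(cc n : F) * (-1) ^ (k - 1), ?_, ?_⟩
  · apply mul_ne_zero
    · have := cc_pos n
      exact_mod_cast this.ne'
    · exact pow_ne_zero _ (by norm_num)
  · unfold pe at h ⊢
    rw [h, mul_smul]
    congr 1
    rcases Nat.even_or_odd (k - 1) with he | ho
    · rw [he.neg_one_pow, he.neg_one_pow, one_smul, one_smul]
    · rw [ho.neg_one_pow, ho.neg_one_pow, neg_smul, neg_smul, one_smul, one_smul]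

theorem D_pe_zero [CharZero F] {k n : ℕ} (h1 : 1 ≤ k) (h2 : n < k) : D k (pe F n) = 0 := by
  cases n with
  | zero => rw [pe_zero]; simp
  | succ n =>
    have h := congrArg (fun f : Alt F (n + 1) => f (st F (n + 1))) (Dc_p (F := F)
      (by omega : k ≠ 0) n)
    rw [Dc_apply, AlternatingMap.smul_apply, A_eps_st, dif_neg (by omega), smul_zero] at h
    exact h

theorem pe_ne_zero [CharZero F] (n : ℕ) : pe F n ≠ 0 := by
  induction n with
  | zero => rw [pe_zero]; exact one_ne_zero
  | succ n ih =>
    intro h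
    obtain ⟨c, hc, h1⟩ := D_pe (F := F) (k := n + 1) (n := n) (by omega) le_rfl
    rw [h, map_zero, phi_sh_pe (by omega)] at h1
    exact (smul_ne_zero hc ih) h1.symm

theorem D_phi_sh {k : ℕ} (f : CC F) : D k (phi (sh k) f) = 0 := by
  induction f using MvPolynomial.induction_on with
  | C a =>
    have h1 : (C a : CC F) = algebraMap F (CC F) a := rfl
    rw [h1, AlgHom.commutes, Derivation.map_algebraMap]
  | add q r hq hr => rw [map_add, map_add, hq, hr, add_zero]
  | mul_X q v hq =>
    rw [map_mul, Derivation.leibniz, hq, smul_zero, add_zero, ← Z_var, ← zz_ee, phi_zz,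
      sh_ee, sh_ee, D_zz]
    have h1 : ∀ j, (ee F (sidx k j)) k = 0 := by
      intro j
      apply Finsupp.single_eq_of_ne
      unfold sidx
      split_ifs <;> omega
    rw [h1, h1]
    simp

/-! ### general principle -/

theorem xx_ee (a : ℕ) : xx (ee F a) = Z F 0 a := zz_ee 0 a

theorem yy_ee (a b : ℕ) : yy (ee F a) (ee F b) = if a = 0 ∨ b = 0 then 0 else Z F a b := by
  rw [yy_apply]
  by_cases ha : a = 0
  · subst ha; rw [pr_ee0]; simp
  · by_cases hb : b = 0
    · subst hb; rw [pr_ee0]; simp
    · rw [pr_ee ha, pr_ee hb, zz_ee, if_neg (by omega)]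

theorem p_family (M : (n : ℕ) → (Fin n → ℕ) → AddSubgroup (CC F))
    (h0 : ∀ idx : Fin 0 → ℕ, (1 : CC F) ∈ M 0 idx)
    (h1 : ∀ idx : Fin 1 → ℕ, Z F 0 (idx 0) ∈ M 1 idx)
    (h2 : ∀ (n : ℕ) (idx : Fin (n + 2) → ℕ) (i : Fin (n + 2)) (j : Fin (n + 1)),
      ∀ g ∈ M n (Fin.removeNth j (Fin.removeNth i idx)),
        idx i ≠ 0 → Fin.removeNth i idx j ≠ 0 →
        Z F (idx i) (Fin.removeNth i idx j) * g ∈ M (n + 2) idx) (n : ℕ) :
    ∀ idx : Fin n → ℕ, p F n (fun i => ee F (idx i)) ∈ M n idx := by
  induction n using Nat.twoStepInduction with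
  | zero => intro idx; rw [p_zero]; exact h0 idx
  | one =>
    intro idx
    rw [p_one, A_apply]
    apply AddSubgroup.sum_mem
    intro i _
    apply AddSubgroup.zsmul_mem
    rw [p_zero, mul_one, xx_ee]
    obtain ⟨i, hi⟩ := i
    have : i = 0 := by omega
    subst this
    exact h1 idx
  | more n ih _ =>
    intro idx
    rw [p_add_two, A2_apply]
    apply AddSubgroup.sum_mem
    intro i _
    apply AddSubgroup.zsmul_mem
    apply AddSubgroup.sum_mem
    intro j _
    apply AddSubgroup.zsmul_mem
    have h3 : (Fin.removeNth i fun i => ee F (idx i)) j = ee F (Fin.removeNth i idx j) := rfl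
    have h4 : (Fin.removeNth j (Fin.removeNth i fun i => ee F (idx i))) =
      fun l => ee F (Fin.removeNth j (Fin.removeNth i idx) l) := rfl
    rw [h3, h4, yy_ee]
    split_ifs with h
    · rw [zero_mul]; exact AddSubgroup.zero_mem _
    · push Not at h
      exact h2 n idx i j _ (ih _) h.1 h.2

theorem p_isW (n : ℕ) (idx : Fin n → ℕ) :
    IsW (∑ i, wv (idx i)) (p F n (fun i => ee F (idx i))) := by
  have := p_family (F := F) (fun n idx =>
    (weightedHomogeneousSubmodule F wt (∑ i, wv (idx i))).toAddSubgroup) ?_ ?_ ?_ n idx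
  · exact this
  · intro idx
    change IsWeightedHomogeneous wt (1 : CC F) (∑ i : Fin 0, wv (idx i))
    rw [Finset.univ_eq_empty, Finset.sum_empty]
    exact isWeightedHomogeneous_one _ _
  · intro idx
    change IsWeightedHomogeneous wt (Z F 0 (idx 0)) (∑ i : Fin 1, wv (idx i))
    have := isW_Z (F := F) 0 (idx 0)
    rw [wv_zero, zero_add] at this
    simpa using this
  · intro n idx i j g hg _ _
    have hg' : IsWeightedHomogeneous wt g
      (∑ l, wv (Fin.removeNth j (Fin.removeNth i idx) l)) := hg
    change IsWeightedHomogeneous wt (Z F (idx i) (Fin.removeNth i idx j) * g)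
      (∑ l : Fin (n + 2), wv (idx l))
    have h1 : (∑ l : Fin (n + 2), wv (idx l)) = (wv (idx i) + wv (Fin.removeNth i idx j)) +
        ∑ l, wv (Fin.removeNth j (Fin.removeNth i idx) l) := by
      rw [Fin.sum_univ_succAbove _ i, Fin.sum_univ_succAbove _ j, add_assoc]
      rfl
    rw [h1]
    exact (isW_Z _ _).mul hg'

/-- x-degree weight -/
def w0 (q : Var) : ℤ := if q.1.1 = 0 then 1 else 0

theorem w0_Z {a b : ℕ} (ha : a ≠ 0) (hb : b ≠ 0) : IsWeightedHomogeneous w0 (Z F a b) 0 := by
  rcases lt_trichotomy a b with h | h | h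
  · rw [Z_lt h]
    have := isWeightedHomogeneous_X F w0 (⟨(a, b), h⟩ : Var)
    rwa [w0, if_neg ha] at this
  · subst h; rw [Z_self]; exact isWeightedHomogeneous_zero _ _ _
  · rw [Z_swap, Z_lt h]
    have := isWeightedHomogeneous_X F w0 (⟨(b, a), h⟩ : Var)
    rw [w0, if_neg hb] at this
    exact this.neg

theorem w0_Z0 {b : ℕ} : IsWeightedHomogeneous w0 (Z F 0 b) 1 := by
  by_cases hb : b = 0
  · subst hb; rw [Z_self]; exact isWeightedHomogeneous_zero _ _ _
  · have h : 0 < b := by omega
    rw [Z_lt h]
    have := isWeightedHomogeneous_X F w0 (⟨(0, b), h⟩ : Var)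
    rwa [w0, if_pos rfl] at this

theorem p_w0 (n : ℕ) (idx : Fin n → ℕ) :
    IsWeightedHomogeneous w0 (p F n (fun i => ee F (idx i))) ((n % 2 : ℕ) : ℤ) := by
  have := p_family (F := F) (fun n idx =>
    (weightedHomogeneousSubmodule F w0 ((n % 2 : ℕ) : ℤ)).toAddSubgroup) ?_ ?_ ?_ n idx
  · exact this
  · intro idx
    change IsWeightedHomogeneous w0 (1 : CC F) ((0 % 2 : ℕ) : ℤ)
    exact isWeightedHomogeneous_one _ _
  · intro idx
    change IsWeightedHomogeneous w0 (Z F 0 (idx 0)) ((1 % 2 : ℕ) : ℤ)
    exact w0_Z0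
  · intro n idx i j g hg h1 h2
    have hg' : IsWeightedHomogeneous w0 g ((n % 2 : ℕ) : ℤ) := hg
    change IsWeightedHomogeneous w0 (Z F (idx i) (Fin.removeNth i idx j) * g)
      (((n + 2) % 2 : ℕ) : ℤ)
    have h3 : (((n + 2) % 2 : ℕ) : ℤ) = 0 + ((n % 2 : ℕ) : ℤ) := by
      rw [Nat.add_mod_right, zero_add]
    rw [h3]
    exact (w0_Z h1 h2).mul hg'

/-- polynomials with rational coefficients -/
noncomputable def RatS (F : Type u) [Field F] [CharZero F] : Subring (CC F) :=
  (MvPolynomial.map (algebraMap ℚ F) : MvPolynomial Var ℚ →+* CC F).range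

theorem Z_rat [CharZero F] (a b : ℕ) : Z F a b ∈ RatS F := by
  have hX : ∀ q : Var, (X q : CC F) ∈ RatS F := fun q => ⟨X q, by simp⟩
  rcases lt_trichotomy a b with h | h | h
  · rw [Z_lt h]; exact hX _
  · subst h; rw [Z_self]; exact Subring.zero_mem _
  · rw [Z_swap, Z_lt h]; exact Subring.neg_mem _ (hX _)

theorem p_rat [CharZero F] (n : ℕ) (idx : Fin n → ℕ) :
    p F n (fun i => ee F (idx i)) ∈ RatS F := by
  have := p_family (F := F) (fun _ _ => (RatS F).toAddSubgroup) ?_ ?_ ?_ n idx
  · exact this
  · intro _; exact Subring.one_mem _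
  · intro _; exact Z_rat _ _
  · intro n idx i j g hg _ _
    exact Subring.mul_mem _ (Z_rat _ _) hg

theorem B_rat_ne_zero [CharZero F] {f : CC F} (hf : f ∈ RatS F) (h0 : f ≠ 0) :
    B F Var f f ≠ 0 := by
  obtain ⟨g, rfl⟩ := hf
  have hinj : Function.Injective (algebraMap ℚ F) := (algebraMap ℚ F).injective
  rw [B_eq_sum]
  have h1 : ∑ d ∈ (MvPolynomial.map (algebraMap ℚ F) g).support,
      coeff d (MvPolynomial.map (algebraMap ℚ F) g) *
        ((fac d : F) * coeff d (MvPolynomial.map (algebraMap ℚ F) g)) =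
      algebraMap ℚ F (∑ d ∈ g.support, (fac d : ℚ) * (coeff d g) ^ 2) := by
    rw [support_map_of_injective g hinj, map_sum]
    apply Finset.sum_congr rfl
    intro d _
    rw [coeff_map, map_mul, map_pow, map_natCast]
    ring
  rw [h1]
  intro h2
  have h3 : ∑ d ∈ g.support, (fac d : ℚ) * (coeff d g) ^ 2 = 0 := by
    apply hinj; rw [h2, map_zero]
  have hg : g ≠ 0 := by
    rintro rfl; apply h0; simp
  obtain ⟨d, hd⟩ := MvPolynomial.ne_zero_iff.mp hg
  have h4 : 0 < ∑ d ∈ g.support, (fac d : ℚ) * (coeff d g) ^ 2 := by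
    apply Finset.sum_pos
    · intro e he
      have h5 : coeff e g ≠ 0 := mem_support_iff.mp he
      have h6 : (0 : ℚ) < fac e := by exact_mod_cast fac_pos e
      positivity
    · exact ⟨d, mem_support_iff.mpr hd⟩
  exact h4.ne' h3

theorem alt_shear {n : ℕ} (f : Alt F n) (v : Fin n → (ℕ →₀ F)) (i0 : Fin n) (c : Fin n → F)
    (hc : c i0 = 0) : f (fun i => v i + c i • v i0) = f v := by
  classical
  have key : ∀ S : Finset (Fin n), f (fun i => v i + (if i ∈ S then c i else 0) • v i0) = f v := by
    intro S
    induction S using Finset.induction_on with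
    | empty => simp
    | insert j S hj ih =>
      by_cases hj0 : j = i0
      · subst hj0
        rw [← ih]
        congr 1
        funext i
        by_cases hi : i = j
        · subst hi; simp [hj, hc]
        · simp [hi]
      · have h1 : (fun i => v i + (if i ∈ insert j S then c i else 0) • v i0) =
            Function.update (fun i => v i + (if i ∈ S then c i else 0) • v i0) j
              (v j + c j • v i0) := by
          funext i
          by_cases hi : i = j
          · subst hi; simp
          · rw [Function.update_of_ne hi]; simp [hi]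
        have h2 : Function.update (fun i => v i + (if i ∈ S then c i else 0) • v i0) j (v j) =
            (fun i => v i + (if i ∈ S then c i else 0) • v i0) := by
          funext i
          by_cases hi : i = j
          · subst hi; simp [hj]
          · rw [Function.update_of_ne hi]
        rw [h1, AlternatingMap.map_update_add, AlternatingMap.map_update_smul, h2, ih]
        have h3 : f (Function.update (fun i => v i + (if i ∈ S then c i else 0) • v i0) j
            (v i0)) = 0 := by
          apply f.map_eq_zero_of_eq _ (i := j) (j := i0) _ hj0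
          rw [Function.update_self, Function.update_of_ne (Ne.symm hj0)]
          simp [hc]
        rw [h3, smul_zero, add_zero]
  have := key Finset.univ
  simpa using this

theorem pe_hwv (n : ℕ) : Hwv (pe F n) := by
  intro s t hs ht
  rw [phi_pe (shear_good hs (ht 0 (Nat.zero_le _)))]
  unfold pe
  by_cases hsn : s ≤ n
  · have hs' : s - 1 < n := by omega
    have h1 : (fun i => shear s t (st F n i)) =
        (fun i => st F n i + t ((i : ℕ) + 1) • st F n ⟨s - 1, hs'⟩) := by
      funext i
      unfold st
      rw [shear_ee]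
      congr 3
      simp only
      omega
    rw [h1]
    apply alt_shear
    apply ht
    simp only
    omega
  · congr 1
    funext i
    unfold st
    rw [shear_ee, ht _ (by have := i.2; omega), zero_smul, add_zero]

theorem Hwv.mul {f g : CC F} (hf : Hwv f) (hg : Hwv g) : Hwv (f * g) := by
  intro s t hs ht
  rw [map_mul, hf s t hs ht, hg s t hs ht]

theorem Hwv.sub_smul {f g : CC F} (hf : Hwv f) (hg : Hwv g) (c : F) : Hwv (f - c • g) := by
  intro s t hs ht
  rw [map_sub, map_smul, hf s t hs ht, hg s t hs ht]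

/-- a column of height `n` -/
noncomputable def col (n : ℕ) : ℕ →₀ ℕ := ∑ i : Fin n, wv ((i : ℕ) + 1)

theorem col_apply (n j : ℕ) : col n j = if 1 ≤ j ∧ j ≤ n then 1 else 0 := by
  unfold col
  rw [Finsupp.finsetSum_apply]
  have h1 : ∀ i : Fin n, wv ((i : ℕ) + 1) j = if (i : ℕ) + 1 = j then 1 else 0 := by
    intro i
    rw [wv_pos (by omega), Finsupp.single_apply]
  simp only [h1]
  split_ifs with h
  · rw [Finset.sum_eq_single (⟨j - 1, by omega⟩ : Fin n)]
    · rw [if_pos (by simp only; omega)]
    · intro i _ hi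
      rw [if_neg]
      intro hij
      apply hi
      ext
      simp only
      omega
    · intro h; exact absurd (Finset.mem_univ _) h
  · apply Finset.sum_eq_zero
    intro i _
    rw [if_neg (by have := i.2; omega)]

theorem pe_isW (n : ℕ) : IsW (col n) (pe F n) := p_isW n (fun i => (i : ℕ) + 1)

variable (F) in
/-- the highest weight vectors attached to words (`true` adds a column, `false` a row) -/
noncomputable def P : List Bool → CC F
  | [] => 1
  | true :: w => pe F (w.count false) * P w
  | false :: w => P w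

/-- weights of words -/
noncomputable def wtw : List Bool → (ℕ →₀ ℕ)
  | [] => 0
  | true :: w => col (w.count false) + wtw w
  | false :: w => wtw w

/-- x-degree of words -/
def xdw : List Bool → ℤ
  | [] => 0
  | true :: w => ((w.count false % 2 : ℕ) : ℤ) + xdw w
  | false :: w => xdw w

theorem P_ne_zero [CharZero F] (w : List Bool) : P F w ≠ 0 := by
  induction w with
  | nil => exact one_ne_zero
  | cons b w ih =>
    cases b with
    | false => exact ih
    | true => exact mul_ne_zero (pe_ne_zero _) ih

theorem P_hwv (w : List Bool) : Hwv (P F w) := by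
  induction w with
  | nil => intro s t _ _; exact map_one _
  | cons b w ih =>
    cases b with
    | false => exact ih
    | true => exact (pe_hwv _).mul ih

theorem P_isW (w : List Bool) : IsW (wtw w) (P F w) := by
  induction w with
  | nil => exact isWeightedHomogeneous_one _ _
  | cons b w ih =>
    cases b with
    | false => exact ih
    | true => exact (pe_isW _).mul ih

theorem P_w0 (w : List Bool) : IsWeightedHomogeneous w0 (P F w) (xdw w) := by
  induction w with
  | nil => exact isWeightedHomogeneous_one _ _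
  | cons b w ih =>
    cases b with
    | false => exact ih
    | true => exact (p_w0 _ _).mul ih

theorem P_rat [CharZero F] (w : List Bool) : P F w ∈ RatS F := by
  induction w with
  | nil => exact Subring.one_mem _
  | cons b w ih =>
    cases b with
    | false => exact ih
    | true => exact Subring.mul_mem _ (p_rat _ _) ih

theorem wtw_replicate (m : ℕ) (v : List Bool) :
    wtw (List.replicate m true ++ v) = m • col (v.count false) + wtw v := by
  induction m with
  | zero => simp
  | succ m ih =>
    rw [List.replicate_succ, List.cons_append, wtw, ih]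
    have : (List.replicate m true ++ v).count false = v.count false := by
      rw [List.count_append, List.count_replicate]; simp
    rw [this, succ_nsmul, ← add_assoc, add_comm (col _)]

theorem exists_word (n : ℕ) : ∀ α : ℕ →₀ ℕ, α 0 = 0 → (∀ i, n < i → α i = 0) →
    (∀ i, 0 < i → α (i + 1) ≤ α i) → ∃ w : List Bool, w.count false = n ∧ wtw w = α := by
  induction n with
  | zero =>
    intro α h0 hsupp _
    refine ⟨[], rfl, ?_⟩
    ext i
    rcases Nat.eq_zero_or_pos i with h | h
    · subst h; rw [h0]; rfl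
    · rw [hsupp i h]; rfl
  | succ n ih =>
    intro α h0 hsupp hanti
    have hmono : ∀ i, 1 ≤ i → i ≤ n + 1 → α (n + 1) ≤ α i := by
      intro i hi hin
      obtain ⟨k, hk⟩ := Nat.exists_eq_add_of_le hin
      clear hin
      induction k generalizing i with
      | zero => rw [hk, add_zero]
      | succ k ih => exact (ih (i + 1) (by omega) (by omega)).trans (hanti i hi)
    obtain ⟨w, hw1, hw2⟩ := ih (α - α (n + 1) • col (n + 1)) (by simp [h0]) (by
      intro i hi
      rw [Finsupp.tsub_apply, Finsupp.smul_apply, col_apply]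
      by_cases h : i = n + 1
      · subst h; simp
      · rw [hsupp i (by omega)]; simp) (by
      intro i hi
      rw [Finsupp.tsub_apply, Finsupp.smul_apply, col_apply, Finsupp.tsub_apply,
        Finsupp.smul_apply, col_apply]
      have h1 := hanti i hi
      by_cases h2 : i ≤ n
      · rw [if_pos (by omega), if_pos (by omega)]
        omega
      · rw [hsupp (i + 1) (by omega)]; simp)
    refine ⟨List.replicate (α (n + 1)) true ++ false :: w, ?_, ?_⟩
    · rw [List.count_append, List.count_replicate, List.count_cons, hw1]; simp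
    · rw [wtw_replicate]
      have h1 : (false :: w).count false = n + 1 := by rw [List.count_cons, hw1]; simp
      rw [h1, wtw, hw2]
      ext i
      rw [Finsupp.add_apply, Finsupp.tsub_apply, Finsupp.smul_apply, col_apply]
      by_cases h : 1 ≤ i ∧ i ≤ n + 1
      · rw [if_pos h]
        have := hmono i h.1 h.2
        simp only [smul_eq_mul, mul_one]
        omega
      · rw [if_neg h]; simp

/-- every nonzero stable subspace contains some `P_w` -/
theorem exists_P_mem [CharZero F] {I : Submodule F (CC F)} (hI : Stable I) (hne : I ≠ ⊥) :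
    ∃ w, P F w ∈ I := by
  obtain ⟨f, hf, hf0, hh, α, hα, h0, hanti⟩ := exists_hwv hI hne
  obtain ⟨n, hn⟩ : ∃ n, ∀ i, n < i → α i = 0 := by
    refine ⟨α.support.sup id, fun i hi => ?_⟩
    by_contra hne
    have := Finset.le_sup (f := id) (Finsupp.mem_support_iff.mpr hne)
    simp only [id] at this
    omega
  obtain ⟨w, -, hw⟩ := exists_word n α h0 hn hanti
  refine ⟨w, ?_⟩
  have hP := P_isW (F := F) w
  rw [hw] at hP
  have hP0 : evq q0 (P F w) ≠ 0 := fun h => P_ne_zero w (hwv_unique (P_hwv w) hP h)
  set c : F := evq q0 f / evq q0 (P F w) with hc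
  have h1 : f - c • P F w = 0 := by
    apply hwv_unique (hh.sub_smul (P_hwv w) c)
      (hα.sub (by rw [smul_eq_C_mul]; exact hP.C_mul c))
    rw [map_sub, map_smul, hc, smul_eq_mul, div_mul_cancel₀ _ hP0, sub_self]
  have hc0 : c ≠ 0 := by
    intro h
    rw [h, zero_smul, sub_zero] at h1
    exact hf0 h1
  have h2 : P F w = c⁻¹ • f := by
    rw [sub_eq_zero.mp h1, smul_smul, inv_mul_cancel₀ hc0, one_smul]
  rw [h2]
  exact Submodule.smul_mem _ _ hf

end

end Pool.Agent.MP_1670b2_al
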